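import Pool.Agent.Y728.AK.NonCheap
import Pool.Agent.Y728.MainK

/-!
# Almost all points: the assembly (helper728)
-/

set_option autoImplicit false

namespace Pool.Agent.Y728.AK

open Finset NumberField IsDedekindDomain Pool.Agent.H691R3 Pool.Agent.TH876.Loc
open Pool.Agent.TH876.KR (side rr aw Light InP ChoG rr_nonneg rr_sum' log_nn log_Nv_pos')

/-- the points above `(1/3 + ε) log X` are few, of all heights -/
theorem almost_all_of (K : Type) [Field K] [NumberField K] (hLH : LargeH K) (hC1 : CountOne K)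
    (hC2 : CountTwo K) (hMid : MidInP K) : AlmostAll K := by
  classical
  intro ε hε
  obtain ⟨θ, δ2, M2, D2, X2, hθ, hδ2, hM2, hD2, hX2, htwo⟩ := hC2
  obtain ⟨θ1, hθ1⟩ : ∃ θ1, θ1 = min θ 1 := ⟨_, rfl⟩
  have hθ1p : 0 < θ1 := by rw [hθ1]; exact lt_min hθ one_pos
  have hθ11 : θ1 ≤ 1 := by rw [hθ1]; exact min_le_right _ _
  have hθ1θ : θ1 ≤ θ := by rw [hθ1]; exact min_le_left _ _
  obtain ⟨κ, M1, D1, X1, hκ, hM1, hD1, hX1, hone⟩ := hC1 (θ1 / 2) (by linarith) (by linarith)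
  -- the parameters
  obtain ⟨τ, hτ⟩ : ∃ τ, τ = min (min (1 / 20) (δ2 / 2)) (θ1 / 16) := ⟨_, rfl⟩
  have hτ0 : 0 < τ := by rw [hτ]; exact lt_min (lt_min (by norm_num) (by linarith)) (by linarith)
  have hτ1 : τ ≤ 1 / 20 := by rw [hτ]; exact (min_le_left _ _).trans (min_le_left _ _)
  have hτ2 : τ ≤ δ2 / 2 := by rw [hτ]; exact (min_le_left _ _).trans (min_le_right _ _)
  have hτ3 : τ ≤ θ1 / 16 := by rw [hτ]; exact min_le_right _ _
  obtain ⟨δ, hδ⟩ : ∃ δ, δ = τ / 40 := ⟨_, rfl⟩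
  have hδ0 : 0 < δ := by rw [hδ]; linarith
  obtain ⟨k, hk⟩ : ∃ k : ℕ, 9 + 40 / δ + 1 / δ2 + 2 / κ + 16 / (κ * θ1) ≤ k := exists_nat_ge _
  have p1 : 0 < 40 / δ := by positivity
  have p2 : 0 < 1 / δ2 := by positivity
  have p3 : 0 < 2 / κ := by positivity
  have p4 : 0 < 16 / (κ * θ1) := by positivity
  have hk9r : (9 : ℝ) ≤ k := by linarith
  have hk9 : 9 ≤ k := by exact_mod_cast hk9r
  have hk0 : (0 : ℝ) < k := by linarith
  have hkδ : 40 / (k : ℝ) ≤ δ := by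
    have : 40 / δ ≤ k := by linarith
    rw [div_le_iff₀ hδ0] at this
    rw [div_le_iff₀ hk0]
    linarith
  have hkδ2 : 1 / (k : ℝ) ≤ δ2 := by
    have : 1 / δ2 ≤ k := by linarith
    rw [div_le_iff₀ hδ2] at this
    rw [div_le_iff₀ hk0]
    linarith
  have hkκ : 2 / (k : ℝ) ≤ κ := by
    have : 2 / κ ≤ k := by linarith
    rw [div_le_iff₀ hκ] at this
    rw [div_le_iff₀ hk0]
    linarith
  have hkκθ : 4 / ((k : ℝ) * κ) ≤ θ1 / 4 := by
    have : 16 / (κ * θ1) ≤ k := by linarith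
    rw [div_le_iff₀ (by positivity)] at this
    rw [div_le_div_iff₀ (by positivity) (by norm_num)]
    linarith
  have hτk : 20 * δ + 20 / (k : ℝ) ≤ τ := by
    have e : 20 / (k : ℝ) = 40 / k / 2 := by ring
    rw [e, hδ]
    rw [hδ] at hkδ
    linarith
  obtain ⟨D3, hD3, X3, hX3, hcheap⟩ := Pool.Agent.Y728.cheapK K hk9 (η := 1) one_pos
  obtain ⟨M4, D4, X4, hM4, hD4, hX4, hmid⟩ := hMid k hk9
  obtain ⟨h, r, Cc, εu, g, G⟩ := Pool.Agent.Y728.exists_GD K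
  obtain ⟨D5, hD5, X5, hX5, hhuge⟩ := Pool.Agent.Y728.few_high G
  obtain ⟨Ms, hMs⟩ : ∃ Ms, Ms = max (max M1 M2) M4 := ⟨_, rfl⟩
  have hMs1 : M1 ≤ Ms := by rw [hMs]; exact (le_max_left _ _).trans (le_max_left _ _)
  have hMs2 : M2 ≤ Ms := by rw [hMs]; exact (le_max_right _ _).trans (le_max_left _ _)
  have hMs4 : M4 ≤ Ms := by rw [hMs]; exact le_max_right _ _
  obtain ⟨ν1, hν1, D6, hD6, hlarge⟩ := hLH Ms ε hε
  obtain ⟨D7, hD7, hall⟩ := Pool.Agent.Y728.mainK K 1 one_pos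
  obtain ⟨X0, hX0⟩ : ∃ X0, X0 = max (max (max X1 X2) (max X3 X4)) X5 := ⟨_, rfl⟩
  have hX01 : X1 ≤ X0 := by
    rw [hX0]; exact ((le_max_left _ _).trans (le_max_left _ _)).trans (le_max_left _ _)
  have hX02 : X2 ≤ X0 := by
    rw [hX0]; exact ((le_max_right _ _).trans (le_max_left _ _)).trans (le_max_left _ _)
  have hX03 : X3 ≤ X0 := by
    rw [hX0]; exact ((le_max_left _ _).trans (le_max_right _ _)).trans (le_max_left _ _)
  have hX04 : X4 ≤ X0 := by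
    rw [hX0]; exact ((le_max_right _ _).trans (le_max_right _ _)).trans (le_max_left _ _)
  have hX05 : X5 ≤ X0 := by rw [hX0]; exact le_max_right _ _
  have hX016 : 16 ≤ X0 := hX1.trans hX01
  obtain ⟨ν, hν⟩ : ∃ ν, ν = min (min ν1 (1 / 15)) (δ / 2) := ⟨_, rfl⟩
  have hν0 : 0 < ν := by rw [hν]; exact lt_min (lt_min hν1 (by norm_num)) (by linarith)
  have hνa : ν ≤ ν1 := by rw [hν]; exact (min_le_left _ _).trans (min_le_left _ _)
  have hνb : ν ≤ 1 / 15 := by rw [hν]; exact (min_le_left _ _).trans (min_le_right _ _)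
  have hνc : ν ≤ δ / 2 := by rw [hν]; exact min_le_right _ _
  refine ⟨ν, hν0, D1 + D2 + D3 + D4 + D5 + D6 + D7 * X0 ^ (2 / 3 + 1 : ℝ), by positivity,
    fun X hX1' F hF => ?_⟩
  have hXp : 0 < X := by linarith
  have hexp : ∀ a : ℝ, a ≤ 2 / 3 - ν → X ^ a ≤ X ^ (2 / 3 - ν) := fun a ha =>
    Real.rpow_le_rpow_of_exponent_le hX1' ha
  have hQ1 : 1 ≤ X ^ (2 / 3 - ν) := Real.one_le_rpow hX1' (by linarith)
  obtain ⟨Q, hQ⟩ : ∃ Q, Q = X ^ (2 / 3 - ν) := ⟨_, rfl⟩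
  rw [← hQ] at hexp hQ1 ⊢
  have hX00 : 0 < X0 := by linarith
  have hsplit : (D1 + D2 + D3 + D4 + D5 + D6 + D7 * X0 ^ (2 / 3 + 1 : ℝ)) * Q =
      D1 * Q + D2 * Q + D3 * Q + D4 * Q + D5 * Q + D6 * Q + D7 * X0 ^ (2 / 3 + 1 : ℝ) * Q := by
    ring
  have q1 : 0 ≤ D1 * Q := by positivity
  have q2 : 0 ≤ D2 * Q := by positivity
  have q3 : 0 ≤ D3 * Q := by positivity
  have q4 : 0 ≤ D4 * Q := by positivity
  have q5 : 0 ≤ D5 * Q := by positivity
  have q6 : 0 ≤ D6 * Q := by positivity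
  have q7 : 0 ≤ D7 * X0 ^ (2 / 3 + 1 : ℝ) * Q := by positivity
  rw [hsplit]
  rcases lt_or_ge X X0 with hXX | hXX
  · -- small `X`
    have h1 := hall X hX1' F (fun x hx => ⟨(hF x hx).1, (hF x hx).2.1⟩)
    have h2 : X ^ (2 / 3 + 1 : ℝ) ≤ X0 ^ (2 / 3 + 1 : ℝ) :=
      Real.rpow_le_rpow hXp.le hXX.le (by norm_num)
    have h3 : D7 * X ^ (2 / 3 + 1 : ℝ) ≤ D7 * X0 ^ (2 / 3 + 1 : ℝ) * Q := by
      calc D7 * X ^ (2 / 3 + 1 : ℝ) ≤ D7 * X0 ^ (2 / 3 + 1 : ℝ) :=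
            mul_le_mul_of_nonneg_left h2 hD7.le
        _ ≤ D7 * X0 ^ (2 / 3 + 1 : ℝ) * Q := le_mul_of_one_le_right (by positivity) hQ1
    linarith
  -- large `X`
  have hX16 : 16 ≤ X := hX016.trans hXX
  obtain ⟨L, hL⟩ : ∃ L, L = Real.log X := ⟨_, rfl⟩
  have hL1 : 1 ≤ L := by
    have := Pool.Agent.TH876.Loc.log_facts hX16
    have := Real.exp_one_gt_d9
    rw [hL]
    linarith
  have hL0 : 0 < L := by linarith
  obtain ⟨Mc, hMc⟩ : ∃ Mc, Mc = X ^ (2 / 3 - δ) := ⟨_, rfl⟩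
  have hδ1 : δ ≤ 1 / 3 := by rw [hδ]; linarith
  have hMc1 : 1 ≤ Mc := by rw [hMc]; exact Real.one_le_rpow hX1' (by linarith)
  have hMc2 : Mc ≤ X ^ (2 / 3 + 1 / (k : ℝ)) := by
    rw [hMc]
    have : 0 < 1 / (k : ℝ) := by positivity
    exact Real.rpow_le_rpow_of_exponent_le hX1' (by linarith)
  have hMc3 : Mc ≤ X ^ (2 / 3 - 1 / (k : ℝ)) := by
    rw [hMc]
    refine Real.rpow_le_rpow_of_exponent_le hX1' ?_
    have : 1 / (k : ℝ) ≤ 40 / k := div_le_div_of_nonneg_right (by norm_num) hk0.le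
    linarith
  -- the parts
  obtain ⟨FL, hFL⟩ : ∃ FL, FL = F.filter fun x => hgt x ≤ Ms * L := ⟨_, rfl⟩
  obtain ⟨FH, hFH⟩ : ∃ FH, FH = F.filter fun x => Real.exp (L ^ 8) < hgt x := ⟨_, rfl⟩
  obtain ⟨FC, hFC⟩ : ∃ FC, FC = F.filter fun x => Ms * L < hgt x ∧
    ∃ S : Finset (Pr K), nn S ≤ Mc ∧ ((L ≤ hgt x ∧ Light k S x) ∨
        (L ^ (2 + 1 : ℝ) ≤ hgt x ∧ ∃ (A B E : Fin 3) (p : Pr K), A ≠ B ∧ B ≠ E ∧ A ≠ E ∧
          InP k S A B E x p)) := ⟨_, rfl⟩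
  obtain ⟨FM, hFM⟩ : ∃ FM, FM = F.filter fun x => Ms * L < hgt x ∧ hgt x ≤ L ^ 3 ∧
    ∃ (S : Finset (Pr K)) (A B E : Fin 3) (p : Pr K), nn S ≤ Mc ∧ A ≠ B ∧ B ≠ E ∧ A ≠ E ∧
        InP k S A B E x p := ⟨_, rfl⟩
  obtain ⟨FN, hFN⟩ : ∃ FN, FN = F.filter fun x => Ms * L < hgt x ∧ hgt x ≤ Real.exp (L ^ 8) ∧
    NC k (2 / 3 - δ) L x := ⟨_, rfl⟩
  have hMs1' : 1 ≤ Ms := hM4.trans hMs4
  have hcov : F ⊆ FL ∪ (FH ∪ (FC ∪ (FM ∪ FN))) := by
    intro x hx
    rcases le_or_gt (hgt x) (Ms * L) with h1 | h1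
    · refine Finset.mem_union_left _ ?_
      rw [hFL]
      exact Finset.mem_filter.2 ⟨hx, h1⟩
    refine Finset.mem_union_right _ ?_
    rcases lt_or_ge (Real.exp (L ^ 8)) (hgt x) with h2 | h2
    · refine Finset.mem_union_left _ ?_
      rw [hFH]
      exact Finset.mem_filter.2 ⟨hx, h2⟩
    refine Finset.mem_union_right _ ?_
    by_cases hnc : NC k (2 / 3 - δ) L x
    · refine Finset.mem_union_right _ (Finset.mem_union_right _ ?_)
      rw [hFN]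
      exact Finset.mem_filter.2 ⟨hx, h1, h2, hnc⟩
    · unfold NC at hnc
      push Not at hnc
      obtain ⟨S, hS, hSL⟩ := hnc
      have hSM : nn S ≤ Mc := by
        have h0 : 0 < nn S := Finset.prod_pos fun v _ => Nv_pos v
        rw [hMc, ← Real.log_le_log_iff h0 (by positivity), Real.log_rpow hXp, log_nn, ← hL]
        exact hSL
      have hLh : L ≤ hgt x := by
        have : L ≤ Ms * L := le_mul_of_one_le_left hL0.le hMs1'
        linarith
      rcases hS with hS | ⟨A, B, E, p, hAB, hBE, hAE, hP⟩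
      · refine Finset.mem_union_left _ ?_
        rw [hFC]
        exact Finset.mem_filter.2 ⟨hx, h1, S, hSM, Or.inl ⟨hLh, hS⟩⟩
      · rcases le_or_gt (L ^ (2 + 1 : ℝ)) (hgt x) with h3 | h3
        · refine Finset.mem_union_left _ ?_
          rw [hFC]
          exact Finset.mem_filter.2 ⟨hx, h1, S, hSM, Or.inr ⟨h3, A, B, E, p, hAB, hBE, hAE, hP⟩⟩
        · refine Finset.mem_union_right _ (Finset.mem_union_left _ ?_)
          rw [hFM]
          refine Finset.mem_filter.2 ⟨hx, h1, ?_, S, A, B, E, p, hSM, hAB, hBE, hAE, hP⟩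
          have e : L ^ (2 + 1 : ℝ) = L ^ 3 := by
            rw [← Real.rpow_natCast]
            norm_num
          rw [← e]
          exact h3.le
  -- their sizes
  have dL : (FL.card : ℝ) ≤ D6 * Q := by
    have h1 := hlarge X hX1' FL (fun x hx => by
      rw [hFL, mem_filter] at hx
      obtain ⟨a, b, c⟩ := hF x hx.1
      exact ⟨a, b, c, by rw [← hL]; exact hx.2⟩)
    exact h1.trans (mul_le_mul_of_nonneg_left (hexp _ (by linarith)) hD6.le)
  have dH : (FH.card : ℝ) ≤ D5 * Q := by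
    have h1 := hhuge X (hX05.trans hXX) FH (fun x hx => by
      rw [hFH, mem_filter] at hx
      obtain ⟨a, b, c⟩ := hF x hx.1
      exact ⟨a, b, by rw [← hL]; exact hx.2⟩)
    exact h1.trans (le_mul_of_one_le_right hD5.le hQ1)
  have hMcQ : ∀ a : ℝ, a ≤ 20 → Mc * X ^ (a / (k : ℝ)) ≤ Q := by
    intro a ha
    rw [hMc, ← Real.rpow_add hXp]
    refine hexp _ ?_
    have e1 : a / (k : ℝ) ≤ 20 / k := div_le_div_of_nonneg_right ha hk0.le
    have e2 : 20 / (k : ℝ) = 40 / k / 2 := by ring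
    linarith
  have dC : (FC.card : ℝ) ≤ D3 * Q := by
    have h1 := hcheap X (hX03.trans hXX) Mc hMc1 hMc2 FC (fun x hx => by
      rw [hFC, mem_filter] at hx
      obtain ⟨a, b, c⟩ := hF x hx.1
      obtain ⟨-, -, S, hS, hS2⟩ := hx
      rw [hL] at hS2
      exact ⟨a, b, S, hS, hS2⟩)
    exact h1.trans (mul_le_mul_of_nonneg_left (hMcQ 5 (by norm_num)) hD3.le)
  have dM : (FM.card : ℝ) ≤ D4 * Q := by
    have h1 := hmid X (hX04.trans hXX) Mc hMc1 hMc3 FM (fun x hx => by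
      rw [hFM, mem_filter] at hx
      obtain ⟨a, b, c⟩ := hF x hx.1
      obtain ⟨-, h2, h3, h4⟩ := hx
      refine ⟨a, b, ?_, by rw [← hL]; exact h3, h4⟩
      rw [← hL]
      exact (mul_le_mul_of_nonneg_right hMs4 hL0.le).trans h2.le)
    exact h1.trans (mul_le_mul_of_nonneg_left (hMcQ 10 (by norm_num)) hD4.le)
  -- the points without cheap sets
  have hFNx : ∀ x ∈ FN, Pt x ∧ nn (sp x) ≤ X ∧ 0 < hgt x ∧ Ms * L ≤ hgt x ∧
      hgt x ≤ Real.exp (L ^ 8) ∧ NC k (2 / 3 - δ) L x ∧ ∑ v ∈ sp x, Real.log (Nv v) ≤ L := by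
    intro x hx
    rw [hFN, mem_filter] at hx
    obtain ⟨a, b, c⟩ := hF x hx.1
    obtain ⟨-, h2, h3, h4⟩ := hx
    refine ⟨a, b, ?_, h2.le, h3, h4, ?_⟩
    · have : 0 < Ms * L := mul_pos (by linarith) hL0
      linarith
    · rw [← log_nn, hL]
      exact Real.log_le_log (Finset.prod_pos fun v _ => Nv_pos v) b
  obtain ⟨FA, hFA⟩ : ∃ FA, FA = FN.filter fun x => ∀ v ∈ sp x, Real.log (Nv v) ≤ θ1 * L := ⟨_, rfl⟩
  obtain ⟨FB, hFB⟩ : ∃ FB, FB = FN.filter fun x => ¬ ∀ v ∈ sp x, Real.log (Nv v) ≤ θ1 * L :=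
    ⟨_, rfl⟩
  have hAB : FN.card = FA.card + FB.card := by
    rw [hFA, hFB]
    exact (Finset.card_filter_add_card_filter_not _).symm
  have dA : (FA.card : ℝ) ≤ D2 * Q := by
    have h1 := htwo X (hX02.trans hXX) FA (fun x hx => by
      rw [hFA, mem_filter] at hx
      obtain ⟨hxN, hsm⟩ := hx
      obtain ⟨a, b, c0, c1, c2, hnc, hr⟩ := hFNx x hxN
      rw [← hL]
      obtain ⟨P, hP⟩ := exists_max x
      obtain ⟨heq, -⟩ := nc_equal (by omega) hδ0 hL0 hτk a c0 hnc hr hP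
      refine ⟨a, b, (mul_le_mul_of_nonneg_right hMs2 hL0.le).trans c1, c2, ?_, ?_, ?_⟩
      · intro v hv
        exact (hsm v hv).trans (mul_le_mul_of_nonneg_right hθ1θ hL0.le)
      · intro i
        refine le_trans (mul_le_mul_of_nonneg_right ?_ hL0.le) (heq i).1
        linarith
      · intro D hD hw
        refine (nc_light hkδ2 a hnc hr hD hw).trans (mul_le_mul_of_nonneg_right ?_ hL0.le)
        linarith)
    exact h1.trans (mul_le_mul_of_nonneg_left (hexp _ (by linarith)) hD2.le)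
  have dB : (FB.card : ℝ) ≤ D1 * Q := by
    have h1 := hone X (hX01.trans hXX) FB (fun x hx => by
      rw [hFB, mem_filter] at hx
      obtain ⟨hxN, hbig⟩ := hx
      push Not at hbig
      obtain ⟨v0, hv0, hv0L⟩ := hbig
      obtain ⟨a, b, c0, c1, c2, hnc, hr⟩ := hFNx x hxN
      rw [← hL]
      obtain ⟨P, hP⟩ := exists_max x
      obtain ⟨heq, -⟩ := nc_equal (by omega) hδ0 hL0 hτk a c0 hnc hr hP
      refine ⟨a, b, (mul_le_mul_of_nonneg_right hMs1 hL0.le).trans c1, c2, ?_, ?_⟩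
      · intro i
        refine (heq i).2.trans (mul_le_mul_of_nonneg_right ?_ hL0.le)
        linarith
      · intro i
        exact nc_heavy (by omega) hδ0 hL0 hτk (θ := θ1) (θ' := θ1 / 2) (by linarith) hκ hkκ
          (by linarith) a c0 hnc hr hv0 hv0L i)
    exact h1.trans (mul_le_mul_of_nonneg_left (hexp _ (by linarith)) hD1.le)
  have hcard : (F.card : ℝ) ≤ FL.card + (FH.card + (FC.card + (FM.card + (FA.card + FB.card)))) := by
    have h1 := Finset.card_le_card hcov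
    have h2 := Finset.card_union_le FL (FH ∪ (FC ∪ (FM ∪ FN)))
    have h3 := Finset.card_union_le FH (FC ∪ (FM ∪ FN))
    have h4 := Finset.card_union_le FC (FM ∪ FN)
    have h5 := Finset.card_union_le FM FN
    have h6 : F.card ≤ FL.card + (FH.card + (FC.card + (FM.card + (FA.card + FB.card)))) := by
      omega
    exact_mod_cast h6
  linarith

end Pool.Agent.Y728.AK
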