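import Pool.Agent.Y728.AK.Def
import Pool.Agent.Y496.GensC

/-!
# Balanced generators of powers of the primes (helper728)
-/

set_option autoImplicit false

namespace Pool.Agent.Y728.AK

open Finset NumberField IsDedekindDomain Height Module Pool.Agent.H691R3 Pool.Agent.TH876.Loc
open Pool.Agent.Y496.GC (prod_eq_absNorm sum_log coe_ne)

/-- generators of the powers of the primes, bounded above -/
theorem gen_up (K : Type) [Field K] [NumberField K] : ∃ (C : ℝ) (π : Pr K → 𝓞 K), 0 ≤ C ∧
    (∀ v, Ideal.span {π v} = v.asIdeal ^ Fintype.card (ClassGroup (𝓞 K))) ∧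
    ∀ (v : Pr K) (w : InfinitePlace K), (finrank ℚ K : ℝ) * Real.log (w (π v : K)) ≤
      C + Fintype.card (ClassGroup (𝓞 K)) * Real.log (Nv v) := by
  classical
  obtain ⟨L, hL, hsm⟩ := Pool.Agent.W45.AK.exists_small (K := K)
  obtain ⟨cl, hcl⟩ : ∃ cl, cl = Fintype.card (ClassGroup (𝓞 K)) := ⟨_, rfl⟩
  obtain ⟨d, hd⟩ : ∃ d, d = finrank ℚ K := ⟨_, rfl⟩
  have hd0 : 0 < d := by rw [hd]; exact finrank_pos
  have hd1 : (1 : ℝ) ≤ d := by exact_mod_cast hd0
  choose π0 hπ0 using (Pool.Agent.TH876.KR.gens_pi (K := K))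
  rw [← hcl] at hπ0 ⊢
  rw [← hd] at hsm ⊢
  -- the finite set of ideals
  obtain ⟨T, hT⟩ : ∃ T : Finset (Ideal (𝓞 K)), T =
    (Ideal.finite_setOfPred_absNorm_le (S := 𝓞 K) ⌊Real.exp L⌋₊).toFinset := ⟨_, rfl⟩
  let gen : Ideal (𝓞 K) → 𝓞 K := fun J =>
    if h : ∃ g : 𝓞 K, Ideal.span {g} = J then h.choose else 1
  have hgen : ∀ b : 𝓞 K, Ideal.span {gen (Ideal.span {b})} = Ideal.span {b} := by
    intro b
    have h : ∃ g : 𝓞 K, Ideal.span {g} = Ideal.span {b} := ⟨b, rfl⟩
    simp only [gen, dif_pos h]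
    exact h.choose_spec
  obtain ⟨D, hD⟩ : ∃ D : ℝ, D = ∑ J ∈ T, ∑ w : InfinitePlace K, |Real.log (w (gen J : K))| :=
    ⟨_, rfl⟩
  have hDle : ∀ J ∈ T, ∀ w : InfinitePlace K, |Real.log (w (gen J : K))| ≤ D := by
    intro J hJ w
    have h1 : |Real.log (w (gen J : K))| ≤ ∑ w : InfinitePlace K, |Real.log (w (gen J : K))| :=
      Finset.single_le_sum (f := fun w : InfinitePlace K => |Real.log (w (gen J : K))|)
        (fun w _ => abs_nonneg _) (Finset.mem_univ w)
    rw [hD]
    exact h1.trans (Finset.single_le_sum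
      (f := fun J => ∑ w : InfinitePlace K, |Real.log (w (gen J : K))|)
      (fun J _ => Finset.sum_nonneg fun w _ => abs_nonneg _) hJ)
  have hD0 : 0 ≤ D := by
    rw [hD]
    exact Finset.sum_nonneg fun J _ => Finset.sum_nonneg fun w _ => abs_nonneg _
  have key : ∀ v : Pr K, ∃ π : 𝓞 K, Ideal.span {π} = v.asIdeal ^ cl ∧
      ∀ w : InfinitePlace K, (d : ℝ) * Real.log (w (π : K)) ≤ (L + d * D) + cl * Real.log (Nv v) := by
    intro v
    have hI : v.asIdeal ^ cl ≠ ⊥ := pow_ne_zero _ v.ne_bot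
    obtain ⟨β, hβI, hβ0, hβ⟩ := hsm _ hI
    rw [← hπ0 v, Ideal.mem_span_singleton] at hβI
    obtain ⟨b, hb⟩ := hβI
    have hb0 : b ≠ 0 := by rintro rfl; exact hβ0 (by rw [hb, mul_zero])
    have hNI : (Ideal.absNorm (v.asIdeal ^ cl) : ℝ) = Nv v ^ cl := by
      rw [map_pow]
      push_cast
      rfl
    have hNv : 1 ≤ Nv v := by linarith [two_le_Nv v]
    have hNvcl : 1 ≤ Nv v ^ cl := one_le_pow₀ hNv
    have hwβ : ∀ w : InfinitePlace K, (d : ℝ) * Real.log (w (β : K)) ≤ L + Real.log (Nv v ^ cl) := by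
      intro w
      rw [← hNI]
      exact hβ w
    -- the norm of b
    have hsum := sum_log β hβ0
    have hmult : ∑ w : InfinitePlace K, (w.mult : ℝ) = d := by
      rw [hd, ← InfinitePlace.sum_mult_eq (K := K)]
      push_cast
      rfl
    have hle : Real.log (Ideal.absNorm (Ideal.span {β}) : ℝ) ≤ L + Real.log (Nv v ^ cl) := by
      rw [← hsum]
      have h1 : ∀ w : InfinitePlace K, (w.mult : ℝ) * Real.log (w (β : K)) ≤
          (w.mult : ℝ) / d * (L + Real.log (Nv v ^ cl)) := by
        intro w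
        have h2 := mul_le_mul_of_nonneg_left (hwβ w) (by positivity : 0 ≤ (w.mult : ℝ) / d)
        have h3 : (w.mult : ℝ) / d * ((d : ℝ) * Real.log (w (β : K))) =
            (w.mult : ℝ) * Real.log (w (β : K)) := by
          have : (d : ℝ) ≠ 0 := by positivity
          field_simp
        rw [h3] at h2
        exact h2
      refine (Finset.sum_le_sum fun w _ => h1 w).trans ?_
      rw [← Finset.sum_mul, ← Finset.sum_div, hmult, div_self (by positivity), one_mul]
    have hspan : Ideal.absNorm (Ideal.span {β}) =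
        Ideal.absNorm (v.asIdeal ^ cl) * Ideal.absNorm (Ideal.span {b}) := by
      rw [hb, ← Ideal.span_singleton_mul_span_singleton, hπ0 v, map_mul]
    have hbpos : 0 < (Ideal.absNorm (Ideal.span {b}) : ℝ) := by
      have : Ideal.absNorm (Ideal.span {b}) ≠ 0 := by
        rw [Ne, Ideal.absNorm_eq_zero_iff, Ideal.span_singleton_eq_bot]
        exact hb0
      exact_mod_cast Nat.pos_of_ne_zero this
    have hbT : Ideal.span {b} ∈ T := by
      rw [hT, Set.Finite.mem_toFinset, Set.mem_ofPred_eq]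
      apply Nat.le_floor
      rw [hspan] at hle
      push_cast at hle
      rw [hNI, Real.log_mul (by positivity) hbpos.ne'] at hle
      rw [← Real.log_le_iff_le_exp hbpos]
      linarith
    have hg := hgen b
    obtain ⟨u, hu⟩ := Ideal.span_singleton_eq_span_singleton.1 hg
    refine ⟨π0 v * u, ?_, fun w => ?_⟩
    · rw [← hπ0 v]
      exact Ideal.span_singleton_mul_right_unit u.isUnit _
    · have h0 : β = (π0 v * u) * gen (Ideal.span {b}) := by
        calc β = π0 v * b := hb
          _ = π0 v * (gen (Ideal.span {b}) * u) := by rw [hu]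
          _ = _ := by ring
      have h1 : (β : K) = ((π0 v * u : 𝓞 K) : K) * (gen (Ideal.span {b}) : K) := by
        rw [← map_mul, ← h0]
      have hg0 : gen (Ideal.span {b}) ≠ 0 := by
        intro h0
        rw [h0, zero_mul] at hu
        exact hb0 hu.symm
      have hπu : (π0 v * u : 𝓞 K) ≠ 0 := by
        intro h2
        rw [h2, zero_mul] at h0
        exact hβ0 h0
      have hwg : 0 < w (gen (Ideal.span {b}) : K) := InfinitePlace.pos_iff.mpr (coe_ne hg0)
      have hwπ : 0 < w ((π0 v * u : 𝓞 K) : K) := InfinitePlace.pos_iff.mpr (coe_ne hπu)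
      have h2 : Real.log (w (β : K)) = Real.log (w ((π0 v * u : 𝓞 K) : K)) +
          Real.log (w (gen (Ideal.span {b}) : K)) := by
        rw [h1, map_mul, Real.log_mul hwπ.ne' hwg.ne']
      have h3 := hwβ w
      have h4 := (abs_le.1 (hDle _ hbT w)).1
      rw [Real.log_pow] at h3
      rw [h2] at h3
      have h5 : (d : ℝ) * -D ≤ d * Real.log (w (gen (Ideal.span {b}) : K)) :=
        mul_le_mul_of_nonneg_left h4 (by linarith)
      linarith
  choose π hπ1 hπ2 using key
  exact ⟨L + d * D, π, by positivity, hπ1, hπ2⟩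

/-- balanced generators -/
theorem exists_GB (K : Type) [Field K] [NumberField K] :
    ∃ (h : ℕ) (C : ℝ) (g : Pr K → 𝓞 K), GB K h C g := by
  obtain ⟨C, π, hC, h1, h2⟩ := gen_up K
  obtain ⟨cl, hcl⟩ : ∃ cl, cl = Fintype.card (ClassGroup (𝓞 K)) := ⟨_, rfl⟩
  obtain ⟨d, hd⟩ : ∃ d, d = finrank ℚ K := ⟨_, rfl⟩
  have hd0 : 0 < d := by rw [hd]; exact finrank_pos
  have hd1 : (1 : ℝ) ≤ d := by exact_mod_cast hd0
  rw [← hcl] at h1 h2
  rw [← hd] at h2
  refine ⟨cl, C + 1, π, ⟨?_, by linarith, fun v => ?_, fun u v huv => ?_, fun v w => ?_⟩⟩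
  · rw [hcl]; exact Fintype.card_pos
  · exact Pool.Agent.TH876.KR.gens_pi_self v (h1 v)
  · exact Pool.Agent.TH876.KR.gens_pi_ne huv (h1 v)
  · rw [← hd]
    have hπ0 : π v ≠ 0 := by
      intro h
      have := h1 v
      rw [h, Ideal.span_singleton_eq_bot.2 rfl] at this
      exact pow_ne_zero _ v.ne_bot this.symm
    have hmult : ∑ w : InfinitePlace K, (w.mult : ℝ) = d := by
      rw [hd, ← InfinitePlace.sum_mult_eq (K := K)]
      push_cast
      rfl
    have hsum := sum_log (π v) hπ0
    have hN : Real.log (Ideal.absNorm (Ideal.span {π v}) : ℝ) = cl * Real.log (Nv v) := by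
      rw [h1 v, map_pow]
      push_cast
      rw [Real.log_pow]
      rfl
    rw [hN] at hsum
    obtain ⟨t, ht⟩ : ∃ t, t = cl * Real.log (Nv v) := ⟨_, rfl⟩
    have h3 : ∀ w : InfinitePlace K, Real.log (w (π v : K)) ≤ (C + t) / d := by
      intro w
      rw [le_div_iff₀ (by linarith), ht]
      linarith [h2 v w]
    have e : (cl : ℝ) / d * Real.log (Nv v) = t / d := by rw [ht]; ring
    rw [e]
    rw [← ht] at hsum
    have hCd : C / d ≤ C := div_le_self hC hd1
    rw [abs_le]
    constructor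
    · -- lower bound
      have h4 : ∑ w' : InfinitePlace K, (w'.mult : ℝ) * ((C + t) / d - Real.log (w' (π v : K))) = C := by
        simp_rw [mul_sub]
        rw [Finset.sum_sub_distrib, ← Finset.sum_mul, hmult, hsum]
        field_simp
        ring
      have h5 : (w.mult : ℝ) * ((C + t) / d - Real.log (w (π v : K))) ≤ C := by
        refine (Finset.single_le_sum
          (f := fun w' : InfinitePlace K => (w'.mult : ℝ) * ((C + t) / d - Real.log (w' (π v : K))))
          (fun w' _ => mul_nonneg (Nat.cast_nonneg _) (by linarith [h3 w']))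
          (Finset.mem_univ w)).trans_eq h4
      have hm : (1 : ℝ) ≤ w.mult := by exact_mod_cast InfinitePlace.mult_pos
      have h6 : 0 ≤ (C + t) / d - Real.log (w (π v : K)) := by linarith [h3 w]
      have h7 : (C + t) / d - Real.log (w (π v : K)) ≤ C := by nlinarith
      have h8 : t / d ≤ (C + t) / d := by
        rw [div_le_div_iff_of_pos_right (by linarith)]
        linarith
      linarith
    · have h4 := h3 w
      rw [add_div] at h4
      linarith

end Pool.Agent.Y728.AK
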