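import Pool.Agent.Y728.AK.CntTwo
import Pool.Agent.Y728.AK.Gen

/-!
# The number of points of the second kind, conclusion (helper728)
-/

set_option autoImplicit false

namespace Pool.Agent.Y728.AK

open Finset NumberField IsDedekindDomain Height Pool.Agent.H691R3 Pool.Agent.TH876.Loc
open Pool.Agent.TH876.KR (log_Nv_pos' side aw rr qt qt_ne lg_qt lg_qt_sub df_eq_zero side_sum
  side_sub side_uniq mem_sp_iff mem_side gd_eq aw_nonneg rr_sum side_disj log_nn)
open Pool.Agent.Y911.AA (greedy exists_sum grid grid_spec)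

/-- **rigid points all of whose primes are small** -/
theorem count_two (K : Type) [Field K] [NumberField K] (hc : ClassFin K) : CountTwo K := by
  classical
  obtain ⟨h, C, g, G⟩ := exists_GB K
  obtain ⟨c1, hc1, hcls⟩ := hc
  have hhr : (1 : ℝ) ≤ h := by exact_mod_cast G.h1
  have hC1 : 1 ≤ C := G.C1
  have hd : (0 : ℝ) < Module.finrank ℚ K := by exact_mod_cast Module.finrank_pos
  obtain ⟨W, hW⟩ : ∃ W : ℝ, W = 100000 * c1 * (h + 1) * h := ⟨_, rfl⟩
  have hch : 1 ≤ c1 * (h + 1) * h :=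
    one_le_mul_of_one_le_of_one_le (one_le_mul_of_one_le_of_one_le hc1 (by linarith)) hhr
  have hW1 : 100000 ≤ W := by
    have e : W = 100000 * (c1 * (h + 1) * h) := by rw [hW]; ring
    rw [e]
    linarith
  have hW0 : 0 < W := by linarith
  obtain ⟨ε, hε⟩ : ∃ ε : ℝ, ε = 1 / W := ⟨_, rfl⟩
  have hε0 : 0 < ε := by rw [hε]; positivity
  have hε1 : ε ≤ 1 / 100 := by
    rw [hε]
    exact one_div_le_one_div_of_le (by norm_num) (by linarith)
  have hεW : ε * (100000 * c1 * (h + 1) * h) ≤ 1 := by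
    rw [← hW, hε, one_div, inv_mul_cancel₀ hW0.ne']
  obtain ⟨θ, hθ⟩ : ∃ θ : ℝ, θ = ε * ε / 100 := ⟨_, rfl⟩
  have hεε : 0 < ε * ε := by positivity
  have hεε1 : ε * ε ≤ 1 / 100 * (1 / 100) := mul_le_mul hε1 hε1 hε0.le (by norm_num)
  have hθ0 : 0 < θ := by rw [hθ]; positivity
  have hθ1 : θ ≤ 1 / 1000 := by rw [hθ]; linarith
  obtain ⟨X1, hX1, homega⟩ := Pool.Agent.Y96.omegaK K
  obtain ⟨X2, hX2, hsets⟩ := Pool.Agent.Y728.card_setsM K (k := 20) (by norm_num)
  obtain ⟨C8, hC8, hlog8⟩ := Pool.Agent.Y728.log_pow_leK 8 (by norm_num : (0 : ℝ) < 1 / 10)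
  obtain ⟨X3, hX3⟩ : ∃ X3 : ℝ, X3 = Real.exp (Real.exp (3 * Module.finrank ℚ K * C / ε)) :=
    ⟨_, rfl⟩
  obtain ⟨X4, hX4⟩ : ∃ X4 : ℝ, X4 = Real.exp (10 * c1 * W) := ⟨_, rfl⟩
  refine ⟨θ, θ, 1 / ε, (2 / ε + 1) * (3 * C8), max (max X1 X2) (max X3 X4), hθ0, hθ0, by positivity,
    by positivity, hX1.trans ((le_max_left _ _).trans (le_max_left _ _)), fun X hX F hF => ?_⟩
  have hXX1 : X1 ≤ X := ((le_max_left _ _).trans (le_max_left _ _)).trans hX
  have hXX2 : X2 ≤ X := ((le_max_right _ _).trans (le_max_left _ _)).trans hX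
  have hXX3 : X3 ≤ X := ((le_max_left _ _).trans (le_max_right _ _)).trans hX
  have hXX4 : X4 ≤ X := ((le_max_right _ _).trans (le_max_right _ _)).trans hX
  have hX16 : 16 ≤ X := hX1.trans hXX1
  have hX0 : 0 < X := by linarith
  have hX1' : 1 ≤ X := by linarith
  obtain ⟨L, hL⟩ : ∃ L : ℝ, L = Real.log X := ⟨_, rfl⟩
  have hLexp : Real.exp L = X := by rw [hL, Real.exp_log hX0]
  have hL4 : 10 * c1 * W ≤ L := by
    rw [hL, Real.le_log_iff_exp_le hX0, ← hX4]
    exact hXX4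
  have hL3 : Real.exp (3 * Module.finrank ℚ K * C / ε) ≤ L := by
    rw [hL, Real.le_log_iff_exp_le hX0, ← hX3]
    exact hXX3
  have hcW : 1 ≤ c1 * W := one_le_mul_of_one_le_of_one_le hc1 (by linarith)
  have hL10 : 10 ≤ L := by
    have e : 10 * c1 * W = 10 * (c1 * W) := by ring
    rw [e] at hL4
    linarith
  have hL0 : 0 < L := by linarith
  have hLc : 10 * c1 ≤ L := by
    refine le_trans ?_ hL4
    exact le_mul_of_one_le_right (by linarith) (by linarith)
  have hLe : 1 / ε ≤ Real.exp (L / (10 * c1)) := by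
    have h1 : W ≤ L / (10 * c1) := by
      rw [le_div_iff₀ (by linarith)]
      linarith
    have h2 := Real.add_one_le_exp (L / (10 * c1))
    have h3 : 1 / ε = W := by rw [hε, one_div_one_div]
    rw [h3]
    linarith
  have hLL : 0 < Real.log L := Real.log_pos (by linarith)
  have hLL2 : 3 * Module.finrank ℚ K * C / ε ≤ Real.log L := by
    rw [Real.le_log_iff_exp_le hL0]
    exact hL3
  -- the data of a point
  have hdat : ∀ x ∈ F, ∃ (s : ℕ) (D : Finset (Pr K)), (s : ℝ) ≤ 2 / ε * (2 + L ^ 8) ∧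
      1 / ε ≤ grid ε s ∧ L / 10 ≤ ∑ v ∈ D, Real.log (Nv v) ∧
      ∑ v ∈ D, Real.log (Nv v) ≤ L / 10 + θ * L ∧
      Pt x ∧ ∑ v ∈ sp x, Real.log (Nv v) ≤ L ∧
      Module.finrank ℚ K * C * (sp x).card ≤ ε * L ∧ D ⊆ tp 0 (grid ε s) x ∧
      ∀ i : Fin 3, hgt x - (grid ε s : ℝ) * ∑ v ∈ tp i (grid ε s) x, Real.log (Nv v) ≤
        5 * ε * grid ε s * L := by
    intro x hx
    obtain ⟨a1, a2, a3, a4, a5, a6, a7⟩ := hF x hx
    rw [← hL] at a3 a4 a5 a6 a7
    have b1 : ∑ v ∈ sp x, Real.log (Nv v) ≤ L := by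
      rw [← log_nn, hL]
      exact Real.log_le_log (nn_pos _) a2
    have b2 : L ≤ ε * hgt x := by
      have h1 := mul_le_mul_of_nonneg_left a3 hε0.le
      have e : ε * (1 / ε * L) = L := by field_simp
      rw [e] at h1
      exact h1
    have hH0 : 0 < hgt x := by
      have : 0 < ε * hgt x := lt_of_lt_of_le hL0 b2
      exact pos_of_mul_pos_right this hε0.le
    obtain ⟨s, h1, h2, h3⟩ := str_twoK a1 hL0 hθ0 hθ0.le hε0 hε1
      (by rw [hθ]; linarith) b1 a5 a6 a7 b2 (by linarith)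
    have h4 := (h3 0).2
    have h5 : L / 10 ≤ ∑ v ∈ tp 0 (grid ε s) x, Real.log (Nv v) := by
      refine le_trans ?_ h4
      have e : L / 10 = 1 / 10 * L := by ring
      rw [e]
      exact mul_le_mul_of_nonneg_right (by linarith) hL0.le
    obtain ⟨D, hD, h6, h7⟩ := exists_sum (fun v : Pr K => Real.log (Nv v)) (θ * L) (L / 10)
      (tp 0 (grid ε s) x) (fun v hv => a5 v (side_sub 0 x (tp_sub 0 _ x hv))) (by positivity) h5
      (by positivity)
    refine ⟨s, D, ?_, h2, h6, h7, a1, b1, ?_, hD, fun i => (h3 i).1⟩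
    · refine h1.trans (mul_le_mul_of_nonneg_left ?_ (by positivity))
      rw [Real.log_mul (by norm_num) hH0.ne']
      have h8 : Real.log 3 ≤ 2 := by
        have := Real.log_le_sub_one_of_pos (by norm_num : (0 : ℝ) < 3)
        linarith
      have h9 : Real.log (hgt x) ≤ L ^ 8 := by
        rw [Real.log_le_iff_le_exp hH0]
        exact a4
      linarith
    · have h8 := homega X hXX1 (sp x) a2
      rw [← hL] at h8
      have h9 : (Module.finrank ℚ K : ℝ) * C * (sp x).card ≤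
          Module.finrank ℚ K * C * (3 * L / Real.log L) :=
        mul_le_mul_of_nonneg_left h8 (by positivity)
      refine h9.trans ?_
      rw [mul_div_assoc', div_le_iff₀ hLL]
      rw [div_le_iff₀ hε0] at hLL2
      have h10 := mul_le_mul_of_nonneg_right hLL2 hL0.le
      linarith
  choose! sf Df hsD using hdat
  obtain ⟨S, hS⟩ : ∃ S : ℕ, S = ⌊2 / ε * (2 + L ^ 8)⌋₊ := ⟨_, rfl⟩
  obtain ⟨n, hn⟩ : ∃ n : ℕ, n = ⌊Real.exp (L / 10 + θ * L)⌋₊ := ⟨_, rfl⟩
  have hcard : F.card ≤ n * ((Finset.range (S + 1)) ×ˢ (F.image Df)).card := by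
    refine Finset.card_le_mul_card_image_of_maps_to (f := fun x => (sf x, Df x)) ?_ n ?_
    · intro x hx
      rw [Finset.mem_product]
      refine ⟨?_, Finset.mem_image_of_mem _ hx⟩
      rw [Finset.mem_range, Nat.lt_succ_iff, hS]
      exact Nat.le_floor (hsD x hx).1
    · rintro ⟨s, D⟩ -
      rw [hn]
      refine Nat.le_floor ?_
      rcases Finset.eq_empty_or_nonempty (F.filter fun x => (sf x, Df x) = (s, D)) with h0 | ⟨z, hz⟩
      · rw [h0, Finset.card_empty, Nat.cast_zero]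
        exact (Real.exp_pos _).le
      · rw [Finset.mem_filter, Prod.mk.injEq] at hz
        obtain ⟨hzF, rfl, rfl⟩ := hz
        obtain ⟨d1, d2, d3, d4, -⟩ := hsD z hzF
        refine class_two G hc1 hcls hε0 hεW hθ0.le (by linarith) hLc hLe d2 d3 d4 _ ?_
        intro x hx
        rw [Finset.mem_filter, Prod.mk.injEq] at hx
        obtain ⟨hxF, e1, e2⟩ := hx
        obtain ⟨f1, f2, f3, f4, f5, f6, f7, f8, f9⟩ := hsD x hxF
        rw [e1, e2] at f8
        rw [e1] at f9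
        exact ⟨f5, f6, f7, f8, f9⟩
  -- the number of sets
  have hexp : Real.exp (L / 10 + θ * L) = X ^ (1 / 10 + θ) := by
    rw [Real.rpow_def_of_pos hX0, ← hL]
    congr 1
    ring
  have hU : ((F.image Df).card : ℝ) ≤ X ^ (1 / 10 + θ) * X ^ (1 / (20 : ℝ)) := by
    have := hsets X hXX2 (X ^ (1 / 10 + θ)) (Real.one_le_rpow hX1' (by linarith))
      (Real.rpow_le_rpow_of_exponent_le hX1' (by push_cast; linarith)) (F.image Df) (by
        intro D hD
        rw [Finset.mem_image] at hD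
        obtain ⟨x, hx, rfl⟩ := hD
        obtain ⟨d1, d2, d3, d4, -⟩ := hsD x hx
        rw [← log_nn, Real.log_le_iff_le_exp (nn_pos _), hexp] at d4
        exact d4)
    push_cast at this
    exact this
  have hn1 : (n : ℝ) ≤ X ^ (1 / 10 + θ) := by
    rw [hn, ← hexp]
    exact Nat.floor_le (Real.exp_pos _).le
  have hS1 : ((S : ℝ) + 1) ≤ (2 / ε + 1) * (3 * C8) * X ^ (1 / 10 : ℝ) := by
    have h1 : (S : ℝ) ≤ 2 / ε * (2 + L ^ 8) := by
      rw [hS]
      exact Nat.floor_le (by positivity)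
    have h2 := hlog8 X hX1'
    rw [← hL] at h2
    have h3 : 0 ≤ L ^ 8 := by positivity
    have h4 : (0 : ℝ) < 2 / ε := by positivity
    calc (S : ℝ) + 1 ≤ 2 / ε * (2 + L ^ 8) + (2 + L ^ 8) := by linarith
      _ = (2 / ε + 1) * (2 + L ^ 8) := by ring
      _ ≤ (2 / ε + 1) * (3 * (1 + L ^ 8)) := by
          apply mul_le_mul_of_nonneg_left _ (by positivity)
          linarith
      _ ≤ (2 / ε + 1) * (3 * (C8 * X ^ (1 / 10 : ℝ))) := by
          apply mul_le_mul_of_nonneg_left _ (by positivity)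
          linarith
      _ = _ := by ring
  have hcard2 : (F.card : ℝ) ≤ n * ((S + 1) * (F.image Df).card) := by
    have : ((F.card : ℕ) : ℝ) ≤ ((n * ((Finset.range (S + 1)) ×ˢ (F.image Df)).card : ℕ) : ℝ) := by
      exact_mod_cast hcard
    rw [Finset.card_product, Finset.card_range] at this
    push_cast at this
    exact this
  refine hcard2.trans ?_
  have hXp : ∀ a : ℝ, 0 < X ^ a := fun a => Real.rpow_pos_of_pos hX0 a
  calc (n : ℝ) * ((S + 1) * (F.image Df).card) ≤ X ^ (1 / 10 + θ) *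
        (((2 / ε + 1) * (3 * C8) * X ^ (1 / 10 : ℝ)) * (X ^ (1 / 10 + θ) * X ^ (1 / (20 : ℝ)))) := by
        refine mul_le_mul hn1 (mul_le_mul hS1 hU (Nat.cast_nonneg _) ?_) (by positivity)
          (hXp _).le
        have := hXp (1 / 10)
        positivity
    _ = (2 / ε + 1) * (3 * C8) * (X ^ (1 / 10 + θ) * (X ^ (1 / 10 : ℝ) *
        (X ^ (1 / 10 + θ) * X ^ (1 / (20 : ℝ))))) := by ring
    _ = (2 / ε + 1) * (3 * C8) * X ^ ((1 / 10 + θ) + (1 / 10 + ((1 / 10 + θ) + 1 / 20))) := by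
        rw [← Real.rpow_add hX0, ← Real.rpow_add hX0, ← Real.rpow_add hX0]
    _ ≤ (2 / ε + 1) * (3 * C8) * X ^ (1 / 2 : ℝ) := by
        apply mul_le_mul_of_nonneg_left _ (by positivity)
        exact Real.rpow_le_rpow_of_exponent_le hX1' (by linarith)

end Pool.Agent.Y728.AK
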