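import Pool.Agent.Y728.AK.BridgeB
import Pool.Agent.Y728.AK.Assemble
import Pool.Agent.Y728.AK.CntTwoB
import Pool.Agent.Y228.AK.J1
import Pool.Agent.Y884.AK.Core
import Pool.Agent.Y812.AK.Fin
import Pool.Agent.Y812.AK.Inf
import Pool.Agent.Y180.LK.Main
import Pool.Agent.Y180.AK.One
import Pool.Agent.Y884.AK.Mid

/-!
# Almost all points: conclusion (helper728)
-/

set_option autoImplicit false

namespace Pool.Agent.Y728.AK

open NumberField

theorem coreFinK (K : Type) [Field K] [NumberField K] : CoreFin K :=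
  Pool.Agent.Y884.AK.core_fin K (Pool.Agent.Y228.AK.det_ex K) (Pool.Agent.Y228.AK.det_finT K)

theorem coreInfK (K : Type) [Field K] [NumberField K] : CoreInf K :=
  Pool.Agent.Y884.AK.core_inf K (Pool.Agent.Y228.AK.det_ex K) (Pool.Agent.Y228.AK.det_infT K)

theorem countTwoK (K : Type) [Field K] [NumberField K] : CountTwo K :=
  count_two K (Pool.Agent.Y812.AK.class_fin K (coreFinK K))

theorem almost_all_of' (K : Type) [Field K] [NumberField K] (h1 : CountOne K) (h2 : MidInP K) :
    AlmostAll K :=
  almost_all_of K (Pool.Agent.Y180.large_heightsK K) h1 (countTwoK K) h2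

/-- **almost all points, in the affine coordinate** -/
theorem almost_allK (K : Type) [Field K] [NumberField K] : AlmostAll K := by
  obtain ⟨h, C, g, G⟩ := exists_GB K
  have hf := Pool.Agent.Y812.AK.sun_fin G (coreFinK K)
  have hi := Pool.Agent.Y812.AK.sun_inf G (coreInfK K)
  exact almost_all_of' K (Pool.Agent.Y180.AK.count_one K G hf)
    (Pool.Agent.Y884.AK.mid_inP K G hf hi)

end Pool.Agent.Y728.AK
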