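import Pool.Agent.Y728.AK.ProxK

/-!
# Proximity functions of the fibres of a curve over a number field, sharper form (helper728)
-/

set_option autoImplicit false

namespace Pool.Agent.Y728.AK.PX

open Polynomial IsDedekindDomain NumberField
open Pool.Agent.W223.AC Pool.Agent.W223.CV
open Pool.Agent.W125.CV (fv fv_int)
open Pool.Agent.W756.AC (Q Q_zero Q_gen Q_add Q_mul fv_add fv_nat w_add w_nat)

attribute [local instance] Polynomial.algebra

/-- **heights, counting functions and proximity functions on a curve over a number field**, a sharper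
form for the primes in `S` -/
theorem proxK2 (K A : Type) [Field K] [NumberField K] [CommRing A] [IsDedekindDomain A]
    [Algebra K A] [Algebra K[X] A] [IsScalarTower K K[X] A] [Module.Finite K[X] A]
    [FaithfulSMul K[X] A] {q : ℕ} (hq : 1 ≤ q) (a : Fin q → K) (s : Fin q → ℕ)
    (y : ∀ j, Fin (s j + 1) → A)
    (hy0 : ∀ j, y j 0 = algebraMap K[X] A X - algebraMap K A (a j))
    (hyr : ∀ j i, y j i ∈ (Ideal.span {algebraMap K[X] A X - algebraMap K A (a j)}).radical)
    (ε : ℝ) (hε : 0 < ε) :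
    ∃ (M : ℕ) (C : ℝ) (G : ℚ[X]), M ≠ 0 ∧ 0 ≤ C ∧ G ≠ 0 ∧
      ∀ (L : Type) [Field L] [NumberField L] [Algebra K L] (φ : A →ₐ[K] L),
        aeval (φ (algebraMap K[X] A X)) G ≠ 0 →
        (∀ j, φ (algebraMap K[X] A X) ≠ algebraMap K L (a j)) →
        (∀ j, {v : HeightOneSpectrum (𝓞 L) | lamF (y j) (φ : A →+* L) v ≠ 0}.Finite) ∧
        ∀ S : Finset ℕ, (∀ p ∈ S, p.Prime) →
        Pool.Agent.Y729.RV.cnt (M.primeFactors ∪ S) a (φ (algebraMap K[X] A X)) +
          ∑ j, (∑ w : InfinitePlace L, (w.mult : ℝ) * lamI (y j) (φ : A →+* L) w +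
            mS S (y j) (φ : A →+* L)) ≤
          ((∑ j, (Module.finrank K (A ⧸ Ideal.span (Set.range (y j))) : ℝ)) /
            Module.finrank K[X] A + ε) *
            Real.log (Height.mulHeight₁ (φ (algebraMap K[X] A X))) +
              Module.finrank ℚ L * C := by
  classical
  let iQ := Pool.Agent.Y729.RV.aQ K A
  let iQX := Pool.Agent.Y729.RV.aQX K A
  have i1 : IsScalarTower ℚ ℚ[X] A := Pool.Agent.Y729.RV.tower1 K A
  have i2 : Module.Finite ℚ[X] A := Pool.Agent.Y729.RV.finiteX K A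
  have i3 : FaithfulSMul ℚ[X] A := Pool.Agent.Y729.RV.faithfulX K A
  have htt : Pool.Agent.W223.AC.tt A = algebraMap K[X] A X := by
    show algebraMap K[X] A (algebraMap ℚ[X] K[X] X) = _
    rw [Polynomial.algebraMap_def, coe_mapRingHom, map_X]
  have hq0 : (0 : ℝ) < q := by exact_mod_cast hq
  have hz1 : ∀ j, y j 0 ≠ 0 := by
    intro j h
    rw [hy0 j, IsScalarTower.algebraMap_apply K K[X] A, ← map_sub,
      map_eq_zero_iff _ (FaithfulSMul.algebraMap_injective K[X] A)] at h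
    exact X_sub_C_ne_zero (a j) h
  have hden := fun j => exists_den K A (a j)
  choose N hN0 hNI using hden
  have hNB' := fun j => nbp A (algebraMap K A (a j)) (N j) (hN0 j) (hNI j) (s j) (y j)
    (by rw [hy0 j, htt]) (hz1 j) (ε / q) (by positivity)
  choose C₁ G₁ hC₁ hG₁ hNB'' using hNB'
  have hNE := fun j : Fin q => nearN Pool.Agent.W989.AC.MULT.t Pool.Agent.W597.AC.t A
    (algebraMap K[X] A X - algebraMap K A (a j)) q s y {j} (by
      rw [Finset.prod_singleton, Ideal.span_le]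
      rintro _ ⟨i, rfl⟩
      exact hyr j i)
  choose M₂ hM₂ hNE' using hNE
  refine ⟨∏ j, M₂ j, ∑ j, C₁ j, ∏ j, G₁ j,
    Finset.prod_ne_zero_iff.mpr fun j _ => hM₂ j,
    Finset.sum_nonneg fun j _ => hC₁ j,
    Finset.prod_ne_zero_iff.mpr fun j _ => hG₁ j, ?_⟩
  intro L _ _ _ φ hG hne
  set x := φ (algebraMap K[X] A X) with hx
  have hx' : (φ : A →+* L) (Pool.Agent.W223.AC.tt A) = x := by
    rw [htt]
    rfl
  obtain ⟨M, hM⟩ : ∃ M, M = ∏ j, M₂ j := ⟨_, rfl⟩
  rw [← hM]
  have hM0 : M ≠ 0 := by rw [hM]; exact Finset.prod_ne_zero_iff.mpr fun j _ => hM₂ j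
  have hGj : ∀ j, aeval x (G₁ j) ≠ 0 := by
    intro j
    rw [map_prod, Finset.prod_ne_zero_iff] at hG
    exact hG j (Finset.mem_univ j)
  have hφa : ∀ j, (φ : A →+* L) (algebraMap K[X] A X - algebraMap K A (a j)) =
      x - algebraMap K L (a j) := by
    intro j
    rw [map_sub]
    show φ _ - φ _ = _
    rw [AlgHom.commutes]
  have hxa : ∀ j, x - algebraMap K L (a j) ≠ 0 := fun j => sub_ne_zero.mpr (hne j)
  have hz0 : ∀ j, (φ : A →+* L) (y j 0) ≠ 0 := by
    intro j
    rw [hy0 j, hφa j]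
    exact hxa j
  have hlam := fun j => hNB'' j L (φ : A →+* L) (by rw [hx']; exact hGj j) (hz0 j)
  refine ⟨fun j => (hlam j).1, fun S hS => ?_⟩
  have hnf : ∀ j, {v : HeightOneSpectrum (𝓞 L) | NearP (y j) (φ : A →+* L) v}.Finite :=
    fun j => near_finite (y j) (φ : A →+* L) (hz0 j)
  have hSM : ∀ v : HeightOneSpectrum (𝓞 L), (∀ p ∈ M.primeFactors, (p : 𝓞 L) ∉ v.asIdeal) →
      (M : 𝓞 L) ∉ v.asIdeal := fun v hv => not_mem_of_primes hM0 fun p hp => hv p hp
  have hfinU : {v : HeightOneSpectrum (𝓞 L) | ∃ j ∈ (Finset.univ : Finset (Fin q)),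
      NearP (y j) (φ : A →+* L) v}.Finite := by
    refine (Set.finite_iUnion fun j => hnf j).subset ?_
    rintro v ⟨j, -, hv⟩
    exact Set.mem_iUnion.2 ⟨j, hv⟩
  have h1 : Pool.Agent.Y729.RV.cnt (M.primeFactors ∪ S) a x ≤
      cc S (fun v : HeightOneSpectrum (𝓞 L) => ∃ j ∈ (Finset.univ : Finset (Fin q)),
        NearP (y j) (φ : A →+* L) v) := by
    rw [Pool.Agent.Y729.RV.cnt_cc]
    refine cc_mono Finset.subset_union_right hfinU ?_
    rintro v hv0 ⟨j, -, h2, h3⟩
    have hv : ∀ p ∈ M.primeFactors, (p : 𝓞 L) ∉ v.asIdeal :=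
      fun p hp => hv0 p (Finset.mem_union_left _ hp)
    have hM2v : ((M₂ j : ℕ) : 𝓞 L) ∉ v.asIdeal :=
      not_mem_of_dvd (by rw [hM]; exact Finset.dvd_prod_of_mem M₂ (Finset.mem_univ j)) (hSM v hv)
    obtain ⟨l, hl, h5⟩ := hNE' j L (φ : A →+* L) v hM2v (by rw [hx']; exact h2)
      (by rw [hφa j]; exact h3)
    rw [Finset.mem_singleton] at hl
    subst hl
    exact ⟨l, Finset.mem_univ l, by rw [hx']; exact h2, h5⟩
  have h3 := Pool.Agent.W223.CV.cc_exists S Finset.univ
      (fun j (v : HeightOneSpectrum (𝓞 L)) => NearP (y j) (φ : A →+* L) v) hnf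
  have hd : (Module.finrank ℚ K : ℝ) ≠ 0 := by
    have : 0 < Module.finrank ℚ K := Module.finrank_pos
    positivity
  have hrk : ∀ j, (Module.finrank ℚ (A ⧸ Ideal.span (Set.range (y j))) : ℝ) /
      Module.finrank ℚ[X] A =
      (Module.finrank K (A ⧸ Ideal.span (Set.range (y j))) : ℝ) / Module.finrank K[X] A := by
    intro j
    have e1 : Module.finrank ℚ (A ⧸ Ideal.span (Set.range (y j))) =
        Module.finrank ℚ K * Module.finrank K (A ⧸ Ideal.span (Set.range (y j))) :=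
      Pool.Agent.Y729.RV.dimE K A _
    have e2 : Module.finrank ℚ[X] A = Module.finrank ℚ K * Module.finrank K[X] A :=
      Pool.Agent.Y729.RV.rankX K A
    rw [e1, e2]
    push_cast
    rw [mul_div_mul_left _ _ hd]
  have h5 : ∀ j, cc S (fun v : HeightOneSpectrum (𝓞 L) => NearP (y j) (φ : A →+* L) v) +
      (∑ w : InfinitePlace L, (w.mult : ℝ) * lamI (y j) (φ : A →+* L) w +
        mS S (y j) (φ : A →+* L)) ≤
      ((Module.finrank K (A ⧸ Ideal.span (Set.range (y j))) : ℝ) /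
          Module.finrank K[X] A + ε / q) * Real.log (Height.mulHeight₁ x) +
        Module.finrank ℚ L * C₁ j := by
    intro j
    obtain ⟨h6, h7⟩ := hlam j
    have h8 := split_prox (y j) (φ : A →+* L) S (hz0 j) h6
    rw [hx', hrk j] at h7
    linarith
  have h6 := Finset.sum_le_sum fun j (_ : j ∈ Finset.univ) => h5 j
  rw [Finset.sum_add_distrib] at h6
  have h7 : ∑ j, (((Module.finrank K (A ⧸ Ideal.span (Set.range (y j))) : ℝ) /
          Module.finrank K[X] A + ε / q) * Real.log (Height.mulHeight₁ x) +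
        Module.finrank ℚ L * C₁ j) =
      ((∑ j, (Module.finrank K (A ⧸ Ideal.span (Set.range (y j))) : ℝ)) /
        Module.finrank K[X] A + ε) * Real.log (Height.mulHeight₁ x) +
          Module.finrank ℚ L * ∑ j, C₁ j := by
    rw [Finset.sum_add_distrib, ← Finset.sum_mul, ← Finset.mul_sum, Finset.sum_add_distrib,
      ← Finset.sum_div]
    have : ∑ _j : Fin q, ε / (q : ℝ) = ε := by
      rw [Finset.sum_const, Finset.card_univ, Fintype.card_fin, nsmul_eq_mul,
        mul_div_cancel₀ _ hq0.ne']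
    rw [this]
  rw [h7] at h6
  linarith

end Pool.Agent.Y728.AK.PX
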