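import Mathlib
import Pool.Agent.TH951.NF.Count
import Pool.Agent.TH951.FE.Ht
import Pool.Agent.TH910.LS.VarMain

/-!
# Small integral models of the curves of given invariant over a number field (helper728)
-/

set_option autoImplicit false

namespace Pool.Agent.Y728.AK

open Height NumberField IsDedekindDomain TH951 Module
open Pool.Agent.TH910.LS (absH jinv)

variable {K : Type} [Field K] [NumberField K]

theorem fplace_finite (j : K) : {v : FinitePlace K | 1 < v j}.Finite := by
  by_cases hj : j = 0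
  · subst hj
    refine Set.Finite.subset Set.finite_empty fun v hv => ?_
    have hv' : 1 < v (0 : K) := hv
    rw [map_zero] at hv'
    linarith
  · refine (FinitePlace.hasFiniteMulSupport hj).subset fun v hv h1 => ?_
    have hv' : 1 < v j := hv
    have h2 : v j = 1 := h1
    rw [h2] at hv'
    exact lt_irrefl _ hv'

/-- a denominator of small height -/
theorem exists_den_height (j : K) :
    ∃ n : ℕ, 0 < n ∧ IsIntegral ℤ ((n : K) * j) ∧ Real.log n ≤ logHeight₁ j := by
  classical
  by_cases hj : j = 0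
  · refine ⟨1, one_pos, ?_, ?_⟩
    · rw [hj, mul_zero]
      exact isIntegral_zero
    · rw [hj]
      simp
  obtain ⟨V, hV⟩ : ∃ V : Finset (FinitePlace K), V = (fplace_finite j).toFinset := ⟨_, rfl⟩
  have hVm : ∀ v, v ∈ V ↔ 1 < v j := fun v => by rw [hV, Set.Finite.mem_toFinset]; rfl
  choose k hk using fun v : FinitePlace K => NF.Nm_pow v hj
  have hk0 : ∀ v ∈ V, 0 < k v := by
    intro v hv
    have h1 := (hVm v).1 hv
    have hN : (1 : ℝ) < NF.Nm v := by exact_mod_cast NF.one_lt_Nm v
    rw [hk v] at h1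
    by_contra hcon
    push Not at hcon
    have := zpow_le_one_of_nonpos₀ hN.le hcon
    linarith
  have hkn : ∀ v ∈ V, v j = (NF.Nm v : ℝ) ^ (k v).toNat := by
    intro v hv
    rw [hk v]
    conv_lhs => rw [← Int.toNat_of_nonneg (hk0 v hv).le]
    rw [zpow_natCast]
  have hNpos : ∀ v : FinitePlace K, 0 < NF.Nm v := fun v => by
    have := NF.one_lt_Nm v
    omega
  refine ⟨∏ v ∈ V, NF.Nm v ^ (k v).toNat, Finset.prod_pos fun v _ => pow_pos (hNpos v) _, ?_, ?_⟩
  · refine NF.isIntegral_of_places fun w => ?_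
    rw [map_mul]
    by_cases hw : w ∈ V
    · have h1 : w ((∏ v ∈ V, NF.Nm v ^ (k v).toNat : ℕ) : K) ≤
          ((NF.Nm w : ℝ) ^ (k w).toNat)⁻¹ := by
        rw [← Finset.mul_prod_erase V _ hw]
        push_cast
        rw [map_mul]
        have h2 : w (∏ v ∈ V.erase w, ((NF.Nm v : ℕ) : K) ^ (k v).toNat) ≤ 1 := by
          have := NF.natCast_le_one w (∏ v ∈ V.erase w, NF.Nm v ^ (k v).toNat)
          push_cast at this
          exact this
        have h3 : w (((NF.Nm w : ℕ) : K) ^ (k w).toNat) ≤ ((NF.Nm w : ℝ) ^ (k w).toNat)⁻¹ := by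
          rw [map_pow, ← inv_pow]
          exact pow_le_pow_left₀ (apply_nonneg _ _) (NF.Nm_le w) _
        calc _ ≤ ((NF.Nm w : ℝ) ^ (k w).toNat)⁻¹ * 1 :=
              mul_le_mul h3 h2 (apply_nonneg _ _) (by positivity)
          _ = _ := mul_one _
      rw [hkn w hw]
      have hpos : (0 : ℝ) < (NF.Nm w : ℝ) ^ (k w).toNat := by
        have : (0 : ℝ) < NF.Nm w := by exact_mod_cast hNpos w
        positivity
      calc _ ≤ ((NF.Nm w : ℝ) ^ (k w).toNat)⁻¹ * (NF.Nm w : ℝ) ^ (k w).toNat :=
            mul_le_mul_of_nonneg_right h1 hpos.le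
        _ = 1 := inv_mul_cancel₀ hpos.ne'
    · have h1 : w j ≤ 1 := by
        rw [hVm, not_lt] at hw
        exact hw
      exact mul_le_one₀ (NF.natCast_le_one w _) (apply_nonneg _ _) h1
  · have h1 := FE.posLog_sum_le j V
    have h2 : (0 : ℝ) ≤ ∑ v : InfinitePlace K, (v.mult : ℝ) * Real.posLog (v.val j) :=
      Finset.sum_nonneg fun v _ => mul_nonneg (Nat.cast_nonneg _) Real.posLog_nonneg
    have h3 : Real.log ((∏ v ∈ V, NF.Nm v ^ (k v).toNat : ℕ) : ℝ) =
        ∑ v ∈ V, Real.posLog (v.val j) := by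
      push_cast
      rw [Real.log_prod (fun v _ => by
        have : (0 : ℝ) < NF.Nm v := by exact_mod_cast hNpos v
        positivity)]
      refine Finset.sum_congr rfl fun v hv => ?_
      have e1 : v.val j = (NF.Nm v : ℝ) ^ (k v).toNat := hkn v hv
      have e2 : 1 ≤ |v.val j| := by
        have h4 : 1 < v.val j := (hVm v).1 hv
        rw [abs_of_pos (by linarith)]
        exact h4.le
      rw [Real.posLog_eq_log e2, e1]
    rw [h3]
    linarith

theorem absH_mul (x y : K) : absH (x * y) ≤ absH x + absH y := by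
  unfold absH
  rw [← add_div]
  exact div_le_div_of_nonneg_right (logHeight₁_mul_le x y) (Nat.cast_nonneg _)

theorem absH_sub (x y : K) : absH (x - y) ≤ absH x + absH y + Real.log 2 := by
  have h0 : (0 : ℝ) < finrank ℚ K := by exact_mod_cast finrank_pos
  unfold absH
  rw [← add_div, ← mul_div_cancel_left₀ (Real.log 2) h0.ne', ← add_div]
  refine div_le_div_of_nonneg_right ?_ h0.le
  have := logHeight₁_sub_le x y
  rw [NumberField.totalWeight_eq_finrank] at this
  linarith

theorem absH_neg (x : K) : absH (-x) = absH x := by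
  unfold absH
  rw [logHeight₁_neg]

theorem absH_nonneg (x : K) : 0 ≤ absH x := div_nonneg (zero_le_logHeight₁ x) (Nat.cast_nonneg _)

theorem absH_nat (n : ℕ) (hn : 0 < n) : absH (n : K) ≤ Real.log n := by
  have h0 : (0 : ℝ) < finrank ℚ K := by exact_mod_cast finrank_pos
  unfold absH
  rw [div_le_iff₀ h0, NumberField.logHeight₁_eq]
  have h1 : ∀ v : FinitePlace K, Real.posLog (v (n : K)) = 0 := by
    intro v
    rw [Real.posLog_eq_zero_iff]
    rw [abs_of_nonneg (apply_nonneg _ _)]
    exact NF.natCast_le_one v n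
  have h2 : (∑ᶠ v : FinitePlace K, Real.posLog (v (n : K))) = 0 := by
    simp only [h1]
    exact finsum_zero
  have h3 : ∀ v : InfinitePlace K, Real.posLog (v (n : K)) = Real.log n := by
    intro v
    have e : v (n : K) = n := by
      obtain ⟨φ, hφ⟩ := v.2
      show v.1 (n : K) = n
      rw [← hφ]
      show ‖φ (n : K)‖ = n
      rw [map_natCast, Complex.norm_natCast]
    rw [e]
    refine Real.posLog_eq_log ?_
    rw [abs_of_nonneg (Nat.cast_nonneg _)]
    exact_mod_cast hn
  refine le_of_eq ?_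
  have h4 : (∑ v : InfinitePlace K, (v.mult : ℝ) * Real.posLog (v (n : K))) =
      finrank ℚ K * Real.log n := by
    simp only [h3]
    rw [← Finset.sum_mul]
    congr 1
    exact_mod_cast InfinitePlace.sum_mult_eq (K := K)
  rw [h4]
  rw [mul_comm]
  exact (add_eq_left.2 h2)

/-- **small models** -/
theorem exists_model (D : ℕ) : ∃ κ₀ : ℝ, 0 ≤ κ₀ ∧ ∀ (K : Type) [Field K] [NumberField K],
    finrank ℚ K ≤ D → ∀ j : K, j ≠ 0 → j ≠ 1728 → ∃ a b : 𝓞 K,
      4 * (a : K) ^ 3 + 27 * (b : K) ^ 2 ≠ 0 ∧ jinv (a : K) b = j ∧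
      absH (a : K) + absH (b : K) ≤ κ₀ * (1 + absH j) := by
  obtain ⟨C, hC⟩ : ∃ C : ℝ, C = Real.log 3 + Real.log 2 + 3 * (Real.log 1728 + Real.log 2) :=
    ⟨_, rfl⟩
  have l2 : 0 ≤ Real.log 2 := Real.log_nonneg (by norm_num)
  have l3 : 0 ≤ Real.log 3 := Real.log_nonneg (by norm_num)
  have l4 : 0 ≤ Real.log 1728 := Real.log_nonneg (by norm_num)
  have hC0 : 0 ≤ C := by rw [hC]; positivity
  refine ⟨C + 5 * D + 5, by positivity, ?_⟩
  intro K _ _ hD j h0 h1
  obtain ⟨n, hn, hint, hlog⟩ := exists_den_height j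
  have hn0 : (n : K) ≠ 0 := by exact_mod_cast hn.ne'
  have hsub : j - 1728 ≠ 0 := sub_ne_zero.2 h1
  obtain ⟨β, hβ⟩ : ∃ β : 𝓞 K, algebraMap (𝓞 K) K β = n * j := ⟨⟨_, hint⟩, rfl⟩
  have ea : (((-3 * β * (β - 1728 * n) : 𝓞 K)) : K) = -(3 * ((n : K) * (n * (j * (j - 1728))))) := by
    show algebraMap (𝓞 K) K (-3 * β * (β - 1728 * n)) = _
    simp only [map_mul, map_sub, map_neg, map_ofNat, map_natCast]
    rw [hβ]
    ring
  have eb : (((2 * β * (β - 1728 * n) ^ 2 : 𝓞 K)) : K) =
      2 * ((n : K) * (n * (n * (j * ((j - 1728) * (j - 1728)))))) := by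
    show algebraMap (𝓞 K) K (2 * β * (β - 1728 * n) ^ 2) = _
    simp only [map_mul, map_sub, map_pow, map_ofNat, map_natCast]
    rw [hβ]
    ring
  have eD : 4 * (((-3 * β * (β - 1728 * n) : 𝓞 K)) : K) ^ 3 +
      27 * (((2 * β * (β - 1728 * n) ^ 2 : 𝓞 K)) : K) ^ 2 =
      -186624 * (n ^ 6 * j ^ 2 * (j - 1728) ^ 3) := by
    rw [ea, eb]
    ring
  have hD0 : -186624 * ((n : K) ^ 6 * j ^ 2 * (j - 1728) ^ 3) ≠ 0 :=
    mul_ne_zero (by norm_num)
      (mul_ne_zero (mul_ne_zero (pow_ne_zero _ hn0) (pow_ne_zero _ h0)) (pow_ne_zero _ hsub))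
  refine ⟨-3 * β * (β - 1728 * n), 2 * β * (β - 1728 * n) ^ 2, ?_, ?_, ?_⟩
  · rw [eD]
    exact hD0
  · unfold jinv
    rw [eD, ea, div_eq_iff hD0]
    ring
  · have hj0 := absH_nonneg j
    have hD' : (finrank ℚ K : ℝ) ≤ D := by exact_mod_cast hD
    have hp : (0 : ℝ) < finrank ℚ K := by exact_mod_cast finrank_pos
    have hn1 : absH (n : K) ≤ D * absH j := by
      refine (absH_nat n hn).trans (hlog.trans ?_)
      have e : logHeight₁ j = finrank ℚ K * absH j := by
        unfold absH
        field_simp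
      rw [e]
      exact mul_le_mul_of_nonneg_right hD' hj0
    have h3 : absH (3 : K) ≤ Real.log 3 := by
      have := absH_nat (K := K) 3 (by norm_num)
      exact_mod_cast this
    have h2 : absH (2 : K) ≤ Real.log 2 := by
      have := absH_nat (K := K) 2 (by norm_num)
      exact_mod_cast this
    have h17 : absH (j - 1728) ≤ absH j + Real.log 1728 + Real.log 2 := by
      have h5 := absH_sub j 1728
      have h6 : absH (1728 : K) ≤ Real.log 1728 := by
        have := absH_nat (K := K) 1728 (by norm_num)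
        exact_mod_cast this
      linarith
    have ba : absH (-(3 * ((n : K) * (n * (j * (j - 1728)))))) ≤
        Real.log 3 + 2 * absH (n : K) + absH j + absH (j - 1728) := by
      rw [absH_neg]
      have k1 := absH_mul (3 : K) ((n : K) * (n * (j * (j - 1728))))
      have k2 := absH_mul (n : K) (n * (j * (j - 1728)))
      have k3 := absH_mul (n : K) (j * (j - 1728))
      have k4 := absH_mul j (j - 1728)
      linarith
    have bb : absH (2 * ((n : K) * (n * (n * (j * ((j - 1728) * (j - 1728))))))) ≤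
        Real.log 2 + 3 * absH (n : K) + absH j + 2 * absH (j - 1728) := by
      have k1 := absH_mul (2 : K) ((n : K) * (n * (n * (j * ((j - 1728) * (j - 1728))))))
      have k2 := absH_mul (n : K) (n * (n * (j * ((j - 1728) * (j - 1728)))))
      have k3 := absH_mul (n : K) (n * (j * ((j - 1728) * (j - 1728))))
      have k4 := absH_mul (n : K) (j * ((j - 1728) * (j - 1728)))
      have k5 := absH_mul j ((j - 1728) * (j - 1728))
      have k6 := absH_mul (j - 1728) (j - 1728)
      linarith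
    rw [ea, eb]
    have hfin : (C + 5 * D + 5) * (1 + absH j) =
        C + 5 * (D * absH j) + 5 * absH j + (C * absH j + 5 * D + 5) := by ring
    rw [hfin]
    have hx : 0 ≤ C * absH j + 5 * D + 5 := by positivity
    rw [hC] at hx ⊢
    linarith

end Pool.Agent.Y728.AK
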