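import Pool.Agent.Y728.AK.JLine
import Pool.Agent.Y728.AK.JModel
import Pool.Agent.Y725.LS.Final

/-!
# The truncated Szpiro-type bound for the curves with almost all invariants (helper728)
-/

set_option autoImplicit false

namespace Pool.Agent.Y728.AK

open Height NumberField IsDedekindDomain TH951 Module Finset
open TH951.LS (GoodRed)
open Pool.Agent.TH942 (sw sw_ell)
open Pool.Agent.TH910.LS Pool.Agent.Y725.LS

/-- good reduction implies that the invariant is integral -/
theorem good_j {L : Type} [Field L] [NumberField L] (w : FinitePlace L) (W : WeierstrassCurve L)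
    [W.IsElliptic] (h : GoodRed w.val W) : w.val W.j ≤ 1 := by
  obtain ⟨C, h1, h2, h3, h4, h6, hΔ⟩ := h
  have hna := TH951.LS.na_val w
  have hnat : ∀ n : ℕ, w.val (n : L) ≤ 1 := fun n => NF.natCast_le_one w n
  have n4 : w.val (4 : L) ≤ 1 := by exact_mod_cast hnat 4
  have n2 : w.val (2 : L) ≤ 1 := by exact_mod_cast hnat 2
  have n24 : w.val (24 : L) ≤ 1 := by exact_mod_cast hnat 24
  have hb2 : w.val (C • W).b₂ ≤ 1 := by
    rw [WeierstrassCurve.b₂]
    refine (hna _ _).trans (max_le ?_ ?_)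
    · rw [map_pow]
      exact pow_le_one₀ (w.val.nonneg _) h1
    · rw [map_mul]
      exact mul_le_one₀ n4 (w.val.nonneg _) h2
  have hb4 : w.val (C • W).b₄ ≤ 1 := by
    rw [WeierstrassCurve.b₄]
    refine (hna _ _).trans (max_le ?_ ?_)
    · rw [map_mul]
      exact mul_le_one₀ n2 (w.val.nonneg _) h4
    · rw [map_mul]
      exact mul_le_one₀ h1 (w.val.nonneg _) h3
  have hc4 : w.val (C • W).c₄ ≤ 1 := by
    rw [WeierstrassCurve.c₄, sub_eq_add_neg]
    refine (hna _ _).trans (max_le ?_ ?_)
    · rw [map_pow]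
      exact pow_le_one₀ (w.val.nonneg _) hb2
    · rw [AbsoluteValue.map_neg, map_mul]
      exact mul_le_one₀ n24 (w.val.nonneg _) hb4
  have hjj : (C • W).j * (C • W).Δ = (C • W).c₄ ^ 3 := by
    rw [WeierstrassCurve.j, ← (C • W).coe_Δ', mul_comm, ← mul_assoc, Units.mul_inv, one_mul]
  rw [← WeierstrassCurve.variableChange_j W C]
  have e1 : w.val (C • W).j = w.val (C • W).c₄ ^ 3 := by
    rw [← map_pow, ← hjj, map_mul, hΔ, mul_one]
  rw [e1]
  exact pow_le_one₀ (w.val.nonneg _) hc4

theorem one_lt_val_iff {K : Type} [Field K] [NumberField K] (v : FinitePlace K) (y : K) :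
    1 < v.val y ↔ 1 < v.maximalIdeal.valuation K y := by
  rw [val_eq]
  have hmono : StrictMono (WithZeroMulInt.toNNReal
      (HeightOneSpectrum.absNorm_ne_zero v.maximalIdeal)) :=
    WithZeroMulInt.toNNReal_strictMono
      (HeightOneSpectrum.one_lt_absNorm_nnreal v.maximalIdeal)
  rw [← hmono.lt_iff_lt, map_one]
  norm_cast

/-- the sum over the poles, as a sum over places -/
theorem jbad_places {K : Type} [Field K] [NumberField K] (j : K) :
    jbad j = ∑ v ∈ (fplace_finite j).toFinset, Real.log (NF.Nm v) := by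
  classical
  unfold jbad
  obtain ⟨f, hf⟩ : ∃ f : HeightOneSpectrum (𝓞 K) → ℝ, f = fun v =>
    if 1 < v.valuation K j then Real.log (Ideal.absNorm v.asIdeal) else 0 := ⟨_, rfl⟩
  have e0 : (∑ᶠ v : HeightOneSpectrum (𝓞 K),
      if 1 < v.valuation K j then Real.log (Ideal.absNorm v.asIdeal) else 0) = ∑ᶠ v, f v := by
    rw [hf]
  rw [e0, ← finsum_comp_equiv (FinitePlace.equivHeightOneSpectrum (K := K))]
  have hsupp : (Function.support fun v : FinitePlace K =>
      f (FinitePlace.equivHeightOneSpectrum v)) ⊆ ((fplace_finite j).toFinset : Set _) := by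
    intro v hv
    rw [Finset.mem_coe, Set.Finite.mem_toFinset]
    rw [Function.mem_support, hf] at hv
    by_contra hcon
    refine hv (if_neg fun h => hcon ?_)
    exact (one_lt_val_iff v j).2 h
  rw [finsum_eq_sum_of_support_subset _ hsupp]
  refine Finset.sum_congr rfl fun v hv => ?_
  rw [Set.Finite.mem_toFinset] at hv
  rw [hf]
  exact if_pos ((one_lt_val_iff v j).1 hv)

/-- **the truncated Szpiro-type bound** -/
theorem szp {K : Type} [Field K] [NumberField K] {j : K}
    (hj : logHeight₁ j ≤ 2 * jbad j) {a b : 𝓞 K}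
    (hab : 4 * (a : K) ^ 3 + 27 * (b : K) ^ 2 ≠ 0) (hjab : jinv (a : K) b = j)
    (L : Type) [Field L] [NumberField L] [Algebra K L] {δ : ℝ} (hδ : 0 ≤ δ) :
    SzpiroLe 2 δ 0 1 a b L := by
  classical
  choose up hup using exists_above (K := K) (L := L)
  refine ⟨∅, (fplace_finite j).toFinset.image up, by simp, ?_, ?_⟩
  · intro w hw
    obtain ⟨v, hv, rfl⟩ := Finset.mem_image.1 hw
    rw [Set.Finite.mem_toFinset] at hv
    left
    intro hgood
    have hab' : 4 * (algebraMap K L a) ^ 3 + 27 * (algebraMap K L b) ^ 2 ≠ 0 := by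
      have h1 : algebraMap K L (4 * (a : K) ^ 3 + 27 * (b : K) ^ 2) ≠ 0 := by
        rw [ne_eq, map_eq_zero]
        exact hab
      rw [map_add, map_mul, map_mul, map_pow, map_pow, map_ofNat, map_ofNat] at h1
      exact h1
    haveI hell := sw_ell hab'
    have h2 := good_j (up v) _ hgood
    rw [jinv_eq _ _ hell] at h2
    have e1 : jinv (algebraMap K L (a : K)) (algebraMap K L (b : K)) = algebraMap K L j := by
      rw [← hjab]
      unfold jinv
      rw [map_div₀, map_add, map_mul, map_mul, map_mul, map_pow, map_pow, map_ofNat, map_ofNat,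
        map_ofNat]
    rw [e1, ext_apply (K := K), hup] at h2
    have hv' : 1 < v.val j := hv
    have h3 : 1 < v.val j ^ ldeg K (up v) := one_lt_pow₀ hv' (ldeg_pos K (up v)).ne'
    linarith
  · intro S hS
    rw [hjab]
    have hinj : Set.InjOn up ((fplace_finite j).toFinset : Set (FinitePlace K)) := by
      intro v₁ _ v₂ _ h
      rw [← hup v₁, ← hup v₂, h]
    rw [Finset.sum_image hinj]
    have h1 : ∑ v ∈ (fplace_finite j).toFinset, Real.log (NF.Nm v) ≤
        ∑ v ∈ (fplace_finite j).toFinset,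
          Real.log (Ideal.absNorm (up v).maximalIdeal.asIdeal) := by
      refine Finset.sum_le_sum fun v _ => ?_
      have h2 := Nm_below K (up v)
      rw [hup v] at h2
      have h3 : NF.Nm v ≤ Ideal.absNorm (up v).maximalIdeal.asIdeal := by
        have h4 : Ideal.absNorm (up v).maximalIdeal.asIdeal = NF.Nm (up v) := rfl
        rw [h4, h2]
        refine Nat.le_self_pow ?_ _
        have := inert_pos K (up v)
        rw [hup v] at this
        exact this.ne'
      have h5 : 0 < NF.Nm v := by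
        have := NF.one_lt_Nm v
        omega
      exact Real.log_le_log (by exact_mod_cast h5) (by exact_mod_cast h3)
    rw [← jbad_places] at h1
    have h2 : ∑ v ∈ S, Real.log (v.val j) ≤ logHeight₁ j := by
      have h3 := FE.posLog_sum_le j S
      have h4 : (0 : ℝ) ≤ ∑ v : InfinitePlace K, (v.mult : ℝ) * Real.posLog (v.val j) :=
        Finset.sum_nonneg fun v _ => mul_nonneg (Nat.cast_nonneg _) Real.posLog_nonneg
      have h5 : ∑ v ∈ S, Real.log (v.val j) ≤ ∑ v ∈ S, Real.posLog (v.val j) :=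
        Finset.sum_le_sum fun v _ => by
          rw [Real.posLog]
          exact le_max_right _ _
      linarith
    have h3 : 0 ≤ δ * logHeight₁ j := mul_nonneg hδ (zero_le_logHeight₁ j)
    linarith

/-- the invariants whose poles carry less than half of the height -/
def JBadSet (K : Type) [Field K] [NumberField K] : Set K :=
  {j | j ≠ 0 ∧ j ≠ 1728 ∧ 2 * jbad j < logHeight₁ j}

theorem jbadset_count (K : Type) [Field K] [NumberField K] :
    ∃ ν C : ℝ, 0 < ν ∧ ν ≤ 1 / 3 ∧ 0 < C ∧ ∀ X : ℝ, 1 ≤ X →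
      (JBadSet K ∩ JAll K X).Finite ∧
        ((JBadSet K ∩ JAll K X).ncard : ℝ) ≤ C * X ^ (2 / 3 - ν) := by
  obtain ⟨ν, C, hν, hν3, hC, E, h1, h2⟩ := j_exc K (κ := 1 / 2) (by norm_num) 0
  refine ⟨ν, C, hν, hν3, hC, fun X hX => ?_⟩
  obtain ⟨h3, h4⟩ := h1 X hX
  have hsub : JBadSet K ∩ JAll K X ⊆ E ∩ JAll K X := by
    rintro j ⟨⟨h0, h17, hlt⟩, hj⟩
    refine ⟨?_, hj⟩
    by_contra hE
    have := h2 j h0 h17 hE
    linarith
  refine ⟨h3.subset hsub, le_trans ?_ h4⟩
  exact_mod_cast Set.ncard_le_ncard hsub h3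

end Pool.Agent.Y728.AK
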