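import Pool.Agent.Y728.AK.QLow
import Pool.Agent.W223.AC.Key
import Pool.Agent.W223.AC.MasterK
import Pool.Agent.W469.CV.REL

/-!
# Values in a number field of a function on a curve: the exceptions among the values of all heights
(helper728)
-/

set_option autoImplicit false

namespace Pool.Agent.Y728.AK

open Finset NumberField IsDedekindDomain Pool.Agent.H691R3 Pool.Agent.TH876.Loc
open Pool.Agent.TH876.KR (form counting localHeight localHeight_nonneg localHeight_pos_iff m2)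
open Pool.Agent.W223.VD (cnt)
open Pool.Agent.W223.AC (pt pt_coprime pt_inj)
open Pool.Agent.W223.CV (cc ct ct_nonneg ct_support ct_pos ct_neg)

variable {K : Type} [Field K] [NumberField K]

/-- the coordinates in `K` of a rational point -/
def ptK (K : Type) [Field K] (a : ℚ) : Fin 2 → K := ![((pt a).1 : K), ((pt a).2 : K)]

theorem fv_lt_iff (v : Pr K) (y z : K) :
    fv v y < fv v z ↔ v.valuation K y < v.valuation K z := by
  have hmono : StrictMono (WithZeroMulInt.toNNReal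
      (HeightOneSpectrum.absNorm_ne_zero v)) :=
    WithZeroMulInt.toNNReal_strictMono (HeightOneSpectrum.one_lt_absNorm_nnreal v)
  have e : ∀ y : K, fv v y = WithZeroMulInt.toNNReal (HeightOneSpectrum.absNorm_ne_zero v)
      (v.valuation K y) := Pool.Agent.W125.CV.fv_eq v
  rw [e, e]
  rw [NNReal.coe_lt_coe]
  exact hmono.lt_iff_lt

theorem fv_int_le (v : Pr K) (n : ℤ) : fv v (n : K) ≤ 1 := by
  have h1 : ¬ fv v (1 : K) < fv v (n : K) := by
    rw [fv_lt_iff, map_one, not_lt]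
    have := v.valuation_le_one (K := K) ((n : ℤ) : 𝓞 K)
    simpa using this
  rw [not_lt, map_one] at h1
  exact h1

theorem m2_ptK (v : Pr K) (a : ℚ) : m2 v (ptK K a) = 1 := by
  obtain ⟨u, w, huw⟩ := pt_coprime a
  have h1 : ((u * (pt a).1 + w * (pt a).2 : ℤ) : K) = 1 := by rw [huw]; simp
  push_cast at h1
  refine le_antisymm (max_le (fv_int_le v _) (fv_int_le v _)) ?_
  have h2 : fv v (1 : K) ≤ max (fv v ((u : K) * ((pt a).1 : K))) (fv v ((w : K) * ((pt a).2 : K))) := by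
    rw [← h1]
    exact fv_na v _ _
  rw [map_one, map_mul, map_mul] at h2
  refine h2.trans (max_le_max ?_ ?_)
  · exact mul_le_of_le_one_left ((fv v).nonneg _) (fv_int_le v u)
  · exact mul_le_of_le_one_left ((fv v).nonneg _) (fv_int_le v w)

theorem lin_ne {a : ℚ} {x : K} (h : x ≠ (a : K)) : form (ptK K a) ![x, 1] ≠ 0 := by
  intro h0
  apply h
  have h1 : ((pt a).1 : K) * 1 - ((pt a).2 : K) * x = 0 := h0
  have h11 : ((a : ℚ) : K) = ((a.num : ℤ) : K) / ((a.den : ℤ) : K) := by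
    have := Rat.cast_def (K := K) a
    push_cast
    exact this
  have h12 : ((a.den : ℤ) : K) ≠ 0 := by exact_mod_cast a.den_nz
  rw [h11, eq_div_iff h12]
  have h2 : ((a.num : ℤ) : K) * 1 - ((a.den : ℤ) : K) * x = 0 := h1
  linear_combination -h2

theorem form_ptK {a b : ℚ} (h : a ≠ b) : form (ptK K a) (ptK K b) ≠ 0 := by
  have h1 := pt_inj h
  intro h0
  apply h1
  have h2 : ((pt a).1 : K) * ((pt b).2 : K) - ((pt a).2 : K) * ((pt b).1 : K) = 0 := h0
  have h3 : (((pt a).1 * (pt b).2 : ℤ) : K) = (((pt b).1 * (pt a).2 : ℤ) : K) := by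
    push_cast
    linear_combination h2
  exact_mod_cast h3

/-- the primes of `K` above the primes of `S` -/
def above (K : Type) [Field K] [NumberField K] (S : Finset ℕ) : Set (HeightOneSpectrum (𝓞 K)) :=
  {v | ∃ p ∈ S, (p : 𝓞 K) ∈ v.asIdeal}

theorem above_finite (S : Finset ℕ) (hS : ∀ p ∈ S, p.Prime) : (above K S).Finite := by
  have h1 : above K S = ⋃ p ∈ S, {v : HeightOneSpectrum (𝓞 K) | (p : 𝓞 K) ∈ v.asIdeal} := by
    ext v
    simp [above]
  rw [h1]
  refine Set.Finite.biUnion S.finite_toSet fun p hp => ?_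
  have hp0 : (Ideal.span {((p : ℕ) : 𝓞 K)}) ≠ 0 := by
    intro h
    rw [Ideal.zero_eq_bot, Ideal.span_singleton_eq_bot] at h
    have := (hS p hp).ne_zero
    exact this (by exact_mod_cast h)
  refine (Ideal.finite_factors hp0).subset fun v hv => ?_
  show v.asIdeal ∣ _
  rw [Ideal.dvd_span_singleton]
  exact hv

theorem near_iff (v : Pr K) {a : ℚ} {x : K} (h : x ≠ (a : K)) :
    0 < localHeight v (ptK K a) ![x, 1] ↔
      v.valuation K (((pt a).1 : K) - x * ((pt a).2 : K)) < max (v.valuation K x) 1 := by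
  rw [localHeight_pos_iff v (lin_ne h), m2_ptK, one_mul]
  have e1 : form (ptK K a) ![x, 1] = ((pt a).1 : K) - x * ((pt a).2 : K) := by
    show ((pt a).1 : K) * 1 - ((pt a).2 : K) * x = _
    ring
  rw [e1]
  have e2 : m2 v ![x, 1] = max (fv v x) (fv v 1) := rfl
  rw [e2, lt_max_iff, lt_max_iff, fv_lt_iff, fv_lt_iff, map_one]

theorem cnt_eq_counting {q : ℕ} (S : Finset ℕ) (a : Fin q → ℚ) {x : K} (hx : ∀ j, x ≠ (a j : K)) :
    cnt S (fun j => pt (a j)) x = counting (above K S) (fun j => ptK K (a j)) ![x, 1] := by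
  classical
  unfold cnt counting
  refine finsum_congr fun v => ?_
  rw [finsum_eq_if]
  have h1 : (∀ p ∈ S, (p : 𝓞 K) ∉ v.asIdeal) ↔ v ∉ above K S := by
    unfold above
    rw [Set.mem_setOf_eq, not_exists]
    exact ⟨fun h p hp => h p hp.1 hp.2, fun h p hp hp' => h p ⟨hp, hp'⟩⟩
  have h2 : (∃ j, v.valuation K (((pt (a j)).1 : K) - x * ((pt (a j)).2 : K)) <
      max (v.valuation K x) 1) ↔ 0 < ∑ i, localHeight v (ptK K (a i)) ![x, 1] := by
    constructor
    · rintro ⟨j, hj⟩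
      rw [← near_iff v (hx j)] at hj
      exact Finset.sum_pos' (fun i _ => localHeight_nonneg v (lin_ne (hx i)))
        ⟨j, Finset.mem_univ _, hj⟩
    · intro h
      by_contra hcon
      push Not at hcon
      have h3 : ∀ i, localHeight v (ptK K (a i)) ![x, 1] ≤ 0 := by
        intro i
        by_contra h4
        rw [not_le, near_iff v (hx i)] at h4
        exact absurd h4 (not_lt.2 (hcon i))
      have h4 : ∑ i, localHeight v (ptK K (a i)) ![x, 1] ≤ 0 := Finset.sum_nonpos fun i _ => h3 i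
      linarith
  refine if_congr ?_ rfl rfl
  rw [h1, h2]
  rfl

theorem cnt_mono {q : ℕ} {S S' : Finset ℕ} (h : S ⊆ S') (a : Fin q → ℚ) {x : K}
    (hx : ∀ j, x ≠ (a j : K)) :
    cnt S' (fun j => pt (a j)) x ≤ cnt S (fun j => pt (a j)) x := by
  rw [Pool.Agent.W223.CV.cnt_eq, Pool.Agent.W223.CV.cnt_eq]
  refine Pool.Agent.W223.AC.cc_mono' ?_ fun v hv h' => ⟨fun p hp => hv p (h hp), h'⟩
  have h1 : {v : HeightOneSpectrum (𝓞 K) | ∃ j ∈ (Finset.univ : Finset (Fin q)),
      Pool.Agent.W223.CV.Near (pt (a j)) x v} =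
      ⋃ j, {v | Pool.Agent.W223.CV.Near (pt (a j)) x v} := by
    ext v
    simp
  rw [h1]
  refine Set.finite_iUnion fun j => Pool.Agent.W223.CV.near_finite (pt (a j)) x ?_
  have h2 := lin_ne (hx j)
  intro h0
  apply h2
  have h3 : ((pt (a j)).1 : K) - x * ((pt (a j)).2 : K) = 0 := h0
  show ((pt (a j)).1 : K) * 1 - ((pt (a j)).2 : K) * x = 0
  linear_combination h3

theorem log_mulHeight₁ (x : K) : Height.logHeight ![x, 1] = Real.log (Height.mulHeight₁ x) := by
  rw [← Height.logHeight₁_eq_logHeight, Height.logHeight₁_eq_log_mulHeight₁]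

/-- the values of all heights -/
def ValAll (K : Type) [Field K] [NumberField K] {q : ℕ} (S : Finset ℕ) (a : Fin q → ℚ) (X : ℝ) :
    Set K :=
  {x | (∀ j, x ≠ (a j : K)) ∧ cnt S (fun j => pt (a j)) x ≤ Real.log X}

/-- the values violating the inequality -/
def ValExc (K : Type) [Field K] [NumberField K] {q : ℕ} (S S' : Finset ℕ) (a : Fin q → ℚ)
    (κ C₀ X : ℝ) : Set K :=
  {x | (∀ j, x ≠ (a j : K)) ∧ cnt S (fun j => pt (a j)) x ≤ Real.log X ∧
    cnt S' (fun j => pt (a j)) x + C₀ < ((q : ℝ) - κ) * Real.log (Height.mulHeight₁ x)}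

/-- the point of the line with affine coordinate `x` -/
noncomputable def toP (x : K) : Projectivization K (Fin 2 → K) :=
  Projectivization.mk K ![x, 1] (fun h => one_ne_zero (congrFun h 1))

theorem toP_inj : Function.Injective (toP (K := K)) := by
  intro x y h
  unfold toP at h
  rw [Projectivization.mk_eq_mk_iff'] at h
  obtain ⟨c, hc⟩ := h
  have h1 := congrFun hc 1
  have h0 := congrFun hc 0
  simp at h1 h0
  rw [h1, one_mul] at h0
  exact h0.symm

theorem val_all (K : Type) [Field K] [NumberField K] {q : ℕ} (hq : 3 ≤ q) (S : Finset ℕ)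
    (hS : ∀ p ∈ S, p.Prime) (a : Fin q → ℚ) (ha : Function.Injective a) (δ : ℝ) (hδ : 0 < δ) :
    ∃ C : ℝ, ∀ X : ℝ, 1 ≤ X → (ValAll K S a X).Finite ∧
      ((ValAll K S a X).ncard : ℝ) ≤ C * X ^ (2 / (q : ℝ) + δ) := by
  obtain ⟨C, hC⟩ := line_final K (above K S) (above_finite S hS) q hq (fun j => ptK K (a j))
    (fun i j hij => form_ptK fun h => hij (ha h)) δ hδ
  refine ⟨C, fun X hX => ?_⟩
  obtain ⟨h1, h2⟩ := hC X hX
  have hmaps : ∀ x ∈ ValAll K S a X, toP x ∈ PtsQ (above K S) (fun j => ptK K (a j)) X := by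
    rintro x ⟨hx, hc⟩
    refine ⟨![x, 1], _, rfl, fun i => lin_ne (hx i), ?_⟩
    rw [← Real.le_log_iff_exp_le (by linarith), ← cnt_eq_counting S a hx]
    exact hc
  refine ⟨Set.Finite.of_injOn hmaps toP_inj.injOn h1, le_trans ?_ h2⟩
  exact_mod_cast Set.ncard_le_ncard_of_injOn toP hmaps toP_inj.injOn h1

/-- **the exceptions among the values of all heights** -/
theorem val_exc (K : Type) [Field K] [NumberField K] {q : ℕ} (hq : 3 ≤ q) (S S' : Finset ℕ)
    (hSS : S ⊆ S') (hS' : ∀ p ∈ S', p.Prime) (a : Fin q → ℚ) (ha : Function.Injective a)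
    {κ : ℝ} (hκ : 0 < κ) (C₀ : ℝ) :
    ∃ ν C : ℝ, 0 < ν ∧ ν ≤ 1 / q ∧ 0 < C ∧ ∀ X : ℝ, 1 ≤ X → (ValExc K S S' a κ C₀ X).Finite ∧
      ((ValExc K S S' a κ C₀ X).ncard : ℝ) ≤ C * X ^ (2 / (q : ℝ) - ν) := by
  have hq0 : (3 : ℝ) ≤ q := by exact_mod_cast hq
  have hqp : (0 : ℝ) < q := by linarith
  obtain ⟨κ', hκ'⟩ : ∃ κ' : ℝ, κ' = min κ 1 := ⟨_, rfl⟩
  have h0 : 0 < κ' := by rw [hκ']; exact lt_min hκ one_pos
  have h1 : κ' ≤ κ := by rw [hκ']; exact min_le_left _ _
  have h2 : κ' ≤ 1 := by rw [hκ']; exact min_le_right _ _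
  have hpos : 0 < (q : ℝ) - κ' / 2 := by linarith
  have hM : 1 / (q : ℝ) < 1 / ((q : ℝ) - κ' / 2) :=
    one_div_lt_one_div_of_lt hpos (by linarith)
  have hfo : ∀ i j, i ≠ j → form (ptK K (a i)) (ptK K (a j)) ≠ 0 :=
    fun i j hij => form_ptK fun h => hij (ha h)
  obtain ⟨C1, hC1⟩ := line_final K (above K S') (above_finite S' hS') q hq
    (fun j => ptK K (a j)) hfo 1 one_pos
  obtain ⟨ν, C, hν, hνq, hC, h⟩ := line_exc K (above K S') (above_finite S' hS') q hq
    (fun j => ptK K (a j)) hfo hM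
  obtain ⟨B, hB⟩ : ∃ B : ℝ, B = 2 / κ' * |C₀| := ⟨_, rfl⟩
  have hF0 : {x : K | Height.logHeight₁ x ≤ B}.Finite := Northcott.finite_le B
  refine ⟨ν, ({x : K | Height.logHeight₁ x ≤ B}.ncard : ℝ) + C, hν, hνq, by positivity,
    fun X hX => ?_⟩
  have hX0 : 0 < X := by linarith
  have hfinE : (ExcQ (above K S') (fun j => ptK K (a j)) (1 / ((q : ℝ) - κ' / 2)) X).Finite :=
    (hC1 X hX).1.subset (ExcQ_sub _ _ _ _)
  obtain ⟨T1, hT1⟩ : ∃ T1 : Set K, T1 = {x | toP x ∈ ExcQ (above K S') (fun j => ptK K (a j))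
      (1 / ((q : ℝ) - κ' / 2)) X} := ⟨_, rfl⟩
  have hmaps : ∀ x ∈ T1, toP x ∈ ExcQ (above K S') (fun j => ptK K (a j))
      (1 / ((q : ℝ) - κ' / 2)) X := by
    intro x hx
    rw [hT1] at hx
    exact hx
  have hT1f : T1.Finite := Set.Finite.of_injOn hmaps toP_inj.injOn hfinE
  have hT1c : (T1.ncard : ℝ) ≤ C * X ^ (2 / (q : ℝ) - ν) := by
    refine le_trans ?_ (h X hX)
    exact_mod_cast Set.ncard_le_ncard_of_injOn toP hmaps toP_inj.injOn hfinE
  have hsub : ValExc K S S' a κ C₀ X ⊆ {x : K | Height.logHeight₁ x ≤ B} ∪ T1 := by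
    rintro x ⟨hx, hc, hlt⟩
    by_cases hxB : Height.logHeight₁ x ≤ B
    · exact Or.inl hxB
    right
    rw [hT1]
    show toP x ∈ ExcQ (above K S') (fun j => ptK K (a j)) (1 / ((q : ℝ) - κ' / 2)) X
    rw [not_le] at hxB
    have e1 : Height.logHeight₁ x = Real.log (Height.mulHeight₁ x) :=
      Height.logHeight₁_eq_log_mulHeight₁ x
    rw [← e1] at hlt
    have hH0 : 0 ≤ Height.logHeight₁ x := Height.zero_le_logHeight₁ x
    refine ⟨![x, 1], _, rfl, fun i => lin_ne (hx i), ?_, ?_⟩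
    · rw [← Real.le_log_iff_exp_le hX0, ← cnt_eq_counting S' a hx]
      exact (cnt_mono hSS a hx).trans hc
    · rw [← cnt_eq_counting S' a hx, ← Height.logHeight₁_eq_logHeight, one_div,
        inv_mul_le_iff₀ hpos]
      have h3 : ((q : ℝ) - κ) * Height.logHeight₁ x ≤ ((q : ℝ) - κ') * Height.logHeight₁ x :=
        mul_le_mul_of_nonneg_right (by linarith) hH0
      have h4 : |C₀| ≤ κ' / 2 * Height.logHeight₁ x := by
        have h5 : κ' / 2 * B = |C₀| := by rw [hB]; field_simp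
        rw [← h5]
        exact mul_le_mul_of_nonneg_left hxB.le (by positivity)
      have h5 := neg_abs_le C₀
      have h6 : ((q : ℝ) - κ' / 2) * Height.logHeight₁ x =
          ((q : ℝ) - κ') * Height.logHeight₁ x + κ' / 2 * Height.logHeight₁ x := by ring
      rw [h6]
      linarith
  refine ⟨(hF0.union hT1f).subset hsub, ?_⟩
  have h3 : ((ValExc K S S' a κ C₀ X).ncard : ℝ) ≤
      ({x : K | Height.logHeight₁ x ≤ B}.ncard : ℝ) + T1.ncard := by
    exact_mod_cast (Set.ncard_le_ncard hsub (hF0.union hT1f)).trans (Set.ncard_union_le _ _)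
  have h4 : 1 ≤ X ^ (2 / (q : ℝ) - ν) := by
    refine Real.one_le_rpow hX ?_
    have : 1 / (q : ℝ) ≤ 2 / q := div_le_div_of_nonneg_right (by norm_num) hqp.le
    linarith
  have h5 : ({x : K | Height.logHeight₁ x ≤ B}.ncard : ℝ) ≤
      ({x : K | Height.logHeight₁ x ≤ B}.ncard : ℝ) * X ^ (2 / (q : ℝ) - ν) :=
    le_mul_of_one_le_right (Nat.cast_nonneg _) h4
  rw [add_mul]
  linarith

/-- a lower bound for the number of values -/
theorem val_low (K : Type) [Field K] [NumberField K] {q : ℕ} (hq : 3 ≤ q) (S : Finset ℕ)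
    (hS : ∀ p ∈ S, p.Prime) (a : Fin q → ℚ) (ha : Function.Injective a) (δ : ℝ) (hδ : 0 < δ) :
    ∃ X₀ : ℝ, 1 ≤ X₀ ∧ ∀ X : ℝ, X₀ ≤ X →
      X ^ (2 / (q : ℝ) - δ) ≤ ((ValAll K S a X).ncard : ℝ) := by
  classical
  have hq0 : (3 : ℝ) ≤ q := by exact_mod_cast hq
  have hqp : (0 : ℝ) < q := by linarith
  obtain ⟨δ', hδ'⟩ : ∃ δ' : ℝ, δ' = min δ (1 / q) / 2 := ⟨_, rfl⟩
  have h1q : 0 < 1 / (q : ℝ) := by positivity
  have h0 : 0 < δ' := by
    rw [hδ']
    have : 0 < min δ (1 / (q : ℝ)) := lt_min hδ h1q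
    positivity
  have hδ1 : 2 * δ' ≤ δ := by rw [hδ']; linarith [min_le_left δ (1 / (q : ℝ))]
  have hδ2 : 2 * δ' ≤ 1 / q := by rw [hδ']; linarith [min_le_right δ (1 / (q : ℝ))]
  have hfo : ∀ i j, i ≠ j → form (ptK K (a i)) (ptK K (a j)) ≠ 0 :=
    fun i j hij => form_ptK fun h => hij (ha h)
  obtain ⟨X0, hX0, h⟩ := line_low K (above K S) (above_finite S hS) q hq
    (fun j => ptK K (a j)) hfo δ' h0
  obtain ⟨C, hC⟩ := val_all K hq S hS a ha 1 one_pos
  obtain ⟨X1, hX1⟩ : ∃ X1 : ℝ, X1 = Real.exp (Real.log 2 / δ') := ⟨_, rfl⟩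
  refine ⟨max X0 X1, hX0.trans (le_max_left _ _), fun X hX => ?_⟩
  have hXX : X0 ≤ X := (le_max_left _ _).trans hX
  have hX11 : X1 ≤ X := (le_max_right _ _).trans hX
  have h1X : 1 ≤ X := hX0.trans hXX
  have hXp : 0 < X := by linarith
  have hfin := (hC X h1X).1
  -- the points different from infinity are values
  have hsub : PtsQ (above K S) (fun j => ptK K (a j)) X ⊆
      (toP '' (ValAll K S a X)) ∪ {Projectivization.mk K ![1, 0]
        (fun h => one_ne_zero (congrFun h 0))} := by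
    rintro P ⟨x, hx, rfl, hf, hc⟩
    by_cases hx1 : x 1 = 0
    · right
      rw [Set.mem_singleton_iff, Projectivization.mk_eq_mk_iff']
      refine ⟨x 0, ?_⟩
      funext i
      fin_cases i
      · simp
      · simp [hx1]
    · left
      have e1 : Projectivization.mk K x hx = toP (x 0 / x 1) := by
        unfold toP
        rw [Projectivization.mk_eq_mk_iff']
        refine ⟨x 1, ?_⟩
        funext i
        fin_cases i
        · show x 1 * (x 0 / x 1) = x 0
          field_simp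
        · show x 1 * 1 = x 1
          rw [mul_one]
      have hne : ∀ j, x 0 / x 1 ≠ (a j : K) := by
        intro j h0
        apply hf j
        have h11 : ((a j : ℚ) : K) = (((a j).num : ℤ) : K) / (((a j).den : ℤ) : K) := by
          have := Rat.cast_def (K := K) (a j)
          push_cast
          exact this
        have h12 : (((a j).den : ℤ) : K) ≠ 0 := by exact_mod_cast (a j).den_nz
        rw [h11, div_eq_div_iff hx1 h12] at h0
        show (((a j).num : ℤ) : K) * x 1 - (((a j).den : ℤ) : K) * x 0 = 0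
        linear_combination -h0
      refine ⟨x 0 / x 1, ⟨hne, ?_⟩, e1.symm⟩
      rw [cnt_eq_counting S a hne]
      have e2 : counting (above K S) (fun j => ptK K (a j)) ![x 0 / x 1, 1] =
          counting (above K S) (fun j => ptK K (a j)) x := by
        unfold counting
        have e3 : ∀ (v : Pr K) (i : Fin q), localHeight v (ptK K (a i)) ![x 0 / x 1, 1] =
            localHeight v (ptK K (a i)) x := by
          intro v i
          rw [Pool.Agent.TH876.KR.localHeight_eq, Pool.Agent.TH876.KR.localHeight_eq]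
          have hv1 : fv v (x 1) ≠ 0 := ((fv v).pos hx1).ne'
          have e4 : m2 v x = fv v (x 1) * m2 v ![x 0 / x 1, 1] := by
            show max (fv v (x 0)) (fv v (x 1)) =
              fv v (x 1) * max (fv v (x 0 / x 1)) (fv v 1)
            rw [mul_max_of_nonneg _ _ ((fv v).nonneg _), ← map_mul, ← map_mul, mul_one]
            congr 2
            field_simp
          have e5 : fv v (form (ptK K (a i)) x) =
              fv v (x 1) * fv v (form (ptK K (a i)) ![x 0 / x 1, 1]) := by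
            rw [← map_mul]
            congr 1
            show ((pt (a i)).1 : K) * x 1 - ((pt (a i)).2 : K) * x 0 =
              x 1 * (((pt (a i)).1 : K) * 1 - ((pt (a i)).2 : K) * (x 0 / x 1))
            field_simp
          rw [e4, e5]
          congr 1
          have hf0 : fv v (form (ptK K (a i)) ![x 0 / x 1, 1]) ≠ 0 :=
            ((fv v).pos (lin_ne (hne i))).ne'
          field_simp
        simp only [e3]
      rw [e2, Real.le_log_iff_exp_le hXp]
      exact hc
  have h2 := h X hXX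
  have h3 : ((PtsQ (above K S) (fun j => ptK K (a j)) X).ncard : ℝ) ≤
      ((ValAll K S a X).ncard : ℝ) + 1 := by
    have h4 := Set.ncard_le_ncard hsub ((hfin.image toP).union (Set.finite_singleton _))
    have h5 := h4.trans (Set.ncard_union_le _ _)
    rw [Set.ncard_singleton, Set.ncard_image_of_injective _ toP_inj] at h5
    exact_mod_cast h5
  have h4 : X ^ (2 / (q : ℝ) - δ') = X ^ (2 / (q : ℝ) - 2 * δ') * X ^ δ' := by
    rw [← Real.rpow_add hXp]
    congr 1
    ring
  have h5 : 2 ≤ X ^ δ' := by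
    rw [← Real.log_le_log_iff (by norm_num) (Real.rpow_pos_of_pos hXp _), Real.log_rpow hXp]
    have h6 : Real.log 2 / δ' ≤ Real.log X := by
      rw [Real.le_log_iff_exp_le hXp, ← hX1]
      exact hX11
    rw [div_le_iff₀ h0] at h6
    linarith
  have h6 : 1 ≤ X ^ (2 / (q : ℝ) - 2 * δ') := by
    refine Real.one_le_rpow h1X ?_
    have : 1 / (q : ℝ) ≤ 2 / q := div_le_div_of_nonneg_right (by norm_num) hqp.le
    linarith
  have h7 : X ^ (2 / (q : ℝ) - δ) ≤ X ^ (2 / (q : ℝ) - 2 * δ') :=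
    Real.rpow_le_rpow_of_exponent_le h1X (by linarith)
  have h8 : X ^ (2 / (q : ℝ) - 2 * δ') * 2 ≤ X ^ (2 / (q : ℝ) - δ') := by
    rw [h4]
    exact mul_le_mul_of_nonneg_left h5 (by linarith)
  linarith

/-- from an upper bound and a lower bound to a proportion -/
theorem ratio_of {f g : ℝ → ℝ} {e ν C X0 : ℝ} (hν : 0 < ν) (hC : 0 < C) (hX0 : 1 ≤ X0)
    (h1 : ∀ X : ℝ, 1 ≤ X → f X ≤ C * X ^ (e - ν)) (h2 : ∀ X : ℝ, X0 ≤ X → X ^ (e - ν / 2) ≤ g X) :
    ∀ X : ℝ, max X0 (Real.exp (|Real.log C| * (4 / ν))) ≤ X → f X ≤ X ^ (-(ν / 4)) * g X := by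
  intro X hX
  have hXX : X0 ≤ X := (le_max_left _ _).trans hX
  have hX1 : 1 ≤ X := hX0.trans hXX
  have hXe : Real.exp (|Real.log C| * (4 / ν)) ≤ X := (le_max_right _ _).trans hX
  have hXp0 : 0 < X := by linarith
  have hC1 : C ≤ X ^ (ν / 4) := by
    have e1 : |Real.log C| * (4 / ν) ≤ Real.log X := (Real.le_log_iff_exp_le hXp0).2 hXe
    rw [← Real.log_le_log_iff hC (Real.rpow_pos_of_pos hXp0 _), Real.log_rpow hXp0]
    have e2 : ν / 4 * (|Real.log C| * (4 / ν)) = |Real.log C| := by field_simp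
    have e3 := mul_le_mul_of_nonneg_left e1 (by positivity : 0 ≤ ν / 4)
    rw [e2] at e3
    exact (le_abs_self _).trans e3
  have h3 := h1 X hX1
  have h4 := h2 X hXX
  have hXp : ∀ b : ℝ, 0 < X ^ b := fun b => Real.rpow_pos_of_pos hXp0 b
  calc f X ≤ C * X ^ (e - ν) := h3
    _ ≤ X ^ (ν / 4) * X ^ (e - ν) := mul_le_mul_of_nonneg_right hC1 (hXp _).le
    _ = X ^ (-(ν / 4)) * X ^ (e - ν / 2) := by
        rw [← Real.rpow_add hXp0, ← Real.rpow_add hXp0]
        congr 1
        ring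
    _ ≤ _ := mul_le_mul_of_nonneg_left h4 (hXp _).le

end Pool.Agent.Y728.AK
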