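import Pool.Agent.Y728.Cheap2

/-!
# Almost all points: definitions and statements (helper728)

The statements are propositions; they are proved in other files.
-/

set_option autoImplicit false

namespace Pool.Agent.Y728.AK

open Finset NumberField IsDedekindDomain Height Pool.Agent.H691R3 Pool.Agent.TH876.Loc
open Pool.Agent.TH876.KR (side rr aw Light InP qt fv_pos log_Nv_pos')

/-- the interpolation matrix -/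
def Mx {F : Type*} [Field F] {n : ℕ} (β κ : F) (q : ℕ) (r s k l : Fin n → ℕ) :
    Matrix (Fin n) (Fin n) F :=
  Matrix.of fun a c => (Nat.choose (r a + s a * q) (k c) : F) * (β ^ r a * κ ^ s a) ^ (l c)

/-- J1a: a nonzero interpolation determinant -/
def DetEx (F : Type) [Field F] : Prop := ∀ (N L R₂ S₂ q : ℕ) (β κ : F),
    β ≠ 0 → (Function.Injective fun n : ℕ => β ^ n) → κ ≠ 0 → R₂ ≤ q →
    (N - 1) * L < R₂ * S₂ →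
    ∃ r s : Fin (N * L) → ℕ, (∀ a, r a < R₂ + L - 1) ∧ (∀ a, s a < S₂) ∧
      (Mx β κ q r s (fun c => ((finProdFinEquiv.symm c).1 : ℕ))
        (fun c => ((finProdFinEquiv.symm c).2 : ℕ))).det ≠ 0

/-- J1b: its size at a nonarchimedean place -/
def DetFin (F : Type) [Field F] : Prop := ∀ (v : AbsoluteValue F ℝ),
    (∀ a b, v (a + b) ≤ max (v a) (v b)) → ∀ (n N Y q : ℕ) (β κ : F) (t : ℝ), 0 < t → t < 1 →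
    v (β - 1) ≤ t → v (β ^ q * κ⁻¹ - 1) ≤ t ^ Y → n ≤ Y → κ ≠ 0 →
    ∀ (r s k l : Fin n → ℕ), (∀ c, k c < N) →
    v (Mx β κ q r s k l).det ≤ t ^ (n * (n - 1) / 2 - n * N)

/-- J1c: its size at an archimedean place -/
def DetInf (F : Type) [Field F] : Prop := ∀ (v : AbsoluteValue F ℝ), (∀ m : ℕ, v (m : F) = m) →
    ∀ (n N L Y q : ℕ) (β κ : F) (g Z : ℝ), 8 ≤ g → 1 ≤ Z → 8 * L * Z ≤ Real.exp (g / 4) →
    v (β - 1) ≤ Real.exp (-g) → v (β ^ q * κ⁻¹ - 1) ≤ Real.exp (-(Y * g)) → n ≤ Y → 1 ≤ Y →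
    κ ≠ 0 → ∀ (r s k l : Fin n → ℕ), (∀ c, k c < N) → (∀ c, l c < L) →
    (∀ a, ((r a + s a * q : ℕ) : ℝ) ≤ Z) → (∀ a, (s a : ℝ) ≤ Z) →
    v (Mx β κ q r s k l).det ≤ n.factorial * (8 * Z) ^ (n * N) *
      Real.exp (-(g / 2 * ((n * (n - 1) / 2 - n * N : ℕ) : ℝ)))

/-- J2a: two numbers close to one at finite places -/
def CoreFin (K : Type) [Field K] [NumberField K] : Prop := ∃ c0 : ℝ, 1 ≤ c0 ∧
    ∀ (S : Finset (Pr K)) (gv : Pr K → ℝ) (g h ν : ℝ) (E Y : ℕ) (μ κ : K),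
    μ ≠ 0 → κ ≠ 0 → (∀ v ∈ S, 0 < gv v) → g = ∑ v ∈ S, gv v → c0 ≤ g → g ≤ h → g ≤ ν →
    logHeight₁ μ ≤ h → logHeight₁ κ ≤ ν →
    (∀ v ∈ S, fv v (μ - 1) ≤ Real.exp (-gv v)) →
    (∀ v ∈ S, fv v (μ ^ E * κ - 1) ≤ Real.exp (-(Y * gv v))) →
    c0 * ν ≤ g * E → E * g ≤ Real.exp (g / c0) * ν → c0 * h * ν ≤ Y * g ^ 2 →
    μ = 1 ∧ κ = 1

/-- J2b: two numbers close to one at an infinite place -/
def CoreInf (K : Type) [Field K] [NumberField K] : Prop := ∃ c0 : ℝ, 1 ≤ c0 ∧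
    ∀ (w : InfinitePlace K) (g h ν : ℝ) (E Y : ℕ) (μ κ : K),
    μ ≠ 0 → κ ≠ 0 → c0 ≤ g → g ≤ h → g ≤ ν →
    logHeight₁ μ ≤ h → logHeight₁ κ ≤ ν →
    w (μ - 1) ≤ Real.exp (-g) → w (μ ^ E * κ - 1) ≤ Real.exp (-(Y * g)) →
    c0 * ν ≤ g * E → E * h ≤ Real.exp (g / c0) → c0 * h * ν ≤ Y * g ^ 2 →
    μ = 1 ∧ κ = 1

/-- balanced generators of powers of the primes -/
structure GB (K : Type) [Field K] [NumberField K] (h : ℕ) (C : ℝ) (g : Pr K → 𝓞 K) : Prop where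
  h1 : 1 ≤ h
  C1 : 1 ≤ C
  self : ∀ v : Pr K, fv v (g v : K) = (Nv v)⁻¹ ^ h
  ne : ∀ u v : Pr K, u ≠ v → fv u (g v : K) = 1
  bal : ∀ (v : Pr K) (w : InfinitePlace K),
    |Real.log (w (g v : K)) - h / (Module.finrank ℚ K : ℝ) * Real.log (Nv v)| ≤ C

/-- products of generators -/
noncomputable def mu {K : Type} [Field K] [NumberField K] (g : Pr K → 𝓞 K) (S : Finset (Pr K))
    (n : Pr K → ℤ) : K := ∏ v ∈ S, (g v : K) ^ n v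

/-- J4a: the direct class bound -/
def ClassFin (K : Type) [Field K] [NumberField K] : Prop := ∃ c1 : ℝ, 1 ≤ c1 ∧
    ∀ (hh : ℕ), 1 ≤ hh → ∀ {ι : Type} (F : Finset ι) (S : Finset (Pr K)) (m : Pr K → ℕ)
    (y μ : ι → K) (g h ν : ℝ) (E Y : ℕ),
    (∀ v ∈ S, 1 ≤ m v) → g = ∑ v ∈ S, m v * Real.log (Nv v) → c1 ≤ g → g ≤ h → g ≤ ν →
    (∀ x ∈ F, y x ≠ 0 ∧ μ x ≠ 0) →
    (∀ x ∈ F, ∀ x' ∈ F, logHeight₁ (μ x / μ x') ≤ h) →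
    (∀ x ∈ F, ∀ x' ∈ F, logHeight₁ ((y x / y x') ^ hh * (μ x' / μ x) ^ E) ≤ ν) →
    (∀ x ∈ F, ∀ v ∈ S, fv v (y x - 1) ≤ Real.exp (-(Y * (m v * Real.log (Nv v))))) →
    (∀ x ∈ F, ∀ v ∈ S, fv v (μ x) = 1) →
    (∀ x ∈ F, ∀ x' ∈ F, y x = y x' → x = x') →
    c1 * ν ≤ g * E → E * g ≤ Real.exp (g / c1) * ν → c1 * h * ν ≤ Y * g ^ 2 →
    (F.card : ℝ) ≤ Real.exp g

/-- J4b: the class bound by sunflowers, finite places -/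
def SunFin (K : Type) [Field K] [NumberField K] (h0 : ℕ) (g0 : Pr K → 𝓞 K) : Prop :=
    ∃ c1 : ℝ, 1 ≤ c1 ∧
    ∀ {ι : Type} (F : Finset ι) (S : Finset (Pr K)) (m : Pr K → ℕ) (y : ι → K)
    (T : ι → Finset (Pr K)) (n : ι → Pr K → ℤ) (m0 N q s : ℕ) (g h ν : ℝ) (E Y : ℕ),
    (∀ v ∈ S, 1 ≤ m v) → g = ∑ v ∈ S, m v * Real.log (Nv v) → c1 ≤ g →
    (∀ x ∈ F, y x ≠ 0) → (∀ x ∈ F, (T x).card ≤ m0) →
    (∀ x ∈ F, ∀ v ∈ T x, n x v ≠ 0 ∧ |n x v| ≤ N) → (∀ x ∈ F, ∀ v ∈ S, v ∉ T x) →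
    (∀ x ∈ F, logHeight₁ (mu g0 (T x) (n x)) ≤ h) →
    (∀ x ∈ F, ∀ x' ∈ F, logHeight₁ ((y x / y x') ^ h0 *
      (mu g0 (T x') (n x') / mu g0 (T x) (n x)) ^ E) ≤ ν) →
    (∀ x ∈ F, ∀ v ∈ S, fv v (y x - 1) ≤ Real.exp (-(Y * (m v * Real.log (Nv v))))) →
    (∀ x ∈ F, ∀ x' ∈ F, y x = y x' → x = x') →
    1 ≤ q → 1 ≤ s → Real.exp g < ((s - 1).choose q : ℕ) →
    g ≤ 2 * q * h → g ≤ q * ν → c1 * (q * ν) ≤ g * E →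
    E * g ≤ Real.exp (g / c1) * (q * ν) → c1 * (q * h) * (q * ν) ≤ Y * g ^ 2 →
    F.card ≤ (s ^ m0 * m0.factorial) * (2 * N + 1) ^ m0

/-- J4c: the class bound by sunflowers, an infinite place -/
def SunInf (K : Type) [Field K] [NumberField K] (h0 : ℕ) (g0 : Pr K → 𝓞 K) : Prop :=
    ∃ c1 : ℝ, 1 ≤ c1 ∧
    ∀ {ι : Type} (F : Finset ι) (w : InfinitePlace K) (y : ι → K)
    (T : ι → Finset (Pr K)) (n : ι → Pr K → ℤ) (m0 N q s : ℕ) (g h ν : ℝ) (E Y : ℕ),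
    c1 ≤ g → (∀ x ∈ F, y x ≠ 0) → (∀ x ∈ F, (T x).card ≤ m0) →
    (∀ x ∈ F, ∀ v ∈ T x, n x v ≠ 0 ∧ |n x v| ≤ N) →
    (∀ x ∈ F, logHeight₁ (mu g0 (T x) (n x)) ≤ h) →
    (∀ x ∈ F, ∀ x' ∈ F, logHeight₁ ((y x / y x') ^ h0 *
      (mu g0 (T x') (n x') / mu g0 (T x) (n x)) ^ E) ≤ ν) →
    (∀ x ∈ F, w (y x - 1) ≤ Real.exp (-(Y * g))) →
    (∀ x ∈ F, ∀ x' ∈ F, y x = y x' → x = x') →
    1 ≤ q → 1 ≤ s → c1 * (q * h) * Real.exp (2 * g) < ((s - 1).choose q : ℕ) →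
    c1 * q ≤ Real.exp g → 2 ≤ Y →
    g ≤ 2 * q * h → g ≤ q * ν → c1 * (q * ν) ≤ g * E →
    E * (q * h) ≤ Real.exp (g / c1) → c1 * (q * h) * (q * ν) ≤ Y * g ^ 2 →
    F.card ≤ (s ^ m0 * m0.factorial) * (2 * N + 1) ^ m0

/-- J5: rigid points all of whose primes are small -/
def CountTwo (K : Type) [Field K] [NumberField K] : Prop := ∃ θ δ M C X0 : ℝ, 0 < θ ∧ 0 < δ ∧
    0 < M ∧ 0 < C ∧ 16 ≤ X0 ∧ ∀ X : ℝ, X0 ≤ X → ∀ F : Finset K,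
    (∀ x ∈ F, Pt x ∧ nn (sp x) ≤ X ∧ M * Real.log X ≤ hgt x ∧
      hgt x ≤ Real.exp (Real.log X ^ 8) ∧
      (∀ v ∈ sp x, Real.log (Nv v) ≤ θ * Real.log X) ∧
      (∀ i : Fin 3, (1 / 3 - δ) * Real.log X ≤ rr i x) ∧
      (∀ D ⊆ sp x, ∑ v ∈ D, gd (Sum.inr v : Pl K) x ≤ (1 - δ) * hgt x →
        ∑ v ∈ D, Real.log (Nv v) ≤ (1 / 3 + δ) * Real.log X)) →
    (F.card : ℝ) ≤ C * X ^ (1 / 2 : ℝ)

open Classical in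
/-- J6: points with few large primes carrying everything -/
def CountOne (K : Type) [Field K] [NumberField K] : Prop := ∀ θ : ℝ, 0 < θ → θ ≤ 1 →
    ∃ κ M C X0 : ℝ, 0 < κ ∧ 0 < M ∧ 0 < C ∧ 16 ≤ X0 ∧ ∀ X : ℝ, X0 ≤ X → ∀ F : Finset K,
    (∀ x ∈ F, Pt x ∧ nn (sp x) ≤ X ∧ M * Real.log X ≤ hgt x ∧
      hgt x ≤ Real.exp (Real.log X ^ 8) ∧
      (∀ i : Fin 3, rr i x ≤ 2 / 5 * Real.log X) ∧
      (∀ i : Fin 3, aw i x + ∑ v ∈ (side i x).filter (fun v => Real.log (Nv v) ≤ θ * Real.log X),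
        df (Sum.inr v : Pl K) i x ≤ κ * hgt x)) →
    (F.card : ℝ) ≤ C * X ^ (3 / 5 : ℝ)

/-- J7: the second kind of prescribed primes, heights between `M log X` and `(log X) ^ 3` -/
def MidInP (K : Type) [Field K] [NumberField K] : Prop := ∀ k : ℕ, 9 ≤ k →
    ∃ Mh D X0 : ℝ, 1 ≤ Mh ∧ 0 < D ∧ 16 ≤ X0 ∧ ∀ X : ℝ, X0 ≤ X → ∀ M : ℝ, 1 ≤ M →
    M ≤ X ^ (2 / 3 - 1 / (k : ℝ)) → ∀ F : Finset K, (∀ x ∈ F, Pt x ∧ nn (sp x) ≤ X ∧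
      Mh * Real.log X ≤ hgt x ∧ hgt x ≤ Real.log X ^ 3 ∧
      ∃ (S : Finset (Pr K)) (A B E : Fin 3) (p : Pr K), nn S ≤ M ∧ A ≠ B ∧ B ≠ E ∧ A ≠ E ∧
        InP k S A B E x p) →
    (F.card : ℝ) ≤ D * (M * X ^ (10 / (k : ℝ)))

/-- heights up to a multiple of `log X` -/
def LargeH (K : Type) [Field K] [NumberField K] : Prop := ∀ M ε : ℝ, 0 < ε →
    ∃ ν : ℝ, 0 < ν ∧ ∃ C : ℝ, 0 < C ∧ ∀ X : ℝ, 1 ≤ X → ∀ F : Finset K,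
      (∀ x ∈ F, Pt x ∧ nn (sp x) ≤ X ∧ (1 / 3 + ε) * Real.log X ≤ hgt x ∧
        hgt x ≤ M * Real.log X) → (F.card : ℝ) ≤ C * X ^ (2 / 3 - ν)

/-- the final count -/
def AlmostAll (K : Type) [Field K] [NumberField K] : Prop := ∀ ε : ℝ, 0 < ε →
    ∃ ν : ℝ, 0 < ν ∧ ∃ C : ℝ, 0 < C ∧ ∀ X : ℝ, 1 ≤ X → ∀ F : Finset K,
      (∀ x ∈ F, Pt x ∧ nn (sp x) ≤ X ∧ (1 / 3 + ε) * Real.log X ≤ hgt x) →
      (F.card : ℝ) ≤ C * X ^ (2 / 3 - ν)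

end Pool.Agent.Y728.AK
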