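import Pool.Agent.Y728.RadP
import Pool.Agent.Y728.AK.Def
import Pool.Agent.Y812.LowerK

/-!
# Almost all points: the statement for points of the projective plane (helper728)
-/

set_option autoImplicit false

namespace Pool.Agent.Y728.AK

open Finset NumberField IsDedekindDomain Pool.Agent.H691R3 Pool.Agent.TH876.Loc
open Pool.Agent.TH876.KR (log_Nv_pos' side aw rr df_eq_zero side_sum
  side_sub side_uniq mem_sp_iff mem_side gd_eq aw_nonneg rr_sum rr_sum' side_disj log_nn df_int)

variable {K : Type} [Field K] [NumberField K]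

/-- the height of the point with coordinates `x` -/
noncomputable def height3 (x : Fin 3 → K) : ℝ :=
  (∑ w : InfinitePlace K, (w.mult : ℝ) * Real.log (max (w (x 0)) (max (w (x 1)) (w (x 2)))) +
    ∑ᶠ v : HeightOneSpectrum (𝓞 K), Real.log
      (max (FinitePlace.mk v (x 0)) (max (FinitePlace.mk v (x 1)) (FinitePlace.mk v (x 2))))) /
    (Module.finrank ℚ K : ℝ)

theorem max_mul3 {c a b d : ℝ} (hc : 0 ≤ c) :
    max (c * a) (max (c * b) (c * d)) = c * max a (max b d) := by
  rw [mul_max_of_nonneg _ _ hc, mul_max_of_nonneg _ _ hc]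

open Classical in
theorem height3_eq {x : Fin 3 → K} (hs : x 0 + x 1 + x 2 = 0) (hne : x 0 * x 1 * x 2 ≠ 0) :
    (Module.finrank ℚ K : ℝ) * height3 x = hgt (x 0 / x 1) := by
  have hd : (Module.finrank ℚ K : ℝ) ≠ 0 := by
    exact_mod_cast (Module.finrank_pos (R := ℚ) (M := K)).ne'
  have hz := pt_of_triple hs hne
  have h1 : x 1 ≠ 0 := fun h => hne (by rw [h]; ring)
  obtain ⟨z, hzd⟩ : ∃ z, z = x 0 / x 1 := ⟨_, rfl⟩
  rw [← hzd] at hz ⊢
  have e0 : x 0 = x 1 * L 0 z := by
    show x 0 = x 1 * z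
    rw [hzd]; field_simp
  have e1 : x 1 = x 1 * L 1 z := by
    show x 1 = x 1 * 1
    rw [mul_one]
  have e2 : x 2 = x 1 * L 2 z := by
    show x 2 = x 1 * (-z - 1)
    rw [hzd]; field_simp; linear_combination hs
  obtain ⟨V, hV⟩ : ∃ V : Finset (Pr K), V = sp z ∪ (fv_support_finite h1).toFinset := ⟨_, rfl⟩
  have hV1 : sp z ⊆ V := by rw [hV]; exact Finset.subset_union_left
  have hV2 : ∀ v, v ∉ V → fv v (x 1) = 1 := by
    intro v hv
    by_contra h
    apply hv
    rw [hV, Finset.mem_union]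
    right
    rw [Set.Finite.mem_toFinset]
    exact h
  have hinf : ∀ w : InfinitePlace K,
      (w.mult : ℝ) * Real.log (max (w (x 0)) (max (w (x 1)) (w (x 2)))) =
      lg (Sum.inl w : Pl K) (x 1) + mx (Sum.inl w : Pl K) z := by
    intro w
    have h2 : 0 < w (x 1) := w.pos_iff.2 h1
    have h3 : max (w (x 0)) (max (w (x 1)) (w (x 2))) = w (x 1) * M (Sum.inl w : Pl K) z := by
      have a0 : w (x 0) = w (x 1) * w (L 0 z) := by rw [← map_mul, ← e0]
      have a1 : w (x 1) = w (x 1) * w (L 1 z) := by rw [← map_mul, ← e1]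
      have a2 : w (x 2) = w (x 1) * w (L 2 z) := by rw [← map_mul, ← e2]
      calc max (w (x 0)) (max (w (x 1)) (w (x 2))) =
          max (w (x 1) * w (L 0 z)) (max (w (x 1) * w (L 1 z)) (w (x 1) * w (L 2 z))) := by
            rw [← a0, ← a1, ← a2]
        _ = w (x 1) * max (w (L 0 z)) (max (w (L 1 z)) (w (L 2 z))) := max_mul3 h2.le
        _ = _ := rfl
    rw [h3, Real.log_mul h2.ne' (lt_of_lt_of_le one_pos (one_le_M _ z)).ne', mul_add]
    rfl
  have hfin : ∀ v : HeightOneSpectrum (𝓞 K),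
      Real.log (max (FinitePlace.mk v (x 0)) (max (FinitePlace.mk v (x 1))
        (FinitePlace.mk v (x 2)))) =
      lg (Sum.inr v : Pl K) (x 1) + mx (Sum.inr v : Pl K) z := by
    intro v
    have h2 : 0 < fv v (x 1) := (fv v).pos h1
    have h3 : max (FinitePlace.mk v (x 0)) (max (FinitePlace.mk v (x 1))
        (FinitePlace.mk v (x 2))) = fv v (x 1) * M (Sum.inr v : Pl K) z := by
      have a0 : fv v (x 0) = fv v (x 1) * fv v (L 0 z) := by rw [← map_mul, ← e0]
      have a1 : fv v (x 1) = fv v (x 1) * fv v (L 1 z) := by rw [← map_mul, ← e1]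
      have a2 : fv v (x 2) = fv v (x 1) * fv v (L 2 z) := by rw [← map_mul, ← e2]
      calc max (FinitePlace.mk v (x 0)) (max (FinitePlace.mk v (x 1)) (FinitePlace.mk v (x 2))) =
          max (fv v (x 0)) (max (fv v (x 1)) (fv v (x 2))) := rfl
        _ = max (fv v (x 1) * fv v (L 0 z)) (max (fv v (x 1) * fv v (L 1 z))
            (fv v (x 1) * fv v (L 2 z))) := by
            rw [← a0, ← a1, ← a2]
        _ = fv v (x 1) * max (fv v (L 0 z)) (max (fv v (L 1 z)) (fv v (L 2 z))) := max_mul3 h2.le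
        _ = _ := rfl
    rw [h3, Real.log_mul h2.ne' (lt_of_lt_of_le one_pos (one_le_M _ z)).ne']
    show _ = 1 * Real.log (fv v (x 1)) + 1 * Real.log (M (Sum.inr v : Pl K) z)
    rw [one_mul, one_mul]
  have hsum : ∑ᶠ v : HeightOneSpectrum (𝓞 K), Real.log
      (max (FinitePlace.mk v (x 0)) (max (FinitePlace.mk v (x 1)) (FinitePlace.mk v (x 2)))) =
      ∑ v ∈ V, (lg (Sum.inr v : Pl K) (x 1) + mx (Sum.inr v : Pl K) z) := by
    rw [finsum_congr hfin]
    refine finsum_eq_sum_of_support_subset _ ?_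
    intro v hv
    by_contra h
    rw [Function.mem_support] at hv
    apply hv
    have h4 : v ∉ V := h
    have h5 : lg (Sum.inr v : Pl K) (x 1) = 0 := by
      show 1 * Real.log (fv v (x 1)) = 0
      rw [hV2 v h4, Real.log_one, mul_zero]
    rw [h5, mx_eq_zero hz (fun h' => h4 (hV1 h')), add_zero]
  unfold height3
  rw [mul_div_cancel₀ _ hd, hsum, Finset.sum_congr rfl fun w _ => hinf w]
  have h6 := sum_lg h1 hV2
  have h7 := hgt_eq hz hV1
  rw [sum_Spl] at h6 h7
  rw [Finset.sum_add_distrib, Finset.sum_add_distrib]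
  linarith

/-- the norms of the primes of a point are at most the cube of the height -/
theorem rad_le_three {x : K} (hx : Pt x) : Real.log (nn (sp x)) ≤ 3 * hgt x := by
  have key : ∀ i : Fin 3, rr i x ≤ hgt x := by
    intro i
    have h1 := side_sum hx i
    have h2 := aw_nonneg hx i
    have h3 : rr i x ≤ ∑ v ∈ side i x, df (Sum.inr v : Pl K) i x := by
      unfold rr
      refine Finset.sum_le_sum fun v hv => ?_
      obtain ⟨m, hm⟩ := df_int hx v i
      have h4 := (mem_side hx).1 hv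
      have h5 := log_Nv_pos' v
      rw [hm] at h4 ⊢
      have h6 : 1 ≤ m := by
        rcases Nat.eq_zero_or_pos m with h0 | h0
        · rw [h0, Nat.cast_zero, zero_mul] at h4
          exact absurd h4 (lt_irrefl _)
        · exact h0
      have h7 : (1 : ℝ) ≤ m := by exact_mod_cast h6
      exact le_mul_of_one_le_left h5.le h7
    linarith
  have h0 := key 0
  have h1 := key 1
  have h2 := key 2
  rw [← rr_sum' hx]
  linarith

/-- the points of bounded radical whose height is at least `M` times the radical -/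
def ExcT (T : Set (HeightOneSpectrum (𝓞 K))) (M X : ℝ) : Set (Projectivization K (Fin 3 → K)) :=
  {P | ∃ (x : Fin 3 → K) (hx : x ≠ 0), P = Projectivization.mk K x hx ∧ x 0 + x 1 + x 2 = 0 ∧
    x 0 * x 1 * x 2 ≠ 0 ∧ Real.exp (radT T x) ≤ X ∧ M * radT T x ≤ height3 x}

open Classical in
theorem radT_eq (T : Finset (Pr K)) {x : Fin 3 → K} (hs : x 0 + x 1 + x 2 = 0)
    (hne : x 0 * x 1 * x 2 ≠ 0) :
    (Module.finrank ℚ K : ℝ) * radT (T : Set (Pr K)) x = Real.log (nn (sp (x 0 / x 1) \ T)) := by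
  rw [← exp_radT T hs hne, Real.log_exp]

/-- the small constants: every point is an exception for `M ≤ 1 / 3` -/
theorem exc_small (T : Set (Pr K)) (hT : T.Finite) {M : ℝ} (hM : M ≤ 1 / 3) (X : ℝ) :
    ExcT T M X = PointsT T X := by
  classical
  obtain ⟨T', rfl⟩ : ∃ T' : Finset (Pr K), T = (T' : Set (Pr K)) := ⟨hT.toFinset, by simp⟩
  have hd : (0 : ℝ) < Module.finrank ℚ K := by exact_mod_cast (Module.finrank_pos (R := ℚ) (M := K))
  ext P
  constructor
  · rintro ⟨x, hx, h1, h2, h3, h4, -⟩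
    exact ⟨x, hx, h1, h2, h3, h4⟩
  · rintro ⟨x, hx, h1, h2, h3, h4⟩
    refine ⟨x, hx, h1, h2, h3, h4, ?_⟩
    have a1 := radT_eq T' h2 h3
    have a2 := height3_eq h2 h3
    have a3 := rad_le_three (pt_of_triple h2 h3)
    have a4 : Real.log (nn (sp (x 0 / x 1) \ T')) ≤ Real.log (nn (sp (x 0 / x 1))) :=
      Real.log_le_log (nn_pos _) (nn_mono Finset.sdiff_subset)
    have a5 : 0 ≤ Real.log (nn (sp (x 0 / x 1) \ T')) := Real.log_nonneg (one_le_nn _)
    rw [← a1] at a4 a5
    rw [← a2] at a3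
    have a6 : 0 ≤ radT (T' : Set (Pr K)) x := by
      by_contra hcon
      rw [not_le] at hcon
      have := mul_neg_of_pos_of_neg hd hcon
      linarith
    have a7 : M * radT (T' : Set (Pr K)) x ≤ 1 / 3 * radT (T' : Set (Pr K)) x :=
      mul_le_mul_of_nonneg_right hM a6
    refine a7.trans ?_
    have a8 : (Module.finrank ℚ K : ℝ) * (1 / 3 * radT (T' : Set (Pr K)) x) ≤
        Module.finrank ℚ K * height3 x := by linarith
    exact le_of_mul_le_mul_left a8 hd

/-- a lower bound for the number of points -/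
theorem lower_transfer (T : Set (Pr K)) (hT : T.Finite) {X : ℝ} (hX : 1 ≤ X)
    (hfin : (PointsT T X).Finite) (F : Finset K)
    (hF : ∀ z ∈ F, Pt z ∧ nn (sp z) ≤ X ^ (Module.finrank ℚ K : ℝ)) :
    (F.card : ℝ) ≤ ((PointsT T X).ncard : ℝ) := by
  classical
  obtain ⟨T', rfl⟩ : ∃ T' : Finset (Pr K), T = (T' : Set (Pr K)) := ⟨hT.toFinset, by simp⟩
  have hd : (0 : ℝ) < Module.finrank ℚ K := by exact_mod_cast (Module.finrank_pos (R := ℚ) (M := K))
  have hX0 : 0 < X := by linarith
  have hv : ∀ z : K, (![z, 1, -z - 1] : Fin 3 → K) ≠ 0 := by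
    intro z h
    have := congrFun h 1
    simp at this
  obtain ⟨f, hf⟩ : ∃ f : K → Projectivization K (Fin 3 → K),
      f = fun z => Projectivization.mk K ![z, 1, -z - 1] (hv z) := ⟨_, rfl⟩
  have hinj : Function.Injective f := by
    intro z z' h
    rw [hf] at h
    simp only at h
    rw [Projectivization.mk_eq_mk_iff'] at h
    obtain ⟨a, ha⟩ := h
    have h1 := congrFun ha 1
    have h0 := congrFun ha 0
    simp at h1 h0
    rw [h1, one_mul] at h0
    exact h0.symm
  have hsub : f '' (F : Set K) ⊆ PointsT (T' : Set (Pr K)) X := by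
    rintro P ⟨z, hz, rfl⟩
    obtain ⟨⟨p1, p2⟩, h2⟩ := hF z hz
    have s1 : (![z, 1, -z - 1] : Fin 3 → K) 0 + (![z, 1, -z - 1] : Fin 3 → K) 1 +
        (![z, 1, -z - 1] : Fin 3 → K) 2 = 0 := by
      show z + 1 + (-z - 1) = 0
      ring
    have s2 : (![z, 1, -z - 1] : Fin 3 → K) 0 * (![z, 1, -z - 1] : Fin 3 → K) 1 *
        (![z, 1, -z - 1] : Fin 3 → K) 2 ≠ 0 := by
      show z * 1 * (-z - 1) ≠ 0
      refine mul_ne_zero (mul_ne_zero p1 one_ne_zero) ?_
      intro h
      apply p2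
      linear_combination -h
    refine ⟨![z, 1, -z - 1], hv z, by rw [hf], s1, s2, ?_⟩
    have a1 := radT_eq T' s1 s2
    have a2 : (![z, 1, -z - 1] : Fin 3 → K) 0 / (![z, 1, -z - 1] : Fin 3 → K) 1 = z := by
      show z / 1 = z
      rw [div_one]
    rw [a2] at a1
    have a3 : Real.log (nn (sp z \ T')) ≤ Module.finrank ℚ K * Real.log X := by
      rw [← Real.log_rpow hX0]
      exact Real.log_le_log (nn_pos _) ((nn_mono Finset.sdiff_subset).trans h2)
    rw [← a1] at a3
    rw [← Real.le_log_iff_exp_le hX0]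
    exact le_of_mul_le_mul_left a3 hd
  have h3 : (f '' (F : Set K)).ncard ≤ (PointsT (T' : Set (Pr K)) X).ncard :=
    Set.ncard_le_ncard hsub hfin
  rw [Set.ncard_image_of_injective _ hinj, Set.ncard_coe_finset] at h3
  exact_mod_cast h3

/-- **the exact exponent** -/
theorem points_lower (K : Type) [Field K] [NumberField K] (T : Set (HeightOneSpectrum (𝓞 K)))
    (hT : T.Finite) (δ : ℝ) (hδ : 0 < δ) : ∃ X₀ : ℝ, ∀ X : ℝ, X₀ ≤ X →
      X ^ ((Module.finrank ℚ K : ℝ) * (2 / 3) - δ) ≤ ((PointsT T X).ncard : ℝ) := by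
  have hd : (0 : ℝ) < Module.finrank ℚ K := by exact_mod_cast (Module.finrank_pos (R := ℚ) (M := K))
  have hd1 : (1 : ℝ) ≤ Module.finrank ℚ K := by
    exact_mod_cast (Module.finrank_pos (R := ℚ) (M := K))
  obtain ⟨X0, hX0, h⟩ := Pool.Agent.Y812.lower_pointsK K (δ / Module.finrank ℚ K) (by positivity)
  obtain ⟨C, hC⟩ := radical_count K T hT 1 one_pos
  refine ⟨X0, fun X hX => ?_⟩
  have hX1 : 1 ≤ X := hX0.trans hX
  have hXp : 0 < X := by linarith
  have h1 : X0 ≤ X ^ (Module.finrank ℚ K : ℝ) := by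
    refine hX.trans ?_
    calc X = X ^ (1 : ℝ) := (Real.rpow_one X).symm
      _ ≤ _ := Real.rpow_le_rpow_of_exponent_le hX1 hd1
  obtain ⟨F, hF1, hF2⟩ := h _ h1
  have h2 := lower_transfer T hT hX1 (hC X hX1).1 F hF1
  refine le_trans (le_of_eq ?_) (hF2.trans h2)
  rw [← Real.rpow_mul hXp.le]
  congr 1
  field_simp

end Pool.Agent.Y728.AK
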