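import Pool.Agent.Y728.AK.Bridge

/-!
# Almost all points: the count of the exceptions (helper728)
-/

set_option autoImplicit false

namespace Pool.Agent.Y728.AK

open Finset NumberField IsDedekindDomain Pool.Agent.H691R3 Pool.Agent.TH876.Loc
open Pool.Agent.TH876.KR (log_Nv_pos' side aw rr log_nn)

open Classical in
/-- the count for the affine coordinate -/
theorem exc_aff (K : Type) [Field K] [NumberField K] (h : AlmostAll K)
    (T : Finset (Pr K)) {M : ℝ} (hM : 1 / 3 < M) : ∃ ν : ℝ, 0 < ν ∧ ∃ C : ℝ, 0 < C ∧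
    ∀ X : ℝ, 1 ≤ X → ∀ E : Finset K, (∀ x ∈ E, Pt x ∧ (nn (sp x \ T) ≤ X ∧
      M * Real.log (nn (sp x \ T)) ≤ hgt x)) → (E.card : ℝ) ≤ C * X ^ (2 / 3 - ν) := by
  obtain ⟨a, ha⟩ : ∃ a, a = M - 1 / 3 := ⟨_, rfl⟩
  have ha0 : 0 < a := by rw [ha]; linarith
  have hM0 : 0 < M := by linarith
  obtain ⟨η, hη⟩ : ∃ η, η = a / (4 * (M + 1)) := ⟨_, rfl⟩
  have hη0 : 0 < η := by rw [hη]; positivity
  have hηM : η * M ≤ a / 4 := by
    rw [hη, div_mul_eq_mul_div, div_le_div_iff₀ (by positivity) (by norm_num)]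
    nlinarith
  have hη1 : η ≤ 1 / 4 := by
    rw [hη, div_le_div_iff₀ (by positivity) (by norm_num)]
    rw [ha]
    linarith
  obtain ⟨ν1, hν1, C1, hC1, h1⟩ := h (a / 4) (by positivity)
  obtain ⟨D, hD, h2⟩ := mainK K (η / 3) (by positivity)
  obtain ⟨t, ht⟩ : ∃ t, t = nn T := ⟨_, rfl⟩
  have ht1 : 1 ≤ t := by rw [ht]; exact one_le_nn T
  have ht0 : 0 < t := by linarith
  obtain ⟨Λ, hΛ⟩ : ∃ Λ, Λ = (1 / 3 + a / 4) * Real.log t * (2 / a) := ⟨_, rfl⟩
  have hlt : 0 ≤ Real.log t := Real.log_nonneg ht1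
  have hΛ0 : 0 ≤ Λ := by rw [hΛ]; positivity
  obtain ⟨ν, hν⟩ : ∃ ν, ν = min (η / 3) ν1 := ⟨_, rfl⟩
  have hν0 : 0 < ν := by rw [hν]; exact lt_min (by positivity) hν1
  have hνη : ν ≤ η / 3 := by rw [hν]; exact min_le_left _ _
  have hνν : ν ≤ ν1 := by rw [hν]; exact min_le_right _ _
  have hν2 : 0 ≤ 2 / 3 - ν := by linarith
  refine ⟨ν, hν0, D * (t * Real.exp Λ) ^ (2 / 3 + η / 3) +
    (D * t ^ (2 / 3 + η / 3) + C1 * (t ^ |2 / 3 - ν1|)), by positivity,
    fun X hX E hE => ?_⟩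
  have hX0 : 0 < X := by linarith
  have hXp : ∀ b : ℝ, 0 < X ^ b := fun b => Real.rpow_pos_of_pos hX0 b
  have hsp : ∀ x : K, nn (sp x) ≤ t * nn (sp x \ T) := by
    intro x
    rw [ht]
    exact nn_le_mul (sp x) T
  rcases le_or_gt (Real.log X) Λ with hsm | hbig
  · -- small `X`
    have e1 : X ≤ Real.exp Λ := by rwa [← Real.log_le_iff_le_exp hX0]
    have e2 := h2 (t * Real.exp Λ) (by
      have : 1 ≤ Real.exp Λ := Real.one_le_exp hΛ0
      nlinarith) E (fun x hx => ⟨(hE x hx).1, (hsp x).trans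
        (mul_le_mul_of_nonneg_left ((hE x hx).2.1.trans e1) ht0.le)⟩)
    have e3 : 1 ≤ X ^ (2 / 3 - ν) := Real.one_le_rpow hX hν2
    have e4 : 0 < D * (t * Real.exp Λ) ^ (2 / 3 + η / 3) := by positivity
    have e5 : 0 < D * t ^ (2 / 3 + η / 3) + C1 * (t ^ |2 / 3 - ν1|) := by positivity
    calc (E.card : ℝ) ≤ D * (t * Real.exp Λ) ^ (2 / 3 + η / 3) := e2
      _ ≤ (D * (t * Real.exp Λ) ^ (2 / 3 + η / 3) + (D * t ^ (2 / 3 + η / 3) +
          C1 * (t ^ |2 / 3 - ν1|))) * 1 := by linarith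
      _ ≤ _ := mul_le_mul_of_nonneg_left e3 (by positivity)
  · -- large `X`
    obtain ⟨E1, hE1⟩ : ∃ E1, E1 = E.filter fun x => nn (sp x \ T) ≤ X ^ (1 - η) := ⟨_, rfl⟩
    obtain ⟨E2, hE2⟩ : ∃ E2, E2 = E.filter fun x => ¬ nn (sp x \ T) ≤ X ^ (1 - η) := ⟨_, rfl⟩
    have hcard : E.card = E1.card + E2.card := by
      rw [hE1, hE2]
      exact (Finset.card_filter_add_card_filter_not _).symm
    have k1 : (E1.card : ℝ) ≤ D * t ^ (2 / 3 + η / 3) * X ^ (2 / 3 - ν) := by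
      have e1 := h2 (t * X ^ (1 - η)) (by
        have : 1 ≤ X ^ (1 - η) := Real.one_le_rpow hX (by linarith)
        nlinarith) E1 (fun x hx => by
          rw [hE1, Finset.mem_filter] at hx
          exact ⟨(hE x hx.1).1, (hsp x).trans (mul_le_mul_of_nonneg_left hx.2 ht0.le)⟩)
      refine e1.trans ?_
      rw [Real.mul_rpow ht0.le (hXp _).le, ← Real.rpow_mul hX0.le, ← mul_assoc]
      refine mul_le_mul_of_nonneg_left ?_ (by positivity)
      refine Real.rpow_le_rpow_of_exponent_le hX ?_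
      nlinarith
    have k2 : (E2.card : ℝ) ≤ C1 * (t ^ |2 / 3 - ν1|) * X ^ (2 / 3 - ν) := by
      have e1 := h1 (t * X) (by nlinarith) E2 (fun x hx => by
        rw [hE2, Finset.mem_filter, not_le] at hx
        obtain ⟨hx1, hx2⟩ := hx
        obtain ⟨b1, b2, b3⟩ := hE x hx1
        refine ⟨b1, (hsp x).trans (mul_le_mul_of_nonneg_left b2 ht0.le), le_trans ?_ b3⟩
        have b4 : (1 - η) * Real.log X ≤ Real.log (nn (sp x \ T)) := by
          rw [← Real.log_rpow hX0]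
          exact Real.log_le_log (hXp _) hx2.le
        have b5 : M * ((1 - η) * Real.log X) ≤ M * Real.log (nn (sp x \ T)) :=
          mul_le_mul_of_nonneg_left b4 hM0.le
        refine le_trans ?_ b5
        rw [Real.log_mul ht0.ne' hX0.ne']
        have b6 : (1 / 3 + 3 * a / 4) * Real.log X ≤ M * ((1 - η) * Real.log X) := by
          have : (1 / 3 + 3 * a / 4) ≤ M * (1 - η) := by
            have : M * (1 - η) = M - η * M := by ring
            rw [this]
            linarith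
          have h3 := mul_le_mul_of_nonneg_right this (Real.log_nonneg hX)
          linarith
        refine le_trans ?_ b6
        have b7 : (1 / 3 + a / 4) * Real.log t ≤ a / 2 * Real.log X := by
          have h3 : a / 2 * Λ = (1 / 3 + a / 4) * Real.log t := by
            rw [hΛ]; field_simp
          rw [← h3]
          exact mul_le_mul_of_nonneg_left hbig.le (by positivity)
        linarith)
      refine e1.trans ?_
      rw [Real.mul_rpow ht0.le hX0.le, ← mul_assoc]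
      refine mul_le_mul ?_ (Real.rpow_le_rpow_of_exponent_le hX (by linarith)) (hXp _).le
        (by positivity)
      exact mul_le_mul_of_nonneg_left (Real.rpow_le_rpow_of_exponent_le ht1 (le_abs_self _)) hC1.le
    have e4 : 0 < D * (t * Real.exp Λ) ^ (2 / 3 + η / 3) * X ^ (2 / 3 - ν) := by positivity
    rw [hcard]
    push_cast
    linarith

/-- **the number of exceptions** -/
theorem exc_count (K : Type) [Field K] [NumberField K] (h : AlmostAll K)
    (T : Set (HeightOneSpectrum (𝓞 K))) (hT : T.Finite) {M : ℝ} (hM : 1 / 3 < M) :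
    ∃ ν C : ℝ, 0 < ν ∧ 0 < C ∧ ∀ X : ℝ, 1 ≤ X →
      ((ExcT T M X).ncard : ℝ) ≤ C * X ^ ((Module.finrank ℚ K : ℝ) * (2 / 3) - ν) := by
  classical
  obtain ⟨T', rfl⟩ : ∃ T' : Finset (Pr K), T = (T' : Set (Pr K)) := ⟨hT.toFinset, by simp⟩
  obtain ⟨d, hd⟩ : ∃ d : ℝ, d = (Module.finrank ℚ K : ℝ) := ⟨_, rfl⟩
  have hdpos : 0 < d := by
    rw [hd]
    exact_mod_cast Module.finrank_pos
  obtain ⟨ν, hν, C, hC, h1⟩ := exc_aff K h T' hM
  refine ⟨d * ν, C, by positivity, hC, fun X hX => ?_⟩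
  have hX0 : 0 < X := by linarith
  refine (transfer (ExcT (T' : Set (Pr K)) M X) (fun x => nn (sp x \ T') ≤ X ^ d ∧
      M * Real.log (nn (sp x \ T')) ≤ hgt x) _ (by positivity) ?_ ?_).2
  · rintro P ⟨x, hx, a1, a2, a3, a4, a5⟩
    refine ⟨x, hx, a1, a2, a3, ?_, ?_⟩
    · rw [← exp_radT T' a2 a3, ← hd, mul_comm d, Real.exp_mul]
      exact Real.rpow_le_rpow (Real.exp_pos _).le a4 hdpos.le
    · rw [← radT_eq T' a2 a3, ← height3_eq a2 a3, ← hd]
      have := mul_le_mul_of_nonneg_left a5 hdpos.le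
      linarith
  · intro E hE
    have h2 := h1 (X ^ d) (Real.one_le_rpow hX hdpos.le) E hE
    refine h2.trans (le_of_eq ?_)
    rw [← Real.rpow_mul hX0.le, ← hd]
    congr 2
    ring

/-- **almost all points satisfy the inequality** -/
theorem exc_ratio (K : Type) [Field K] [NumberField K] (h : AlmostAll K)
    (T : Set (HeightOneSpectrum (𝓞 K))) (hT : T.Finite) {M : ℝ} (hM : 1 / 3 < M) :
    ∃ ν X₀ : ℝ, 0 < ν ∧ ∀ X : ℝ, X₀ ≤ X →
      ((ExcT T M X).ncard : ℝ) ≤ X ^ (-ν) * ((PointsT T X).ncard : ℝ) := by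
  obtain ⟨ν, C, hν, hC, h1⟩ := exc_count K h T hT hM
  obtain ⟨X0, h2⟩ := points_lower K T hT (ν / 2) (by positivity)
  obtain ⟨Λ, hΛ⟩ : ∃ Λ, Λ = |Real.log C| * (4 / ν) := ⟨_, rfl⟩
  refine ⟨ν / 4, max (max 1 X0) (Real.exp Λ), by positivity, fun X hX => ?_⟩
  have hX1 : 1 ≤ X := ((le_max_left _ _).trans (le_max_left _ _)).trans hX
  have hXX : X0 ≤ X := ((le_max_right _ _).trans (le_max_left _ _)).trans hX
  have hXe : Real.exp Λ ≤ X := (le_max_right _ _).trans hX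
  have hX0 : 0 < X := by linarith
  have hC1 : C ≤ X ^ (ν / 4) := by
    have e1 : Λ ≤ Real.log X := (Real.le_log_iff_exp_le hX0).2 hXe
    rw [← Real.log_le_log_iff hC (Real.rpow_pos_of_pos hX0 _), Real.log_rpow hX0]
    have e2 : ν / 4 * Λ = |Real.log C| := by rw [hΛ]; field_simp
    have e3 := mul_le_mul_of_nonneg_left e1 (by positivity : 0 ≤ ν / 4)
    rw [e2] at e3
    exact (le_abs_self _).trans e3
  have h3 := h1 X hX1
  have h4 := h2 X hXX
  have hXp : ∀ b : ℝ, 0 < X ^ b := fun b => Real.rpow_pos_of_pos hX0 b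
  calc ((ExcT T M X).ncard : ℝ) ≤ C * X ^ ((Module.finrank ℚ K : ℝ) * (2 / 3) - ν) := h3
    _ ≤ X ^ (ν / 4) * X ^ ((Module.finrank ℚ K : ℝ) * (2 / 3) - ν) :=
        mul_le_mul_of_nonneg_right hC1 (hXp _).le
    _ = X ^ (-(ν / 4)) * X ^ ((Module.finrank ℚ K : ℝ) * (2 / 3) - ν / 2) := by
        rw [← Real.rpow_add hX0, ← Real.rpow_add hX0]
        congr 1
        ring
    _ ≤ _ := mul_le_mul_of_nonneg_left h4 (hXp _).le

end Pool.Agent.Y728.AK
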