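import Pool.Agent.Y728.AK.StrTwo
import Pool.Agent.Y728.FinalK

/-!
# The number of points of the second kind (helper728)
-/

set_option autoImplicit false

namespace Pool.Agent.Y728.AK

open Finset NumberField IsDedekindDomain Height Pool.Agent.H691R3 Pool.Agent.TH876.Loc
open Pool.Agent.TH876.KR (log_Nv_pos' side aw rr qt qt_ne lg_qt lg_qt_sub df_eq_zero side_sum
  side_sub side_uniq mem_sp_iff mem_side gd_eq aw_nonneg rr_sum side_disj log_nn)
open Pool.Agent.Y911.AA (greedy exists_sum grid grid_spec)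

variable {K : Type} [Field K] [NumberField K] {h : ℕ} {C : ℝ} {g : Pr K → 𝓞 K}

open Classical in
/-- the exponents of the top part -/
noncomputable def nt (E : ℕ) (x : K) (v : Pr K) : ℤ :=
  if v ∈ tp 1 E x then 1 else if v ∈ tp 2 E x then -1 else 0

open Classical in
/-- the primes of the sides `1` and `2` -/
noncomputable def VV (x : K) : Finset (Pr K) := side 1 x ∪ side 2 x

theorem nt_le (E : ℕ) (x : K) (v : Pr K) : |(nt E x v : ℝ)| ≤ 1 := by
  classical
  unfold nt
  split_ifs <;> norm_num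

theorem VV_sub (x : K) : VV x ⊆ sp x := by
  classical
  unfold VV
  exact Finset.union_subset (side_sub 1 x) (side_sub 2 x)

/-- the quotient of a point by the `E`-th power of its top part is small -/
theorem quot_small (G : GB K h C g) {x : K} (hx : Pt x) {E : ℕ} {u : ℝ}
    (hu : ∀ i : Fin 3, hgt x - (E : ℝ) * ∑ v ∈ tp i E x, Real.log (Nv v) ≤ u) :
    logHeight₁ (qt 1 2 x ^ h / mu g (VV x) (nt E x) ^ E) ≤
      4 * h * u + E * (Module.finrank ℚ K * C * (sp x).card) := by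
  classical
  have hV1 : side 1 x ⊆ VV x := by unfold VV; exact Finset.subset_union_left
  have hV2 : side 2 x ⊆ VV x := by unfold VV; exact Finset.subset_union_right
  have h1 := G.height_point hx 1 2 (VV x) hV1 hV2 (nt E x) E
  refine h1.trans ?_
  have hh : (0 : ℝ) ≤ h := Nat.cast_nonneg _
  have hd : (0 : ℝ) < Module.finrank ℚ K := by exact_mod_cast Module.finrank_pos
  have hC : 0 ≤ C := le_trans zero_le_one G.C1
  have hdisj : Disjoint (side 1 x) (side 2 x) := side_disj (by decide)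
  -- the sides
  have key : ∀ i : Fin 3, ∑ v ∈ side i x, |df (Sum.inr v : Pl K) i x -
      E * (if v ∈ tp i E x then 1 else 0 : ℝ) * Real.log (Nv v)| + aw i x =
      hgt x - (E : ℝ) * ∑ v ∈ tp i E x, Real.log (Nv v) := by
    intro i
    have e1 : ∀ v ∈ side i x, |df (Sum.inr v : Pl K) i x -
        E * (if v ∈ tp i E x then 1 else 0 : ℝ) * Real.log (Nv v)| =
        df (Sum.inr v : Pl K) i x - E * (if v ∈ tp i E x then Real.log (Nv v) else 0) := by
      intro v hv
      split_ifs with h2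
      · unfold tp at h2
        rw [Finset.mem_filter] at h2
        rw [abs_of_nonneg (by linarith [h2.2])]
        ring
      · rw [mul_zero, zero_mul, sub_zero, abs_of_nonneg (df_nonneg _ i hx)]
    rw [Finset.sum_congr rfl e1, Finset.sum_sub_distrib, ← Finset.mul_sum, Finset.sum_ite_mem,
      Finset.inter_eq_right.2 (tp_sub i E x)]
    have h2 := side_sum hx i
    linarith
  have h2 : ∑ v ∈ VV x, |df (Sum.inr v : Pl K) 1 x - df (Sum.inr v : Pl K) 2 x -
      E * (nt E x v : ℝ) * Real.log (Nv v)| =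
      ∑ v ∈ side 1 x, |df (Sum.inr v : Pl K) 1 x -
        E * (if v ∈ tp 1 E x then 1 else 0 : ℝ) * Real.log (Nv v)| +
      ∑ v ∈ side 2 x, |df (Sum.inr v : Pl K) 2 x -
        E * (if v ∈ tp 2 E x then 1 else 0 : ℝ) * Real.log (Nv v)| := by
    unfold VV
    rw [Finset.sum_union hdisj]
    congr 1
    · refine Finset.sum_congr rfl fun v hv => ?_
      have hv2 : v ∉ side 2 x := fun h' => (Finset.disjoint_left.1 hdisj hv) h'
      rw [df_eq_zero hx hv2, sub_zero]
      congr 3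
      unfold nt
      by_cases h3 : v ∈ tp 1 E x
      · rw [if_pos h3, if_pos h3]; norm_num
      · rw [if_neg h3, if_neg (fun h4 => hv2 (tp_sub 2 E x h4)), if_neg h3]; norm_num
    · refine Finset.sum_congr rfl fun v hv => ?_
      have hv1 : v ∉ side 1 x := fun h' => (Finset.disjoint_left.1 hdisj h') hv
      rw [df_eq_zero hx hv1, zero_sub]
      have hv1' : v ∉ tp 1 E x := fun h4 => hv1 (tp_sub 1 E x h4)
      unfold nt
      rw [if_neg hv1', ← abs_neg]
      congr 1
      by_cases h3 : v ∈ tp 2 E x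
      · rw [if_pos h3, if_pos h3]
        push_cast
        ring
      · rw [if_neg h3, if_neg h3]
        push_cast
        ring
  have h3 : ∑ v ∈ VV x, |(nt E x v : ℝ)| ≤ (sp x).card := by
    calc _ ≤ ∑ _v ∈ VV x, (1 : ℝ) := Finset.sum_le_sum fun v _ => nt_le E x v
      _ = ((VV x).card : ℝ) := by rw [Finset.sum_const, nsmul_eq_mul, mul_one]
      _ ≤ _ := by exact_mod_cast Finset.card_le_card (VV_sub x)
  have k1 := key 1
  have k2 := key 2
  have u1 := hu 1
  have u2 := hu 2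
  rw [h2]
  have h4 : ∑ v ∈ side 1 x, |df (Sum.inr v : Pl K) 1 x -
        E * (if v ∈ tp 1 E x then 1 else 0 : ℝ) * Real.log (Nv v)| +
      ∑ v ∈ side 2 x, |df (Sum.inr v : Pl K) 2 x -
        E * (if v ∈ tp 2 E x then 1 else 0 : ℝ) * Real.log (Nv v)| + (aw 1 x + aw 2 x) ≤ 2 * u := by
    linarith
  have h5 := mul_le_mul_of_nonneg_left h4 (by positivity : 0 ≤ 2 * (h : ℝ))
  have h6 := mul_le_mul_of_nonneg_left (mul_le_mul_of_nonneg_left h3
    (by positivity : 0 ≤ (Module.finrank ℚ K : ℝ) * C)) (Nat.cast_nonneg E : (0 : ℝ) ≤ E)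
  have e : 2 * (h : ℝ) * (2 * u) = 4 * h * u := by ring
  rw [e] at h5
  linarith

/-- the height of the top part -/
theorem top_height (G : GB K h C g) (x : K) (E : ℕ) {L : ℝ}
    (hrad : ∑ v ∈ sp x, Real.log (Nv v) ≤ L) :
    logHeight₁ (mu g (VV x) (nt E x)) ≤ h * L + Module.finrank ℚ K * C * (sp x).card := by
  classical
  refine (G.height_mu _ _).trans ?_
  have hh : (0 : ℝ) ≤ h := Nat.cast_nonneg _
  have hd : (0 : ℝ) < Module.finrank ℚ K := by exact_mod_cast Module.finrank_pos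
  have hC : 0 ≤ C := le_trans zero_le_one G.C1
  calc ∑ v ∈ VV x, |(nt E x v : ℝ)| * (h * Real.log (Nv v) + Module.finrank ℚ K * C) ≤
      ∑ v ∈ VV x, (h * Real.log (Nv v) + Module.finrank ℚ K * C) := by
        refine Finset.sum_le_sum fun v _ => ?_
        have h1 := nt_le E x v
        have h2 : 0 ≤ h * Real.log (Nv v) + Module.finrank ℚ K * C := by
          have := (log_Nv_pos' v).le
          positivity
        exact mul_le_of_le_one_left h2 h1
    _ ≤ ∑ v ∈ sp x, (h * Real.log (Nv v) + Module.finrank ℚ K * C) := by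
        refine Finset.sum_le_sum_of_subset_of_nonneg (VV_sub x) fun v _ _ => ?_
        have := (log_Nv_pos' v).le
        positivity
    _ = h * ∑ v ∈ sp x, Real.log (Nv v) + Module.finrank ℚ K * C * (sp x).card := by
        rw [Finset.sum_add_distrib, ← Finset.mul_sum, Finset.sum_const, nsmul_eq_mul]
        ring
    _ ≤ _ := by
        have := mul_le_mul_of_nonneg_left hrad hh
        linarith

theorem qt_inj12 {x y : K} (hx : Pt x) (hy : Pt y) (h1 : qt 1 2 x = qt 1 2 y) : x = y := by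
  have e : ∀ z : K, qt 1 2 z = -(1 / (-z - 1)) := fun z => rfl
  rw [e, e] at h1
  have hx2 : -x - 1 ≠ 0 := L_ne hx 2
  have hy2 : -y - 1 ≠ 0 := L_ne hy 2
  have h2 : (1 : K) / (-x - 1) = 1 / (-y - 1) := neg_injective h1
  rw [div_eq_div_iff hx2 hy2, one_mul, one_mul] at h2
  linear_combination h2

/-- **a class of points of the second kind** -/
theorem class_two (G : GB K h C g) {c1 : ℝ} (hc1 : 1 ≤ c1)
    (hcls : ∀ (hh : ℕ), 1 ≤ hh → ∀ {ι : Type} (F : Finset ι) (S : Finset (Pr K)) (m : Pr K → ℕ)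
    (y μ : ι → K) (g h ν : ℝ) (E Y : ℕ),
    (∀ v ∈ S, 1 ≤ m v) → g = ∑ v ∈ S, m v * Real.log (Nv v) → c1 ≤ g → g ≤ h → g ≤ ν →
    (∀ x ∈ F, y x ≠ 0 ∧ μ x ≠ 0) →
    (∀ x ∈ F, ∀ x' ∈ F, logHeight₁ (μ x / μ x') ≤ h) →
    (∀ x ∈ F, ∀ x' ∈ F, logHeight₁ ((y x / y x') ^ hh * (μ x' / μ x) ^ E) ≤ ν) →
    (∀ x ∈ F, ∀ v ∈ S, fv v (y x - 1) ≤ Real.exp (-(Y * (m v * Real.log (Nv v))))) →
    (∀ x ∈ F, ∀ v ∈ S, fv v (μ x) = 1) →
    (∀ x ∈ F, ∀ x' ∈ F, y x = y x' → x = x') →
    c1 * ν ≤ g * E → E * g ≤ Real.exp (g / c1) * ν → c1 * h * ν ≤ Y * g ^ 2 →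
    (F.card : ℝ) ≤ Real.exp g)
    {ε θ L : ℝ} (hε : 0 < ε) (hε1 : ε * (100000 * c1 * (h + 1) * h) ≤ 1) (hθ0 : 0 ≤ θ)
    (hθ : θ ≤ 1 / 10)
    (hL1 : 10 * c1 ≤ L) (hL2 : 1 / ε ≤ Real.exp (L / (10 * c1))) {E : ℕ} (hE : 1 / ε ≤ E)
    {D : Finset (Pr K)} (hD1 : L / 10 ≤ ∑ v ∈ D, Real.log (Nv v))
    (hD2 : ∑ v ∈ D, Real.log (Nv v) ≤ L / 10 + θ * L) (F : Finset K)
    (hF : ∀ x ∈ F, Pt x ∧ ∑ v ∈ sp x, Real.log (Nv v) ≤ L ∧
      Module.finrank ℚ K * C * (sp x).card ≤ ε * L ∧ D ⊆ tp 0 E x ∧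
      ∀ i : Fin 3, hgt x - (E : ℝ) * ∑ v ∈ tp i E x, Real.log (Nv v) ≤ 5 * ε * E * L) :
    (F.card : ℝ) ≤ Real.exp (L / 10 + θ * L) := by
  classical
  have hh1 : 1 ≤ h := G.h1
  have hhr : (1 : ℝ) ≤ h := by exact_mod_cast hh1
  have hL0 : 0 < L := by linarith
  have hE0 : (0 : ℝ) < E := lt_of_lt_of_le (by positivity) hE
  have hεE : 1 ≤ ε * E := by
    rw [div_le_iff₀ hε] at hE
    linarith
  have hch : 1 ≤ c1 * (h + 1) * h :=
    one_le_mul_of_one_le_of_one_le (one_le_mul_of_one_le_of_one_le hc1 (by linarith)) hhr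
  have hε2 : ε ≤ 1 / 100000 := by
    rw [le_div_iff₀ (by norm_num)]
    have : ε * (100000 * 1) ≤ ε * (100000 * (c1 * (h + 1) * h)) := by gcongr
    have e : ε * (100000 * (c1 * (h + 1) * h)) = ε * (100000 * c1 * (h + 1) * h) := by ring
    rw [e] at this
    linarith
  refine (hcls h hh1 F D (fun _ => 1) (fun x => qt 1 2 x) (fun x => mu g (VV x) (nt E x))
    (∑ v ∈ D, Real.log (Nv v)) (2 * (h + 1) * L) (42 * h * ε * E * L) E E (fun _ _ => le_rfl)
    (by
      refine Finset.sum_congr rfl fun v _ => ?_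
      push_cast
      ring) (by linarith) ?_ ?_ ?_ ?_ ?_ ?_ ?_ ?_ ?_ ?_ ?_).trans ?_
  · -- `g ≤ h`
    have h1 : θ * L ≤ 1 / 10 * L := mul_le_mul_of_nonneg_right hθ hL0.le
    have h2 : 2 * (1 + 1) * L ≤ 2 * (h + 1) * L := by gcongr
    linarith
  · -- `g ≤ ν`
    have h1 : θ * L ≤ 1 / 10 * L := mul_le_mul_of_nonneg_right hθ hL0.le
    have h2 : 42 * 1 * 1 * L ≤ 42 * h * (ε * E) * L := by gcongr
    have e : 42 * (h : ℝ) * ε * E * L = 42 * h * (ε * E) * L := by ring
    rw [e]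
    linarith
  · intro x hx
    exact ⟨qt_ne (hF x hx).1 1 2, G.mu_ne _ _⟩
  · -- the heights of the top parts
    have key : ∀ x ∈ F, logHeight₁ (mu g (VV x) (nt E x)) ≤ (h + 1) * L := by
      intro x hx
      obtain ⟨a1, a2, a3, -⟩ := hF x hx
      have h1 := top_height G x E a2
      have h2 : ε * L ≤ 1 * L := mul_le_mul_of_nonneg_right (by linarith) hL0.le
      linarith
    intro x hx x' hx'
    rw [div_eq_mul_inv]
    refine (logHeight₁_mul_le _ _).trans ?_
    rw [logHeight₁_inv]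
    have h1 := key x hx
    have h2 := key x' hx'
    linarith
  · -- the heights of the quotients
    have key : ∀ x ∈ F, logHeight₁ (qt 1 2 x ^ h / mu g (VV x) (nt E x) ^ E) ≤
        21 * h * ε * E * L := by
      intro x hx
      obtain ⟨a1, a2, a3, a4, a5⟩ := hF x hx
      have h1 := quot_small G a1 a5
      refine h1.trans ?_
      have h2 : (E : ℝ) * (Module.finrank ℚ K * C * (sp x).card) ≤ E * (ε * L) :=
        mul_le_mul_of_nonneg_left a3 hE0.le
      have h3 : (E : ℝ) * (ε * L) ≤ h * (E * (ε * L)) :=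
        le_mul_of_one_le_left (by positivity) hhr
      have e : 21 * (h : ℝ) * ε * E * L = 4 * h * (5 * ε * E * L) + h * (E * (ε * L)) := by ring
      rw [e]
      linarith
    intro x hx x' hx'
    have e : (qt 1 2 x / qt 1 2 x') ^ h * (mu g (VV x') (nt E x') / mu g (VV x) (nt E x)) ^ E =
        (qt 1 2 x ^ h / mu g (VV x) (nt E x) ^ E) * (qt 1 2 x' ^ h / mu g (VV x') (nt E x') ^ E)⁻¹ := by
      have m1 := G.mu_ne (VV x) (nt E x)
      have m2 := G.mu_ne (VV x') (nt E x')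
      have m3 := qt_ne (hF x hx).1 1 2
      have m4 := qt_ne (hF x' hx').1 1 2
      rw [div_pow, div_pow]
      field_simp
    show logHeight₁ ((qt 1 2 x / qt 1 2 x') ^ h *
      (mu g (VV x') (nt E x') / mu g (VV x) (nt E x)) ^ E) ≤ _
    rw [e]
    refine (logHeight₁_mul_le _ _).trans ?_
    rw [logHeight₁_inv]
    have h1 := key x hx
    have h2 := key x' hx'
    linarith
  · -- congruence
    intro x hx v hv
    obtain ⟨a1, a2, a3, a4, a5⟩ := hF x hx
    have hvT := a4 hv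
    have hv0 : v ∈ side 0 x := tp_sub 0 E x hvT
    unfold tp at hvT
    rw [Finset.mem_filter] at hvT
    have h1 := lg_qt_sub a1 (A := 0) (B := 1) (C := 2) (by decide) (by decide) (by decide)
      (Sum.inr v : Pl K)
    have hv2 : v ∉ side 2 x := fun h' => absurd (side_uniq hv0 h') (by decide)
    rw [df_eq_zero a1 hv2, zero_sub] at h1
    have h2 : lg (Sum.inr v : Pl K) (qt 1 2 x - 1) = Real.log (fv v (qt 1 2 x - 1)) := by
      unfold lg
      show 1 * Real.log (fv v (qt 1 2 x - 1)) = _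
      rw [one_mul]
    rw [h2] at h1
    rcases eq_or_lt_of_le ((fv v).nonneg (qt 1 2 x - 1)) with h0 | h0
    · show fv v (qt 1 2 x - 1) ≤ _
      rw [← h0]
      exact (Real.exp_pos _).le
    · show fv v (qt 1 2 x - 1) ≤ _
      rw [← Real.log_le_iff_le_exp h0, h1]
      push_cast
      rw [one_mul]
      linarith [hvT.2]
  · -- units
    intro x hx v hv
    obtain ⟨a1, a2, a3, a4, a5⟩ := hF x hx
    have hv0 : v ∈ side 0 x := tp_sub 0 E x (a4 hv)
    refine G.fv_mu_out _ _ ?_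
    unfold VV
    rw [Finset.mem_union, not_or]
    exact ⟨fun h' => absurd (side_uniq hv0 h') (by decide),
      fun h' => absurd (side_uniq hv0 h') (by decide)⟩
  · intro x hx x' hx' hxx
    exact qt_inj12 (hF x hx).1 (hF x' hx').1 hxx
  · -- `c1 ν ≤ g E`
    have h1 : L / 10 * E ≤ (∑ v ∈ D, Real.log (Nv v)) * E := mul_le_mul_of_nonneg_right hD1 hE0.le
    refine le_trans ?_ h1
    have h2 : c1 * (42 * h * ε * E * L) = ε * (420 * c1 * h) * (L / 10 * E) := by ring
    rw [h2]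
    have h3 : ε * (420 * c1 * h) ≤ 1 := by
      refine le_trans ?_ hε1
      apply mul_le_mul_of_nonneg_left _ hε.le
      have : 100000 * c1 * 1 * h ≤ 100000 * c1 * (h + 1) * h := by gcongr; linarith
      have h4 : 0 < c1 * h := by positivity
      nlinarith
    exact mul_le_of_le_one_left (by positivity) h3
  · -- `E g ≤ exp (g / c1) ν`
    have h1 : θ * L ≤ 1 / 10 * L := mul_le_mul_of_nonneg_right hθ hL0.le
    have hg : ∑ v ∈ D, Real.log (Nv v) ≤ L := by linarith
    have h2 : Real.exp (L / (10 * c1)) ≤ Real.exp ((∑ v ∈ D, Real.log (Nv v)) / c1) := by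
      apply Real.exp_le_exp.2
      have e : L / (10 * c1) = L / 10 / c1 := by field_simp
      rw [e]
      exact div_le_div_of_nonneg_right hD1 (by linarith)
    calc (E : ℝ) * ∑ v ∈ D, Real.log (Nv v) ≤ E * L := mul_le_mul_of_nonneg_left hg hE0.le
      _ ≤ 42 * h * (E * L) := le_mul_of_one_le_left (by positivity) (by linarith)
      _ = 1 / ε * (42 * h * ε * E * L) := by field_simp
      _ ≤ _ := mul_le_mul_of_nonneg_right (hL2.trans h2) (by positivity)
  · -- `c1 h ν ≤ E g²`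
    have h1 : (L / 10) ^ 2 ≤ (∑ v ∈ D, Real.log (Nv v)) ^ 2 :=
      pow_le_pow_left₀ (by positivity) hD1 2
    have h2 : E * (L / 10) ^ 2 ≤ E * (∑ v ∈ D, Real.log (Nv v)) ^ 2 :=
      mul_le_mul_of_nonneg_left h1 hE0.le
    refine le_trans ?_ h2
    have h3 : c1 * (2 * (h + 1) * L) * (42 * h * ε * E * L) =
        ε * (8400 * c1 * (h + 1) * h) * (E * (L / 10) ^ 2) := by ring
    rw [h3]
    have h4 : ε * (8400 * c1 * (h + 1) * h) ≤ 1 := by
      refine le_trans ?_ hε1
      apply mul_le_mul_of_nonneg_left _ hε.le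
      have : 0 < c1 * (h + 1) * h := by positivity
      nlinarith
    exact mul_le_of_le_one_left (by positivity) h4
  · exact Real.exp_le_exp.2 hD2

end Pool.Agent.Y728.AK
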