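import Pool.Agent.Y728.AK.Gen

/-!
# Heights and products of generators (helper728)
-/

set_option autoImplicit false

namespace Pool.Agent.Y728.AK

open Finset NumberField IsDedekindDomain Height Pool.Agent.H691R3 Pool.Agent.TH876.Loc
open Pool.Agent.TH876.KR (log_Nv_pos')

section
variable {K : Type} [Field K] [NumberField K]

/-- the height as a sum over finitely many places -/
theorem height_eq {z : K} (V : Finset (Pr K)) (hV : ∀ v, v ∉ V → fv v z = 1) :
    logHeight₁ z = ∑ v ∈ Spl V, max 0 (lg v z) := by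
  rw [NumberField.logHeight₁_eq, sum_Spl]
  congr 1
  · refine Finset.sum_congr rfl fun w _ => ?_
    unfold lg
    show (w.mult : ℝ) * Real.posLog (w z) = max 0 ((w.mult : ℝ) * Real.log (w z))
    unfold Real.posLog
    have hm : (0 : ℝ) ≤ w.mult := Nat.cast_nonneg _
    rcases le_total 0 (Real.log (w z)) with h | h
    · rw [max_eq_right h, max_eq_right (mul_nonneg hm h)]
    · rw [max_eq_left h, max_eq_left (mul_nonpos_of_nonneg_of_nonpos hm h), mul_zero]
  · rw [← finsum_comp_equiv (FinitePlace.equivHeightOneSpectrum (K := K)).symm]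
    have h2 : ∀ v : Pr K, Real.posLog
        (((FinitePlace.equivHeightOneSpectrum (K := K)).symm v) z) =
        max 0 (lg (Sum.inr v : Pl K) z) := by
      intro v
      unfold lg
      show Real.posLog (fv v z) = max 0 (1 * Real.log (fv v z))
      rw [one_mul]
      rfl
    simp_rw [h2]
    refine finsum_eq_sum_of_support_subset _ ?_
    intro v hv
    by_contra h
    rw [Function.mem_support] at hv
    apply hv
    unfold lg
    show max 0 (1 * Real.log (fv v z)) = 0
    rw [hV v h, Real.log_one, mul_zero, max_self]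

theorem exists_supp {z : K} (hz : z ≠ 0) (T : Finset (Pl K)) : ∃ V : Finset (Pr K),
    (∀ v, v ∉ V → fv v z = 1) ∧ T ⊆ Spl V := by
  classical
  refine ⟨(fv_support_finite hz).toFinset ∪ T.toRight, fun v hv => ?_, fun v hv => ?_⟩
  · by_contra h
    apply hv
    refine Finset.mem_union_left _ ?_
    rw [Set.Finite.mem_toFinset]
    exact h
  · rcases v with w | v
    · exact inl_mem_Spl _ w
    · rw [inr_mem_Spl]
      refine Finset.mem_union_right _ ?_
      rw [Finset.mem_toRight]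
      exact hv

/-- the height is at most the sum of the absolute values of the logarithms -/
theorem height_le_sum {z : K} (_hz : z ≠ 0) (S : Finset (Pr K)) (hS : ∀ v, v ∉ S → fv v z = 1) :
    logHeight₁ z ≤ ∑ v ∈ S, |Real.log (fv v z)| +
      ∑ w : InfinitePlace K, (w.mult : ℝ) * |Real.log (w z)| := by
  rw [height_eq S hS, sum_Spl, add_comm]
  refine add_le_add (Finset.sum_le_sum fun v _ => ?_) (Finset.sum_le_sum fun w _ => ?_)
  · unfold lg
    show max 0 (1 * Real.log (fv v z)) ≤ _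
    rw [one_mul]
    exact max_le (abs_nonneg _) (le_abs_self _)
  · unfold lg
    show max 0 ((w.mult : ℝ) * Real.log (w z)) ≤ _
    have hm : (0 : ℝ) ≤ w.mult := Nat.cast_nonneg _
    exact max_le (mul_nonneg hm (abs_nonneg _)) (mul_le_mul_of_nonneg_left (le_abs_self _) hm)

theorem lg_inv (v : Pl K) (z : K) : lg v z⁻¹ = -lg v z := by
  unfold lg
  rw [map_inv₀, Real.log_inv]
  ring

/-- Liouville's inequality at finitely many places -/
theorem liouville {z : K} (hz : z ≠ 0) (T : Finset (Pl K)) :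
    -logHeight₁ z ≤ ∑ v ∈ T, lg v z := by
  obtain ⟨V, hV, hT⟩ := exists_supp hz T
  have hV' : ∀ v, v ∉ V → fv v z⁻¹ = 1 := fun v hv => by rw [map_inv₀, hV v hv, inv_one]
  have h1 := height_eq V hV'
  rw [logHeight₁_inv] at h1
  rw [h1]
  have h2 : ∑ v ∈ T, -lg v z ≤ ∑ v ∈ T, max 0 (lg v z⁻¹) :=
    Finset.sum_le_sum fun v _ => by rw [lg_inv]; exact le_max_right _ _
  have h3 : ∑ v ∈ T, max 0 (lg v z⁻¹) ≤ ∑ v ∈ Spl V, max 0 (lg v z⁻¹) :=
    Finset.sum_le_sum_of_subset_of_nonneg hT fun v _ _ => le_max_left _ _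
  rw [Finset.sum_neg_distrib] at h2
  linarith

/-- a place is bounded by the height -/
theorem lg_le_height (z : K) (hz : z ≠ 0) (v : Pl K) : |lg v z| ≤ logHeight₁ z := by
  have h1 := liouville hz {v}
  have h2 := liouville (inv_ne_zero hz) {v}
  rw [Finset.sum_singleton] at h1 h2
  rw [logHeight₁_inv, lg_inv] at h2
  rw [abs_le]
  constructor <;> linarith

theorem height_root {z : K} {m : ℕ} (hm : 1 ≤ m) (h : z ^ m = 1) : logHeight₁ z = 0 := by
  have h1 := logHeight₁_pow z m
  rw [h, logHeight₁_one] at h1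
  have hm0 : (m : ℝ) ≠ 0 := by exact_mod_cast (by omega : m ≠ 0)
  rcases mul_eq_zero.1 h1.symm with h2 | h2
  · exact absurd h2 hm0
  · exact h2

/-- a root of unity close to one is one -/
theorem root_eq_one : ∃ c : ℝ, 0 < c ∧ ∀ (z : K) (m : ℕ), 1 ≤ m → z ^ m = 1 →
    ((∃ (S : Finset (Pr K)) (gv : Pr K → ℝ), c ≤ ∑ v ∈ S, gv v ∧
      ∀ v ∈ S, fv v (z - 1) ≤ Real.exp (-gv v)) ∨
      (∃ w : InfinitePlace K, w (z - 1) ≤ Real.exp (-c))) → z = 1 := by
  classical
  have hl2 : 0 < Real.log 2 := Real.log_pos (by norm_num)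
  refine ⟨totalWeight K * Real.log 2 + 1, by positivity, fun z m hm hz h => ?_⟩
  by_contra hne
  have hz1 : z - 1 ≠ 0 := sub_ne_zero.2 hne
  have hh : logHeight₁ (z - 1) ≤ totalWeight K * Real.log 2 := by
    have h1 := logHeight₁_sub_le z 1
    rw [height_root hm hz, logHeight₁_one] at h1
    linarith
  rcases h with ⟨S, gv, hc, hS⟩ | ⟨w, hw⟩
  · have h2 := liouville hz1 (S.map ⟨Sum.inr, Sum.inr_injective⟩)
    rw [Finset.sum_map] at h2
    have h3 : ∑ v ∈ S, lg (Sum.inr v : Pl K) (z - 1) ≤ ∑ v ∈ S, -gv v := by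
      refine Finset.sum_le_sum fun v hv => ?_
      unfold lg
      show 1 * Real.log (fv v (z - 1)) ≤ _
      rw [one_mul]
      have h4 := Real.log_le_log (fv_pos v hz1) (hS v hv)
      rwa [Real.log_exp] at h4
    rw [Finset.sum_neg_distrib] at h3
    have h5 : -logHeight₁ (z - 1) ≤ ∑ v ∈ S, lg (Sum.inr v : Pl K) (z - 1) := h2
    linarith
  · have h2 := liouville hz1 {(Sum.inl w : Pl K)}
    rw [Finset.sum_singleton] at h2
    have h3 : lg (Sum.inl w : Pl K) (z - 1) ≤ -(totalWeight K * Real.log 2 + 1) := by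
      unfold lg
      show (w.mult : ℝ) * Real.log (w (z - 1)) ≤ _
      have h4 := Real.log_le_log (InfinitePlace.pos_iff.2 hz1) hw
      rw [Real.log_exp] at h4
      have hm1 : (1 : ℝ) ≤ w.mult := by exact_mod_cast InfinitePlace.mult_pos
      have h5 : 0 ≤ totalWeight K * Real.log 2 + 1 := by positivity
      nlinarith
    linarith

end

section gb
variable {K : Type} [Field K] [NumberField K] {h : ℕ} {C : ℝ} {g : Pr K → 𝓞 K}

theorem GB.g_ne (G : GB K h C g) (v : Pr K) : (g v : K) ≠ 0 := by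
  intro h0
  have h1 := G.self v
  rw [h0, map_zero] at h1
  exact pow_ne_zero _ (inv_ne_zero (Nv_pos v).ne') h1.symm

theorem GB.mu_ne (G : GB K h C g) (S : Finset (Pr K)) (n : Pr K → ℤ) : mu g S n ≠ 0 :=
  Finset.prod_ne_zero_iff.2 fun v _ => zpow_ne_zero _ (G.g_ne v)

theorem GB.fv_mu (G : GB K h C g) (S : Finset (Pr K)) (n : Pr K → ℤ) {v : Pr K} (hv : v ∈ S) :
    Real.log (fv v (mu g S n)) = -(h * n v * Real.log (Nv v)) := by
  classical
  have e : fv v (mu g S n) = ((Nv v)⁻¹ ^ h) ^ n v := by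
    unfold mu
    rw [map_prod, ← Finset.mul_prod_erase S _ hv, Finset.prod_eq_one, mul_one, map_zpow₀, G.self]
    intro u hu
    rw [map_zpow₀, G.ne v u (Finset.ne_of_mem_erase hu).symm, one_zpow]
  rw [e, Real.log_zpow, Real.log_pow, Real.log_inv]
  ring

theorem GB.fv_mu_out (G : GB K h C g) (S : Finset (Pr K)) (n : Pr K → ℤ) {v : Pr K}
    (hv : v ∉ S) : fv v (mu g S n) = 1 := by
  unfold mu
  rw [map_prod]
  refine Finset.prod_eq_one fun u hu => ?_
  rw [map_zpow₀, G.ne v u (fun h => hv (h ▸ hu)), one_zpow]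

theorem GB.log_inf (G : GB K h C g) (S : Finset (Pr K)) (n : Pr K → ℤ) (w : InfinitePlace K) :
    Real.log (w (mu g S n)) = ∑ v ∈ S, n v * Real.log (w (g v : K)) := by
  unfold mu
  rw [map_prod, Real.log_prod]
  · refine Finset.sum_congr rfl fun v _ => ?_
    rw [map_zpow₀, Real.log_zpow]
  · intro v _
    rw [map_zpow₀]
    exact zpow_ne_zero _ (InfinitePlace.pos_iff.2 (G.g_ne v)).ne'

theorem GB.inf_mu (G : GB K h C g) (S : Finset (Pr K)) (n : Pr K → ℤ) (w : InfinitePlace K) :
    |Real.log (w (mu g S n)) - h / (Module.finrank ℚ K : ℝ) *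
      ∑ v ∈ S, n v * Real.log (Nv v)| ≤ C * ∑ v ∈ S, |(n v : ℝ)| := by
  rw [G.log_inf, Finset.mul_sum, ← Finset.sum_sub_distrib, Finset.mul_sum]
  refine (Finset.abs_sum_le_sum_abs _ _).trans (Finset.sum_le_sum fun v _ => ?_)
  have h1 := G.bal v w
  have e : (n v : ℝ) * Real.log (w (g v : K)) - h / (Module.finrank ℚ K : ℝ) *
      (n v * Real.log (Nv v)) = n v * (Real.log (w (g v : K)) - h / (Module.finrank ℚ K : ℝ) *
        Real.log (Nv v)) := by ring
  rw [e, abs_mul, mul_comm C]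
  exact mul_le_mul_of_nonneg_left h1 (abs_nonneg _)

theorem GB.height_g (G : GB K h C g) (v : Pr K) :
    logHeight₁ (g v : K) ≤ h * Real.log (Nv v) + Module.finrank ℚ K * C := by
  classical
  have h1 := height_eq (z := (g v : K)) {v} (fun u hu => G.ne u v (by
    rw [Finset.mem_singleton] at hu
    exact hu))
  rw [h1, sum_Spl, Finset.sum_singleton]
  have h2 : max 0 (lg (Sum.inr v : Pl K) (g v : K)) = 0 := by
    refine max_eq_left ?_
    unfold lg
    show 1 * Real.log (fv v (g v : K)) ≤ 0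
    rw [one_mul, G.self v, Real.log_pow, Real.log_inv]
    have := (log_Nv_pos' v).le
    have h3 : (0 : ℝ) ≤ h := Nat.cast_nonneg _
    nlinarith
  rw [h2, add_zero]
  have hd : (0 : ℝ) < Module.finrank ℚ K := by exact_mod_cast Module.finrank_pos
  have hN := (log_Nv_pos' v).le
  have hh : (0 : ℝ) ≤ h := Nat.cast_nonneg _
  have hC := G.C1
  have h3 : ∀ w : InfinitePlace K, max 0 (lg (Sum.inl w : Pl K) (g v : K)) ≤
      (w.mult : ℝ) * (h / (Module.finrank ℚ K : ℝ) * Real.log (Nv v) + C) := by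
    intro w
    have hm : (0 : ℝ) ≤ w.mult := Nat.cast_nonneg _
    refine max_le (mul_nonneg hm (by positivity)) ?_
    unfold lg
    show (w.mult : ℝ) * Real.log (w (g v : K)) ≤ _
    apply mul_le_mul_of_nonneg_left _ hm
    have := (abs_le.1 (G.bal v w)).2
    linarith
  refine (Finset.sum_le_sum fun w _ => h3 w).trans ?_
  have hmult : ∑ w : InfinitePlace K, (w.mult : ℝ) = Module.finrank ℚ K := by
    rw [← InfinitePlace.sum_mult_eq (K := K)]
    push_cast
    rfl
  rw [← Finset.sum_mul, hmult]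
  refine le_of_eq ?_
  field_simp

theorem GB.height_mu (G : GB K h C g) (S : Finset (Pr K)) (n : Pr K → ℤ) :
    logHeight₁ (mu g S n) ≤
      ∑ v ∈ S, |(n v : ℝ)| * (h * Real.log (Nv v) + Module.finrank ℚ K * C) := by
  unfold mu
  refine (logHeight₁_prod_le _ _).trans (Finset.sum_le_sum fun v _ => ?_)
  rw [logHeight₁_zpow]
  have e : ((n v).natAbs : ℝ) = |(n v : ℝ)| := by
    rw [Nat.cast_natAbs, Int.cast_abs]
  rw [e]
  exact mul_le_mul_of_nonneg_left (G.height_g v) (abs_nonneg _)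

end gb

end Pool.Agent.Y728.AK
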