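import Pool.Agent.Y728.AK.Val

/-!
# The values of all heights, ordered by the truncated counting function of any `q ≥ 3` points of the
line over `K` (helper728)
-/

set_option autoImplicit false

namespace Pool.Agent.Y728.AK

open Finset NumberField IsDedekindDomain Pool.Agent.H691R3 Pool.Agent.TH876.Loc
open Pool.Agent.TH876.KR (form counting localHeight localHeight_nonneg localHeight_pos_iff m2)

/-- the elements of `K` which are none of the points, with small truncated counting function -/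
def GVal (K : Type) [Field K] [NumberField K] {q : ℕ} (S : Set (HeightOneSpectrum (𝓞 K)))
    (a : Fin q → Fin 2 → K) (X : ℝ) : Set K :=
  {x | (∀ j, form (a j) ![x, 1] ≠ 0) ∧ counting S a ![x, 1] ≤ Real.log X}

/-- those violating the inequality -/
def GExc (K : Type) [Field K] [NumberField K] {q : ℕ} (S : Set (HeightOneSpectrum (𝓞 K)))
    (a : Fin q → Fin 2 → K) (κ C₀ X : ℝ) : Set K :=
  {x | (∀ j, form (a j) ![x, 1] ≠ 0) ∧ counting S a ![x, 1] ≤ Real.log X ∧
    counting S a ![x, 1] + C₀ < ((q : ℝ) - κ) * Height.logHeight₁ x}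

theorem g_all (K : Type) [Field K] [NumberField K] {q : ℕ} (hq : 3 ≤ q)
    (S : Set (HeightOneSpectrum (𝓞 K))) (hS : S.Finite) (a : Fin q → Fin 2 → K)
    (ha : ∀ i j, i ≠ j → form (a i) (a j) ≠ 0) (δ : ℝ) (hδ : 0 < δ) :
    ∃ C : ℝ, ∀ X : ℝ, 1 ≤ X → (GVal K S a X).Finite ∧
      ((GVal K S a X).ncard : ℝ) ≤ C * X ^ (2 / (q : ℝ) + δ) := by
  obtain ⟨C, hC⟩ := line_final K S hS q hq a ha δ hδ
  refine ⟨C, fun X hX => ?_⟩
  obtain ⟨h1, h2⟩ := hC X hX
  have hmaps : ∀ x ∈ GVal K S a X, toP x ∈ PtsQ S a X := by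
    rintro x ⟨hx, hc⟩
    refine ⟨![x, 1], _, rfl, hx, ?_⟩
    rw [← Real.le_log_iff_exp_le (by linarith)]
    exact hc
  refine ⟨Set.Finite.of_injOn hmaps toP_inj.injOn h1, le_trans ?_ h2⟩
  exact_mod_cast Set.ncard_le_ncard_of_injOn toP hmaps toP_inj.injOn h1

/-- **the exceptions among the values of all heights** -/
theorem g_exc (K : Type) [Field K] [NumberField K] {q : ℕ} (hq : 3 ≤ q)
    (S : Set (HeightOneSpectrum (𝓞 K))) (hS : S.Finite) (a : Fin q → Fin 2 → K)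
    (ha : ∀ i j, i ≠ j → form (a i) (a j) ≠ 0) {κ : ℝ} (hκ : 0 < κ) (C₀ : ℝ) :
    ∃ ν C : ℝ, 0 < ν ∧ ν ≤ 1 / q ∧ 0 < C ∧ ∀ X : ℝ, 1 ≤ X → (GExc K S a κ C₀ X).Finite ∧
      ((GExc K S a κ C₀ X).ncard : ℝ) ≤ C * X ^ (2 / (q : ℝ) - ν) := by
  have hq0 : (3 : ℝ) ≤ q := by exact_mod_cast hq
  have hqp : (0 : ℝ) < q := by linarith
  obtain ⟨κ', hκ'⟩ : ∃ κ' : ℝ, κ' = min κ 1 := ⟨_, rfl⟩
  have h0 : 0 < κ' := by rw [hκ']; exact lt_min hκ one_pos
  have h1 : κ' ≤ κ := by rw [hκ']; exact min_le_left _ _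
  have h2 : κ' ≤ 1 := by rw [hκ']; exact min_le_right _ _
  have hpos : 0 < (q : ℝ) - κ' / 2 := by linarith
  have hM : 1 / (q : ℝ) < 1 / ((q : ℝ) - κ' / 2) :=
    one_div_lt_one_div_of_lt hpos (by linarith)
  obtain ⟨C1, hC1⟩ := line_final K S hS q hq a ha 1 one_pos
  obtain ⟨ν, C, hν, hνq, hC, h⟩ := line_exc K S hS q hq a ha hM
  obtain ⟨B, hB⟩ : ∃ B : ℝ, B = 2 / κ' * |C₀| := ⟨_, rfl⟩
  have hF0 : {x : K | Height.logHeight₁ x ≤ B}.Finite := Northcott.finite_le B
  refine ⟨ν, ({x : K | Height.logHeight₁ x ≤ B}.ncard : ℝ) + C, hν, hνq, by positivity,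
    fun X hX => ?_⟩
  have hX0 : 0 < X := by linarith
  have hfinE : (ExcQ S a (1 / ((q : ℝ) - κ' / 2)) X).Finite :=
    (hC1 X hX).1.subset (ExcQ_sub _ _ _ _)
  obtain ⟨T1, hT1⟩ : ∃ T1 : Set K, T1 = {x | toP x ∈ ExcQ S a (1 / ((q : ℝ) - κ' / 2)) X} :=
    ⟨_, rfl⟩
  have hmaps : ∀ x ∈ T1, toP x ∈ ExcQ S a (1 / ((q : ℝ) - κ' / 2)) X := by
    intro x hx
    rw [hT1] at hx
    exact hx
  have hT1f : T1.Finite := Set.Finite.of_injOn hmaps toP_inj.injOn hfinE
  have hT1c : (T1.ncard : ℝ) ≤ C * X ^ (2 / (q : ℝ) - ν) := by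
    refine le_trans ?_ (h X hX)
    exact_mod_cast Set.ncard_le_ncard_of_injOn toP hmaps toP_inj.injOn hfinE
  have hsub : GExc K S a κ C₀ X ⊆ {x : K | Height.logHeight₁ x ≤ B} ∪ T1 := by
    rintro x ⟨hx, hc, hlt⟩
    by_cases hxB : Height.logHeight₁ x ≤ B
    · exact Or.inl hxB
    right
    rw [hT1]
    show toP x ∈ ExcQ S a (1 / ((q : ℝ) - κ' / 2)) X
    rw [not_le] at hxB
    have hH0 : 0 ≤ Height.logHeight₁ x := Height.zero_le_logHeight₁ x
    refine ⟨![x, 1], _, rfl, hx, ?_, ?_⟩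
    · rw [← Real.le_log_iff_exp_le hX0]
      exact hc
    · rw [← Height.logHeight₁_eq_logHeight, one_div, inv_mul_le_iff₀ hpos]
      have h3 : ((q : ℝ) - κ) * Height.logHeight₁ x ≤ ((q : ℝ) - κ') * Height.logHeight₁ x :=
        mul_le_mul_of_nonneg_right (by linarith) hH0
      have h4 : |C₀| ≤ κ' / 2 * Height.logHeight₁ x := by
        have h5 : κ' / 2 * B = |C₀| := by rw [hB]; field_simp
        rw [← h5]
        exact mul_le_mul_of_nonneg_left hxB.le (by positivity)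
      have h5 := neg_abs_le C₀
      have h6 : ((q : ℝ) - κ' / 2) * Height.logHeight₁ x =
          ((q : ℝ) - κ') * Height.logHeight₁ x + κ' / 2 * Height.logHeight₁ x := by ring
      rw [h6]
      linarith
  refine ⟨(hF0.union hT1f).subset hsub, ?_⟩
  have h3 : ((GExc K S a κ C₀ X).ncard : ℝ) ≤
      ({x : K | Height.logHeight₁ x ≤ B}.ncard : ℝ) + T1.ncard := by
    exact_mod_cast (Set.ncard_le_ncard hsub (hF0.union hT1f)).trans (Set.ncard_union_le _ _)
  have h4 : 1 ≤ X ^ (2 / (q : ℝ) - ν) := by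
    refine Real.one_le_rpow hX ?_
    have : 1 / (q : ℝ) ≤ 2 / q := div_le_div_of_nonneg_right (by norm_num) hqp.le
    linarith
  have h5 : ({x : K | Height.logHeight₁ x ≤ B}.ncard : ℝ) ≤
      ({x : K | Height.logHeight₁ x ≤ B}.ncard : ℝ) * X ^ (2 / (q : ℝ) - ν) :=
    le_mul_of_one_le_right (Nat.cast_nonneg _) h4
  rw [add_mul]
  linarith

theorem form_scale {K : Type} [Field K] (a x : Fin 2 → K) (h : x 1 ≠ 0) :
    form a x = x 1 * form a ![x 0 / x 1, 1] := by
  show a 0 * x 1 - a 1 * x 0 = x 1 * (a 0 * 1 - a 1 * (x 0 / x 1))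
  field_simp

/-- a lower bound for the number of values -/
theorem g_low (K : Type) [Field K] [NumberField K] {q : ℕ} (hq : 3 ≤ q)
    (S : Set (HeightOneSpectrum (𝓞 K))) (hS : S.Finite) (a : Fin q → Fin 2 → K)
    (ha : ∀ i j, i ≠ j → form (a i) (a j) ≠ 0) (δ : ℝ) (hδ : 0 < δ) :
    ∃ X₀ : ℝ, 1 ≤ X₀ ∧ ∀ X : ℝ, X₀ ≤ X →
      X ^ (2 / (q : ℝ) - δ) ≤ ((GVal K S a X).ncard : ℝ) := by
  classical
  have hq0 : (3 : ℝ) ≤ q := by exact_mod_cast hq
  have hqp : (0 : ℝ) < q := by linarith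
  obtain ⟨δ', hδ'⟩ : ∃ δ' : ℝ, δ' = min δ (1 / q) / 2 := ⟨_, rfl⟩
  have h1q : 0 < 1 / (q : ℝ) := by positivity
  have h0 : 0 < δ' := by
    rw [hδ']
    have : 0 < min δ (1 / (q : ℝ)) := lt_min hδ h1q
    positivity
  have hδ1 : 2 * δ' ≤ δ := by rw [hδ']; linarith [min_le_left δ (1 / (q : ℝ))]
  have hδ2 : 2 * δ' ≤ 1 / q := by rw [hδ']; linarith [min_le_right δ (1 / (q : ℝ))]
  obtain ⟨X0, hX0, h⟩ := line_low K S hS q hq a ha δ' h0
  obtain ⟨C, hC⟩ := g_all K hq S hS a ha 1 one_pos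
  obtain ⟨X1, hX1⟩ : ∃ X1 : ℝ, X1 = Real.exp (Real.log 2 / δ') := ⟨_, rfl⟩
  refine ⟨max X0 X1, hX0.trans (le_max_left _ _), fun X hX => ?_⟩
  have hXX : X0 ≤ X := (le_max_left _ _).trans hX
  have hX11 : X1 ≤ X := (le_max_right _ _).trans hX
  have h1X : 1 ≤ X := hX0.trans hXX
  have hXp : 0 < X := by linarith
  have hfin := (hC X h1X).1
  -- the points different from infinity are values
  have hsub : PtsQ S a X ⊆ (toP '' (GVal K S a X)) ∪ {Projectivization.mk K ![1, 0]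
        (fun h => one_ne_zero (congrFun h 0))} := by
    rintro P ⟨x, hx, rfl, hf, hc⟩
    by_cases hx1 : x 1 = 0
    · right
      rw [Set.mem_singleton_iff, Projectivization.mk_eq_mk_iff']
      refine ⟨x 0, ?_⟩
      funext i
      fin_cases i
      · simp
      · simp [hx1]
    · left
      have e1 : Projectivization.mk K x hx = toP (x 0 / x 1) := by
        unfold toP
        rw [Projectivization.mk_eq_mk_iff']
        refine ⟨x 1, ?_⟩
        funext i
        fin_cases i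
        · show x 1 * (x 0 / x 1) = x 0
          field_simp
        · show x 1 * 1 = x 1
          rw [mul_one]
      have hne : ∀ j, form (a j) ![x 0 / x 1, 1] ≠ 0 := by
        intro j h0
        apply hf j
        rw [form_scale (a j) x hx1, h0, mul_zero]
      refine ⟨x 0 / x 1, ⟨hne, ?_⟩, e1.symm⟩
      have e2 : counting S a ![x 0 / x 1, 1] = counting S a x := by
        unfold counting
        have e3 : ∀ (v : Pr K) (i : Fin q), localHeight v (a i) ![x 0 / x 1, 1] =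
            localHeight v (a i) x := by
          intro v i
          rw [Pool.Agent.TH876.KR.localHeight_eq, Pool.Agent.TH876.KR.localHeight_eq]
          have hv1 : fv v (x 1) ≠ 0 := ((fv v).pos hx1).ne'
          have e4 : m2 v x = fv v (x 1) * m2 v ![x 0 / x 1, 1] := by
            show max (fv v (x 0)) (fv v (x 1)) =
              fv v (x 1) * max (fv v (x 0 / x 1)) (fv v 1)
            rw [mul_max_of_nonneg _ _ ((fv v).nonneg _), ← map_mul, ← map_mul, mul_one]
            congr 2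
            field_simp
          have e5 : fv v (form (a i) x) =
              fv v (x 1) * fv v (form (a i) ![x 0 / x 1, 1]) := by
            rw [← map_mul, ← form_scale (a i) x hx1]
          rw [e4, e5]
          have hf0 : fv v (form (a i) ![x 0 / x 1, 1]) ≠ 0 := ((fv v).pos (hne i)).ne'
          congr 1
          field_simp
        simp only [e3]
      rw [e2, Real.le_log_iff_exp_le hXp]
      exact hc
  have h2 := h X hXX
  have h3 : ((PtsQ S a X).ncard : ℝ) ≤ ((GVal K S a X).ncard : ℝ) + 1 := by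
    have h4 := Set.ncard_le_ncard hsub ((hfin.image toP).union (Set.finite_singleton _))
    have h5 := h4.trans (Set.ncard_union_le _ _)
    rw [Set.ncard_singleton, Set.ncard_image_of_injective _ toP_inj] at h5
    exact_mod_cast h5
  have h4 : X ^ (2 / (q : ℝ) - δ') = X ^ (2 / (q : ℝ) - 2 * δ') * X ^ δ' := by
    rw [← Real.rpow_add hXp]
    congr 1
    ring
  have h5 : 2 ≤ X ^ δ' := by
    rw [← Real.log_le_log_iff (by norm_num) (Real.rpow_pos_of_pos hXp _), Real.log_rpow hXp]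
    have h6 : Real.log 2 / δ' ≤ Real.log X := by
      rw [Real.le_log_iff_exp_le hXp, ← hX1]
      exact hX11
    rw [div_le_iff₀ h0] at h6
    linarith
  have h6 : 1 ≤ X ^ (2 / (q : ℝ) - 2 * δ') := by
    refine Real.one_le_rpow h1X ?_
    have : 1 / (q : ℝ) ≤ 2 / q := div_le_div_of_nonneg_right (by norm_num) hqp.le
    linarith
  have h7 : X ^ (2 / (q : ℝ) - δ) ≤ X ^ (2 / (q : ℝ) - 2 * δ') :=
    Real.rpow_le_rpow_of_exponent_le h1X (by linarith)
  have h8 : X ^ (2 / (q : ℝ) - 2 * δ') * 2 ≤ X ^ (2 / (q : ℝ) - δ') := by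
    rw [h4]
    exact mul_le_mul_of_nonneg_left h5 (by linarith)
  linarith

end Pool.Agent.Y728.AK
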