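import Pool.Agent.Y728.AK.Val
import Pool.Agent.Y729.RV.Base

/-!
# Values in a number field `K` of a function on a curve over `K`: the exceptions among the values of
all heights (helper728)
-/

set_option autoImplicit false

namespace Pool.Agent.Y728.AK

open Finset NumberField IsDedekindDomain Pool.Agent.H691R3 Pool.Agent.TH876.Loc
open Pool.Agent.TH876.KR (form counting localHeight localHeight_nonneg localHeight_pos_iff m2)

variable {K : Type} [Field K] [NumberField K]

/-- the coordinates of an element of `K` -/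
def pK (a : K) : Fin 2 → K := ![a, 1]

/-- `x` and `a` have the same reduction at `v` -/
def NearK (a x : K) (v : HeightOneSpectrum (𝓞 K)) : Prop :=
  v.valuation K (x - a) < max (v.valuation K a) 1 * max (v.valuation K x) 1

open Classical in
/-- the truncated counting function of `[a_1] + … + [a_q]` -/
noncomputable def cntK {q : ℕ} (S : Finset (HeightOneSpectrum (𝓞 K))) (a : Fin q → K) (x : K) : ℝ :=
  ∑ᶠ v : HeightOneSpectrum (𝓞 K),
    if v ∉ S ∧ ∃ j, NearK (a j) x v then Real.log (Ideal.absNorm v.asIdeal) else 0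

theorem max_rep (v : Pr K) (y : K) :
    ∃ b : K, fv v b = max (fv v y) 1 ∧ v.valuation K b = max (v.valuation K y) 1 := by
  rcases le_or_gt 1 (v.valuation K y) with h | h
  · refine ⟨y, (max_eq_left ?_).symm, (max_eq_left h).symm⟩
    rw [← not_lt, ← map_one (fv v), fv_lt_iff, map_one, not_lt]
    exact h
  · refine ⟨1, ?_, ?_⟩
    · rw [map_one]
      refine (max_eq_right ?_).symm
      have h1 : fv v y < fv v 1 := (fv_lt_iff v y 1).2 (by rw [map_one]; exact h)
      rw [map_one] at h1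
      exact h1.le
    · rw [map_one]
      exact (max_eq_right h.le).symm

theorem formK (a x : K) : form (pK a) ![x, 1] = a - x := by
  show a * 1 - 1 * x = a - x
  ring

theorem formK_ne {a x : K} (h : x ≠ a) : form (pK a) ![x, 1] ≠ 0 := by
  rw [formK]
  exact sub_ne_zero.2 h.symm

theorem formK_ne' {a b : K} (h : a ≠ b) : form (pK a) (pK b) ≠ 0 := by
  show a * 1 - 1 * b ≠ 0
  rw [mul_one, one_mul]
  exact sub_ne_zero.2 h

theorem near_iffK (v : Pr K) {a x : K} (h : x ≠ a) :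
    0 < localHeight v (pK a) ![x, 1] ↔ NearK a x v := by
  obtain ⟨b, hb1, hb2⟩ := max_rep v a
  obtain ⟨c, hc1, hc2⟩ := max_rep v x
  have e1 : m2 v (pK a) = fv v b := by
    rw [hb1]
    show max (fv v a) (fv v 1) = _
    rw [map_one]
  have e2 : m2 v ![x, 1] = fv v c := by
    rw [hc1]
    show max (fv v x) (fv v 1) = _
    rw [map_one]
  rw [localHeight_pos_iff v (formK_ne h), e1, e2, formK, ← map_mul, fv_lt_iff, map_mul, hb2, hc2,
    ← neg_sub, Valuation.map_neg]
  rfl

theorem nearK_finite {a x : K} (h : x ≠ a) : {v : HeightOneSpectrum (𝓞 K) | NearK a x v}.Finite := by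
  refine ((Pool.Agent.Y729.RV.val_fin (sub_ne_zero.2 h)).union
    ((HeightOneSpectrum.Support.finite (𝓞 K) a).union
      (HeightOneSpectrum.Support.finite (𝓞 K) x))).subset ?_
  intro v hv
  by_contra hcon
  rw [Set.mem_union, Set.mem_union, not_or, not_or] at hcon
  obtain ⟨h1, h2, h3⟩ := hcon
  have h1' : ¬ v.valuation K (x - a) < 1 := h1
  have h2' : ¬ 1 < v.valuation K a := h2
  have h3' : ¬ 1 < v.valuation K x := h3
  have hv' : v.valuation K (x - a) < max (v.valuation K a) 1 * max (v.valuation K x) 1 := hv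
  rw [max_eq_right (not_lt.1 h2'), max_eq_right (not_lt.1 h3'), mul_one] at hv'
  exact h1' hv'

theorem cntK_eq {q : ℕ} (S : Finset (HeightOneSpectrum (𝓞 K))) (a : Fin q → K) {x : K}
    (hx : ∀ j, x ≠ a j) :
    cntK S a x = counting (S : Set (HeightOneSpectrum (𝓞 K))) (fun j => pK (a j)) ![x, 1] := by
  classical
  unfold cntK counting
  refine finsum_congr fun v => ?_
  rw [finsum_eq_if]
  have h2 : (∃ j, NearK (a j) x v) ↔ 0 < ∑ i, localHeight v (pK (a i)) ![x, 1] := by
    constructor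
    · rintro ⟨j, hj⟩
      rw [← near_iffK v (hx j)] at hj
      exact Finset.sum_pos' (fun i _ => localHeight_nonneg v (formK_ne (hx i)))
        ⟨j, Finset.mem_univ _, hj⟩
    · intro h
      by_contra hcon
      push Not at hcon
      have h3 : ∀ i, localHeight v (pK (a i)) ![x, 1] ≤ 0 := by
        intro i
        by_contra h4
        rw [not_le, near_iffK v (hx i)] at h4
        exact hcon i h4
      have h4 : ∑ i, localHeight v (pK (a i)) ![x, 1] ≤ 0 := Finset.sum_nonpos fun i _ => h3 i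
      linarith
  refine if_congr ?_ rfl rfl
  rw [h2]
  rfl

theorem log_nonneg_Nv (v : HeightOneSpectrum (𝓞 K)) : 0 ≤ Real.log (Ideal.absNorm v.asIdeal) :=
  Real.log_natCast_nonneg _

/-- monotonicity of sums over sets of primes -/
theorem finsum_mono {P Q : HeightOneSpectrum (𝓞 K) → Prop} [DecidablePred P] [DecidablePred Q]
    (h : ∀ v, P v → Q v) (hQ : {v | Q v}.Finite) :
    (∑ᶠ v : HeightOneSpectrum (𝓞 K), if P v then Real.log (Ideal.absNorm v.asIdeal) else 0) ≤
      ∑ᶠ v : HeightOneSpectrum (𝓞 K), if Q v then Real.log (Ideal.absNorm v.asIdeal) else 0 := by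
  refine finsum_le_finsum' ?_ ?_ fun v => ?_
  · refine hQ.subset fun v hv => ?_
    rw [Function.mem_support] at hv
    by_contra hcon
    exact hv (if_neg fun hp => hcon (h v hp))
  · refine hQ.subset fun v hv => ?_
    rw [Function.mem_support] at hv
    by_contra hcon
    exact hv (if_neg hcon)
  · by_cases hp : P v
    · rw [if_pos hp, if_pos (h v hp)]
    · rw [if_neg hp]
      split_ifs
      · exact log_nonneg_Nv v
      · exact le_rfl

theorem cntK_mono {q : ℕ} {S S' : Finset (HeightOneSpectrum (𝓞 K))} (h : S ⊆ S') (a : Fin q → K)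
    {x : K} (hx : ∀ j, x ≠ a j) : cntK S' a x ≤ cntK S a x := by
  classical
  unfold cntK
  refine finsum_mono (fun v hv => ⟨fun hvS => hv.1 (h hvS), hv.2⟩) ?_
  refine (Set.finite_iUnion fun j => nearK_finite (hx j)).subset ?_
  rintro v ⟨-, j, hj⟩
  exact Set.mem_iUnion.2 ⟨j, hj⟩

/-- the values of all heights -/
def ValAllK (K : Type) [Field K] [NumberField K] {q : ℕ} (S : Finset (HeightOneSpectrum (𝓞 K)))
    (a : Fin q → K) (X : ℝ) : Set K :=
  {x | (∀ j, x ≠ a j) ∧ cntK S a x ≤ Real.log X}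

/-- the values violating the inequality -/
def ValExcK (K : Type) [Field K] [NumberField K] {q : ℕ} (S S' : Finset (HeightOneSpectrum (𝓞 K)))
    (a : Fin q → K) (κ C₀ X : ℝ) : Set K :=
  {x | (∀ j, x ≠ a j) ∧ cntK S a x ≤ Real.log X ∧
    cntK S' a x + C₀ < ((q : ℝ) - κ) * Real.log (Height.mulHeight₁ x)}

theorem val_allK (K : Type) [Field K] [NumberField K] {q : ℕ} (hq : 3 ≤ q)
    (S : Finset (HeightOneSpectrum (𝓞 K))) (a : Fin q → K) (ha : Function.Injective a)
    (δ : ℝ) (hδ : 0 < δ) :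
    ∃ C : ℝ, ∀ X : ℝ, 1 ≤ X → (ValAllK K S a X).Finite ∧
      ((ValAllK K S a X).ncard : ℝ) ≤ C * X ^ (2 / (q : ℝ) + δ) := by
  obtain ⟨C, hC⟩ := line_final K (S : Set (HeightOneSpectrum (𝓞 K))) S.finite_toSet q hq
    (fun j => pK (a j)) (fun i j hij => formK_ne' fun h => hij (ha h)) δ hδ
  refine ⟨C, fun X hX => ?_⟩
  obtain ⟨h1, h2⟩ := hC X hX
  have hmaps : ∀ x ∈ ValAllK K S a X,
      toP x ∈ PtsQ (S : Set (HeightOneSpectrum (𝓞 K))) (fun j => pK (a j)) X := by
    rintro x ⟨hx, hc⟩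
    refine ⟨![x, 1], _, rfl, fun i => formK_ne (hx i), ?_⟩
    rw [← Real.le_log_iff_exp_le (by linarith), ← cntK_eq S a hx]
    exact hc
  refine ⟨Set.Finite.of_injOn hmaps toP_inj.injOn h1, le_trans ?_ h2⟩
  exact_mod_cast Set.ncard_le_ncard_of_injOn toP hmaps toP_inj.injOn h1

/-- **the exceptions among the values of all heights** -/
theorem val_excK (K : Type) [Field K] [NumberField K] {q : ℕ} (hq : 3 ≤ q)
    (S S' : Finset (HeightOneSpectrum (𝓞 K))) (hSS : S ⊆ S') (a : Fin q → K)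
    (ha : Function.Injective a) {κ : ℝ} (hκ : 0 < κ) (C₀ : ℝ) :
    ∃ ν C : ℝ, 0 < ν ∧ ν ≤ 1 / q ∧ 0 < C ∧ ∀ X : ℝ, 1 ≤ X → (ValExcK K S S' a κ C₀ X).Finite ∧
      ((ValExcK K S S' a κ C₀ X).ncard : ℝ) ≤ C * X ^ (2 / (q : ℝ) - ν) := by
  have hq0 : (3 : ℝ) ≤ q := by exact_mod_cast hq
  have hqp : (0 : ℝ) < q := by linarith
  obtain ⟨κ', hκ'⟩ : ∃ κ' : ℝ, κ' = min κ 1 := ⟨_, rfl⟩
  have h0 : 0 < κ' := by rw [hκ']; exact lt_min hκ one_pos
  have h1 : κ' ≤ κ := by rw [hκ']; exact min_le_left _ _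
  have h2 : κ' ≤ 1 := by rw [hκ']; exact min_le_right _ _
  have hpos : 0 < (q : ℝ) - κ' / 2 := by linarith
  have hM : 1 / (q : ℝ) < 1 / ((q : ℝ) - κ' / 2) :=
    one_div_lt_one_div_of_lt hpos (by linarith)
  have hfo : ∀ i j, i ≠ j → form (pK (a i)) (pK (a j)) ≠ 0 :=
    fun i j hij => formK_ne' fun h => hij (ha h)
  obtain ⟨C1, hC1⟩ := line_final K (S' : Set (HeightOneSpectrum (𝓞 K))) S'.finite_toSet q hq
    (fun j => pK (a j)) hfo 1 one_pos
  obtain ⟨ν, C, hν, hνq, hC, h⟩ := line_exc K (S' : Set (HeightOneSpectrum (𝓞 K)))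
    S'.finite_toSet q hq (fun j => pK (a j)) hfo hM
  obtain ⟨B, hB⟩ : ∃ B : ℝ, B = 2 / κ' * |C₀| := ⟨_, rfl⟩
  have hF0 : {x : K | Height.logHeight₁ x ≤ B}.Finite := Northcott.finite_le B
  refine ⟨ν, ({x : K | Height.logHeight₁ x ≤ B}.ncard : ℝ) + C, hν, hνq, by positivity,
    fun X hX => ?_⟩
  have hX0 : 0 < X := by linarith
  have hfinE : (ExcQ (S' : Set (HeightOneSpectrum (𝓞 K))) (fun j => pK (a j))
      (1 / ((q : ℝ) - κ' / 2)) X).Finite :=
    (hC1 X hX).1.subset (ExcQ_sub _ _ _ _)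
  obtain ⟨T1, hT1⟩ : ∃ T1 : Set K, T1 = {x | toP x ∈ ExcQ (S' : Set (HeightOneSpectrum (𝓞 K)))
      (fun j => pK (a j)) (1 / ((q : ℝ) - κ' / 2)) X} := ⟨_, rfl⟩
  have hmaps : ∀ x ∈ T1, toP x ∈ ExcQ (S' : Set (HeightOneSpectrum (𝓞 K))) (fun j => pK (a j))
      (1 / ((q : ℝ) - κ' / 2)) X := by
    intro x hx
    rw [hT1] at hx
    exact hx
  have hT1f : T1.Finite := Set.Finite.of_injOn hmaps toP_inj.injOn hfinE
  have hT1c : (T1.ncard : ℝ) ≤ C * X ^ (2 / (q : ℝ) - ν) := by
    refine le_trans ?_ (h X hX)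
    exact_mod_cast Set.ncard_le_ncard_of_injOn toP hmaps toP_inj.injOn hfinE
  have hsub : ValExcK K S S' a κ C₀ X ⊆ {x : K | Height.logHeight₁ x ≤ B} ∪ T1 := by
    rintro x ⟨hx, hc, hlt⟩
    by_cases hxB : Height.logHeight₁ x ≤ B
    · exact Or.inl hxB
    right
    rw [hT1]
    show toP x ∈ ExcQ (S' : Set (HeightOneSpectrum (𝓞 K))) (fun j => pK (a j))
      (1 / ((q : ℝ) - κ' / 2)) X
    rw [not_le] at hxB
    have e1 : Height.logHeight₁ x = Real.log (Height.mulHeight₁ x) :=
      Height.logHeight₁_eq_log_mulHeight₁ x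
    rw [← e1] at hlt
    have hH0 : 0 ≤ Height.logHeight₁ x := Height.zero_le_logHeight₁ x
    refine ⟨![x, 1], _, rfl, fun i => formK_ne (hx i), ?_, ?_⟩
    · rw [← Real.le_log_iff_exp_le hX0, ← cntK_eq S' a hx]
      exact (cntK_mono hSS a hx).trans hc
    · rw [← cntK_eq S' a hx, ← Height.logHeight₁_eq_logHeight, one_div,
        inv_mul_le_iff₀ hpos]
      have h3 : ((q : ℝ) - κ) * Height.logHeight₁ x ≤ ((q : ℝ) - κ') * Height.logHeight₁ x :=
        mul_le_mul_of_nonneg_right (by linarith) hH0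
      have h4 : |C₀| ≤ κ' / 2 * Height.logHeight₁ x := by
        have h5 : κ' / 2 * B = |C₀| := by rw [hB]; field_simp
        rw [← h5]
        exact mul_le_mul_of_nonneg_left hxB.le (by positivity)
      have h5 := neg_abs_le C₀
      have h6 : ((q : ℝ) - κ' / 2) * Height.logHeight₁ x =
          ((q : ℝ) - κ') * Height.logHeight₁ x + κ' / 2 * Height.logHeight₁ x := by ring
      rw [h6]
      linarith
  refine ⟨(hF0.union hT1f).subset hsub, ?_⟩
  have h3 : ((ValExcK K S S' a κ C₀ X).ncard : ℝ) ≤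
      ({x : K | Height.logHeight₁ x ≤ B}.ncard : ℝ) + T1.ncard := by
    exact_mod_cast (Set.ncard_le_ncard hsub (hF0.union hT1f)).trans (Set.ncard_union_le _ _)
  have h4 : 1 ≤ X ^ (2 / (q : ℝ) - ν) := by
    refine Real.one_le_rpow hX ?_
    have : 1 / (q : ℝ) ≤ 2 / q := div_le_div_of_nonneg_right (by norm_num) hqp.le
    linarith
  have h5 : ({x : K | Height.logHeight₁ x ≤ B}.ncard : ℝ) ≤
      ({x : K | Height.logHeight₁ x ≤ B}.ncard : ℝ) * X ^ (2 / (q : ℝ) - ν) :=
    le_mul_of_one_le_right (Nat.cast_nonneg _) h4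
  rw [add_mul]
  linarith

/-- a lower bound for the number of values -/
theorem val_lowK (K : Type) [Field K] [NumberField K] {q : ℕ} (hq : 3 ≤ q)
    (S : Finset (HeightOneSpectrum (𝓞 K))) (a : Fin q → K) (ha : Function.Injective a)
    (δ : ℝ) (hδ : 0 < δ) :
    ∃ X₀ : ℝ, 1 ≤ X₀ ∧ ∀ X : ℝ, X₀ ≤ X →
      X ^ (2 / (q : ℝ) - δ) ≤ ((ValAllK K S a X).ncard : ℝ) := by
  classical
  have hq0 : (3 : ℝ) ≤ q := by exact_mod_cast hq
  have hqp : (0 : ℝ) < q := by linarith
  obtain ⟨δ', hδ'⟩ : ∃ δ' : ℝ, δ' = min δ (1 / q) / 2 := ⟨_, rfl⟩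
  have h1q : 0 < 1 / (q : ℝ) := by positivity
  have h0 : 0 < δ' := by
    rw [hδ']
    have : 0 < min δ (1 / (q : ℝ)) := lt_min hδ h1q
    positivity
  have hδ1 : 2 * δ' ≤ δ := by rw [hδ']; linarith [min_le_left δ (1 / (q : ℝ))]
  have hδ2 : 2 * δ' ≤ 1 / q := by rw [hδ']; linarith [min_le_right δ (1 / (q : ℝ))]
  have hfo : ∀ i j, i ≠ j → form (pK (a i)) (pK (a j)) ≠ 0 :=
    fun i j hij => formK_ne' fun h => hij (ha h)
  obtain ⟨X0, hX0, h⟩ := line_low K (S : Set (HeightOneSpectrum (𝓞 K))) S.finite_toSet q hq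
    (fun j => pK (a j)) hfo δ' h0
  obtain ⟨C, hC⟩ := val_allK K hq S a ha 1 one_pos
  obtain ⟨X1, hX1⟩ : ∃ X1 : ℝ, X1 = Real.exp (Real.log 2 / δ') := ⟨_, rfl⟩
  refine ⟨max X0 X1, hX0.trans (le_max_left _ _), fun X hX => ?_⟩
  have hXX : X0 ≤ X := (le_max_left _ _).trans hX
  have hX11 : X1 ≤ X := (le_max_right _ _).trans hX
  have h1X : 1 ≤ X := hX0.trans hXX
  have hXp : 0 < X := by linarith
  have hfin := (hC X h1X).1
  -- the points different from infinity are values
  have hsub : PtsQ (S : Set (HeightOneSpectrum (𝓞 K))) (fun j => pK (a j)) X ⊆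
      (toP '' (ValAllK K S a X)) ∪ {Projectivization.mk K ![1, 0]
        (fun h => one_ne_zero (congrFun h 0))} := by
    rintro P ⟨x, hx, rfl, hf, hc⟩
    by_cases hx1 : x 1 = 0
    · right
      rw [Set.mem_singleton_iff, Projectivization.mk_eq_mk_iff']
      refine ⟨x 0, ?_⟩
      funext i
      fin_cases i
      · simp
      · simp [hx1]
    · left
      have e1 : Projectivization.mk K x hx = toP (x 0 / x 1) := by
        unfold toP
        rw [Projectivization.mk_eq_mk_iff']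
        refine ⟨x 1, ?_⟩
        funext i
        fin_cases i
        · show x 1 * (x 0 / x 1) = x 0
          field_simp
        · show x 1 * 1 = x 1
          rw [mul_one]
      have hne : ∀ j, x 0 / x 1 ≠ a j := by
        intro j h0
        apply hf j
        rw [div_eq_iff hx1] at h0
        show a j * x 1 - 1 * x 0 = 0
        rw [h0]
        ring
      refine ⟨x 0 / x 1, ⟨hne, ?_⟩, e1.symm⟩
      rw [cntK_eq S a hne]
      have e2 : counting (S : Set (HeightOneSpectrum (𝓞 K))) (fun j => pK (a j))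
          ![x 0 / x 1, 1] = counting (S : Set (HeightOneSpectrum (𝓞 K))) (fun j => pK (a j)) x := by
        unfold counting
        have e3 : ∀ (v : Pr K) (i : Fin q), localHeight v (pK (a i)) ![x 0 / x 1, 1] =
            localHeight v (pK (a i)) x := by
          intro v i
          rw [Pool.Agent.TH876.KR.localHeight_eq, Pool.Agent.TH876.KR.localHeight_eq]
          have hv1 : fv v (x 1) ≠ 0 := ((fv v).pos hx1).ne'
          have e4 : m2 v x = fv v (x 1) * m2 v ![x 0 / x 1, 1] := by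
            show max (fv v (x 0)) (fv v (x 1)) =
              fv v (x 1) * max (fv v (x 0 / x 1)) (fv v 1)
            rw [mul_max_of_nonneg _ _ ((fv v).nonneg _), ← map_mul, ← map_mul, mul_one]
            congr 2
            field_simp
          have e5 : fv v (form (pK (a i)) x) =
              fv v (x 1) * fv v (form (pK (a i)) ![x 0 / x 1, 1]) := by
            rw [← map_mul, formK]
            congr 1
            show a i * x 1 - 1 * x 0 = x 1 * (a i - x 0 / x 1)
            field_simp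
          rw [e4, e5]
          have hf0 : fv v (form (pK (a i)) ![x 0 / x 1, 1]) ≠ 0 :=
            ((fv v).pos (formK_ne (hne i))).ne'
          congr 1
          field_simp
        simp only [e3]
      rw [e2, Real.le_log_iff_exp_le hXp]
      exact hc
  have h2 := h X hXX
  have h3 : ((PtsQ (S : Set (HeightOneSpectrum (𝓞 K))) (fun j => pK (a j)) X).ncard : ℝ) ≤
      ((ValAllK K S a X).ncard : ℝ) + 1 := by
    have h4 := Set.ncard_le_ncard hsub ((hfin.image toP).union (Set.finite_singleton _))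
    have h5 := h4.trans (Set.ncard_union_le _ _)
    rw [Set.ncard_singleton, Set.ncard_image_of_injective _ toP_inj] at h5
    exact_mod_cast h5
  have h4 : X ^ (2 / (q : ℝ) - δ') = X ^ (2 / (q : ℝ) - 2 * δ') * X ^ δ' := by
    rw [← Real.rpow_add hXp]
    congr 1
    ring
  have h5 : 2 ≤ X ^ δ' := by
    rw [← Real.log_le_log_iff (by norm_num) (Real.rpow_pos_of_pos hXp _), Real.log_rpow hXp]
    have h6 : Real.log 2 / δ' ≤ Real.log X := by
      rw [Real.le_log_iff_exp_le hXp, ← hX1]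
      exact hX11
    rw [div_le_iff₀ h0] at h6
    linarith
  have h6 : 1 ≤ X ^ (2 / (q : ℝ) - 2 * δ') := by
    refine Real.one_le_rpow h1X ?_
    have : 1 / (q : ℝ) ≤ 2 / q := div_le_div_of_nonneg_right (by norm_num) hqp.le
    linarith
  have h7 : X ^ (2 / (q : ℝ) - δ) ≤ X ^ (2 / (q : ℝ) - 2 * δ') :=
    Real.rpow_le_rpow_of_exponent_le h1X (by linarith)
  have h8 : X ^ (2 / (q : ℝ) - 2 * δ') * 2 ≤ X ^ (2 / (q : ℝ) - δ') := by
    rw [h4]
    exact mul_le_mul_of_nonneg_left h5 (by linarith)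
  linarith

/-- the primes above the primes of `T` and the primes at which some `a_j` is not integral -/
theorem exists_big {q : ℕ} (a : Fin q → K) (S : Finset (HeightOneSpectrum (𝓞 K))) (T : Finset ℕ)
    (hT : ∀ p ∈ T, p.Prime) : ∃ S' : Finset (HeightOneSpectrum (𝓞 K)), S ⊆ S' ∧
      (∀ v ∉ S', ∀ p ∈ T, (p : 𝓞 K) ∉ v.asIdeal) ∧ ∀ v ∉ S', ∀ j, v.valuation K (a j) ≤ 1 := by
  classical
  have h1 : (above K T).Finite := above_finite T hT
  have h2 : (⋃ j, HeightOneSpectrum.Support (𝓞 K) (a j)).Finite :=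
    Set.finite_iUnion fun j => HeightOneSpectrum.Support.finite (𝓞 K) (a j)
  refine ⟨S ∪ (h1.toFinset ∪ h2.toFinset), Finset.subset_union_left, fun v hv p hp hpv => ?_,
    fun v hv j => ?_⟩
  · apply hv
    rw [Finset.mem_union, Finset.mem_union, Set.Finite.mem_toFinset]
    exact Or.inr (Or.inl ⟨p, hp, hpv⟩)
  · by_contra hcon
    apply hv
    rw [Finset.mem_union, Finset.mem_union, Set.Finite.mem_toFinset, Set.Finite.mem_toFinset,
      Set.mem_iUnion]
    exact Or.inr (Or.inr ⟨j, not_le.1 hcon⟩)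

/-- comparison with the counting function of integral points -/
theorem cntK_le {q : ℕ} {T : Finset ℕ} {S' : Finset (HeightOneSpectrum (𝓞 K))} {a : Fin q → K}
    (h1 : ∀ v ∉ S', ∀ p ∈ T, (p : 𝓞 K) ∉ v.asIdeal) (h2 : ∀ v ∉ S', ∀ j, v.valuation K (a j) ≤ 1)
    {x : K} (hx : ∀ j, x ≠ a j) : cntK S' a x ≤ Pool.Agent.Y729.RV.cnt T a x := by
  classical
  unfold cntK Pool.Agent.Y729.RV.cnt
  refine finsum_mono (fun v hv => ?_) (Pool.Agent.Y729.RV.nr_fin T hx)
  obtain ⟨hvS, j, hj⟩ := hv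
  have hj' : v.valuation K (x - a j) < max (v.valuation K (a j)) 1 * max (v.valuation K x) 1 := hj
  rw [max_eq_right (h2 v hvS j), one_mul] at hj'
  have h3 : v.valuation K x ≤ 1 := by
    by_contra hcon
    rw [not_le] at hcon
    have h4 : v.valuation K (x - a j) = v.valuation K x :=
      Valuation.map_sub_eq_of_lt_left _ ((h2 v hvS j).trans_lt hcon)
    rw [h4, max_eq_left hcon.le] at hj'
    exact lt_irrefl _ hj'
  refine ⟨h1 v hvS, h3, j, ?_⟩
  rw [max_eq_right h3] at hj'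
  exact hj'

end Pool.Agent.Y728.AK
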