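import Pool.Agent.Y728.AK.GenPts
import Pool.Agent.Y728.AK.ValK
import Pool.Agent.W803.AC.SUMN
import Pool.Agent.W223.AC.KeyG

/-!
# The `j`-line over a number field: for almost all `j`, ordered by the truncated counting function of
`[0] + [1728] + [∞]`, the sum of `log N(v)` over the poles is close to the height (helper728)
-/

set_option autoImplicit false

namespace Pool.Agent.Y728.AK

open Finset NumberField IsDedekindDomain Pool.Agent.H691R3 Pool.Agent.TH876.Loc
open Pool.Agent.TH876.KR (form counting localHeight localHeight_nonneg localHeight_pos_iff m2)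
open Pool.Agent.W223.CV (cc ct ct_nonneg ct_support ct_pos ct_neg)

variable {K : Type} [Field K] [NumberField K]

/-- the three points `0`, `1728`, `∞` of the line -/
def jP (K : Type) [Field K] : Fin 3 → Fin 2 → K := ![![0, 1], ![1728, 1], ![1, 0]]

/-- `j` reduces to `0`, `1728` or `∞` at `v` -/
def JNear (j : K) (v : HeightOneSpectrum (𝓞 K)) : Prop :=
  v.valuation K j < 1 ∨ v.valuation K (j - 1728) < 1 ∨ 1 < v.valuation K j

open Classical in
/-- the truncated counting function of `[0] + [1728] + [∞]` at `j` -/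
noncomputable def jcnt (j : K) : ℝ :=
  ∑ᶠ v : HeightOneSpectrum (𝓞 K), if JNear j v then Real.log (Ideal.absNorm v.asIdeal) else 0

open Classical in
/-- the sum of `log N(v)` over the poles `v` of `j` -/
noncomputable def jbad (j : K) : ℝ :=
  ∑ᶠ v : HeightOneSpectrum (𝓞 K),
    if 1 < v.valuation K j then Real.log (Ideal.absNorm v.asIdeal) else 0

theorem jP_form (i k : Fin 3) (h : i ≠ k) : form (jP K i) (jP K k) ≠ 0 := by
  have h2 : (1728 : K) ≠ 0 := by norm_num
  fin_cases i <;> fin_cases k <;> simp [jP, form] at h ⊢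

theorem jP_ne {j : K} (h0 : j ≠ 0) (h1 : j ≠ 1728) (i : Fin 3) : form (jP K i) ![j, 1] ≠ 0 := by
  fin_cases i
  · simp [jP, form, h0]
  · simp [jP, form, sub_eq_zero, h1.symm]
  · simp [jP, form]

theorem ev {j : K} (h0 : j ≠ 0) (h1 : j ≠ 1728) (v : Pr K) :
    (∃ i, 0 < localHeight v (jP K i) ![j, 1]) ↔ JNear j v := by
  have e1 : m2 v ![j, 1] = max (fv v j) 1 := by
    show max (fv v j) (fv v 1) = _
    rw [map_one]
  have c0 : 0 < localHeight v (jP K 0) ![j, 1] ↔ v.valuation K j < 1 := by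
    rw [localHeight_pos_iff v (jP_ne h0 h1 0)]
    have e2 : m2 v (jP K 0) = 1 := by
      show max (fv v 0) (fv v 1) = 1
      rw [map_zero, map_one]
      norm_num
    have e3 : form (jP K 0) ![j, 1] = - j := by
      show 0 * 1 - 1 * j = -j
      ring
    rw [e1, e2, e3, one_mul, (fv v).map_neg, lt_max_iff]
    have h3 : fv v j < 1 ↔ v.valuation K j < 1 := by
      have := fv_lt_iff v j 1
      rwa [map_one, map_one] at this
    rw [h3]
    exact ⟨fun h => h.resolve_left (lt_irrefl _), Or.inr⟩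
  have c1 : 0 < localHeight v (jP K 1) ![j, 1] ↔ v.valuation K (j - 1728) < 1 := by
    rw [localHeight_pos_iff v (jP_ne h0 h1 1)]
    have h17 : fv v (1728 : K) ≤ 1 := by
      have := fv_int_le v 1728
      push_cast at this
      exact this
    have e2 : m2 v (jP K 1) = 1 := by
      show max (fv v 1728) (fv v 1) = 1
      rw [map_one]
      exact max_eq_right h17
    have e3 : form (jP K 1) ![j, 1] = - (j - 1728) := by
      show 1728 * 1 - 1 * j = _
      ring
    rw [e1, e2, e3, one_mul, (fv v).map_neg, lt_max_iff]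
    have h3 : fv v (j - 1728) < 1 ↔ v.valuation K (j - 1728) < 1 := by
      have := fv_lt_iff v (j - 1728) 1
      rwa [map_one, map_one] at this
    rw [h3]
    constructor
    · rintro (h | h)
      · rw [← h3]
        have h4 := fv_na v (j - 1728) 1728
        rw [sub_add_cancel] at h4
        rcases le_max_iff.1 h4 with h5 | h5
        · exact absurd h (not_lt.2 h5)
        · exact lt_of_lt_of_le h (h5.trans h17)
      · exact h
    · exact Or.inr
  have c2 : 0 < localHeight v (jP K 2) ![j, 1] ↔ 1 < v.valuation K j := by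
    rw [localHeight_pos_iff v (jP_ne h0 h1 2)]
    have e2 : m2 v (jP K 2) = 1 := by
      show max (fv v 1) (fv v 0) = 1
      rw [map_zero, map_one]
      norm_num
    have e3 : form (jP K 2) ![j, 1] = 1 := by
      show 1 * 1 - 0 * j = 1
      ring
    rw [e1, e2, e3, one_mul, map_one, lt_max_iff]
    have h3 : 1 < fv v j ↔ 1 < v.valuation K j := by
      have := fv_lt_iff v 1 j
      rwa [map_one, map_one] at this
    rw [h3]
    exact ⟨fun h => h.resolve_right (lt_irrefl _), Or.inl⟩
  unfold JNear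
  rw [← c0, ← c1, ← c2]
  constructor
  · rintro ⟨i, hi⟩
    fin_cases i
    · exact Or.inl hi
    · exact Or.inr (Or.inl hi)
    · exact Or.inr (Or.inr hi)
  · rintro (h | h | h)
    · exact ⟨0, h⟩
    · exact ⟨1, h⟩
    · exact ⟨2, h⟩

theorem jcnt_eq {j : K} (h0 : j ≠ 0) (h1 : j ≠ 1728) :
    jcnt j = counting (∅ : Set (HeightOneSpectrum (𝓞 K))) (jP K) ![j, 1] := by
  classical
  unfold jcnt counting
  refine finsum_congr fun v => ?_
  rw [finsum_eq_if]
  have h2 : JNear j v ↔ 0 < ∑ i, localHeight v (jP K i) ![j, 1] := by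
    rw [← ev h0 h1]
    constructor
    · rintro ⟨i, hi⟩
      exact Finset.sum_pos' (fun i _ => localHeight_nonneg v (jP_ne h0 h1 i))
        ⟨i, Finset.mem_univ _, hi⟩
    · intro h
      by_contra hcon
      push Not at hcon
      have h4 : ∑ i, localHeight v (jP K i) ![j, 1] ≤ 0 := Finset.sum_nonpos fun i _ => hcon i
      linarith
  refine if_congr ?_ rfl rfl
  rw [h2]
  simp

theorem pole_finite (j : K) : {v : HeightOneSpectrum (𝓞 K) | 1 < v.valuation K j}.Finite :=
  HeightOneSpectrum.Support.finite (𝓞 K) j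

theorem zero_finite {y : K} (hy : y ≠ 0) :
    {v : HeightOneSpectrum (𝓞 K) | v.valuation K y < 1}.Finite :=
  Pool.Agent.Y729.RV.val_fin hy

open Classical in
theorem zero_le_height {y : K} (hy : y ≠ 0) :
    (∑ᶠ v : HeightOneSpectrum (𝓞 K),
      if v.valuation K y < 1 then Real.log (Ideal.absNorm v.asIdeal) else 0) ≤
      Height.logHeight₁ y := by
  have h := Pool.Agent.W803.AC.t K ∅ (fun v => v.valuation K y < 1) y 1 hy le_rfl
    (fun v _ hv => Pool.Agent.W223.AC.val_lt_one_iff v y hv)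
  rw [Nat.cast_one, one_mul] at h
  refine le_trans (le_of_eq ?_) h
  unfold cc
  refine finsum_congr fun v => ?_
  unfold ct
  by_cases hv : v.valuation K y < 1
  · rw [if_pos hv, if_pos ⟨by simp, hv⟩]
  · rw [if_neg hv, if_neg fun h => hv h.2]

theorem jcnt_le {j : K} (h0 : j ≠ 0) (h1 : j ≠ 1728) :
    jcnt j ≤ jbad j + Height.logHeight₁ j + Height.logHeight₁ (j - 1728) := by
  classical
  have hj : j - 1728 ≠ 0 := sub_ne_zero.2 h1
  have f0 := zero_finite h0
  have f1 := zero_finite hj
  have f2 := pole_finite j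
  have a0 := zero_le_height h0
  have a1 := zero_le_height hj
  obtain ⟨A, hA⟩ : ∃ A : HeightOneSpectrum (𝓞 K) → ℝ, A = fun v =>
      if v.valuation K j < 1 then Real.log (Ideal.absNorm v.asIdeal) else 0 := ⟨_, rfl⟩
  obtain ⟨B, hB⟩ : ∃ B : HeightOneSpectrum (𝓞 K) → ℝ, B = fun v =>
      if v.valuation K (j - 1728) < 1 then Real.log (Ideal.absNorm v.asIdeal) else 0 := ⟨_, rfl⟩
  obtain ⟨C, hC⟩ : ∃ C : HeightOneSpectrum (𝓞 K) → ℝ, C = fun v =>
      if 1 < v.valuation K j then Real.log (Ideal.absNorm v.asIdeal) else 0 := ⟨_, rfl⟩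
  have sA : A.support.Finite := by
    refine f0.subset fun v hv => ?_
    rw [Function.mem_support, hA] at hv
    by_contra hcon
    exact hv (if_neg hcon)
  have sB : B.support.Finite := by
    refine f1.subset fun v hv => ?_
    rw [Function.mem_support, hB] at hv
    by_contra hcon
    exact hv (if_neg hcon)
  have sC : C.support.Finite := by
    refine f2.subset fun v hv => ?_
    rw [Function.mem_support, hC] at hv
    by_contra hcon
    exact hv (if_neg hcon)
  have hA0 : ∀ v, 0 ≤ A v := fun v => by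
    rw [hA]
    show 0 ≤ (if v.valuation K j < 1 then Real.log (Ideal.absNorm v.asIdeal) else 0 : ℝ)
    split_ifs
    · exact log_nonneg_Nv v
    · exact le_rfl
  have hB0 : ∀ v, 0 ≤ B v := fun v => by
    rw [hB]
    show 0 ≤ (if v.valuation K (j - 1728) < 1 then Real.log (Ideal.absNorm v.asIdeal) else 0 : ℝ)
    split_ifs
    · exact log_nonneg_Nv v
    · exact le_rfl
  have hC0 : ∀ v, 0 ≤ C v := fun v => by
    rw [hC]
    show 0 ≤ (if 1 < v.valuation K j then Real.log (Ideal.absNorm v.asIdeal) else 0 : ℝ)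
    split_ifs
    · exact log_nonneg_Nv v
    · exact le_rfl
  have eC : jbad j = ∑ᶠ v, C v := by rw [hC]; rfl
  have eA : ∑ᶠ v, A v ≤ Height.logHeight₁ j := by rw [hA]; exact a0
  have eB : ∑ᶠ v, B v ≤ Height.logHeight₁ (j - 1728) := by rw [hB]; exact a1
  have eS : ∑ᶠ v, (C v + A v + B v) = ∑ᶠ v, C v + ∑ᶠ v, A v + ∑ᶠ v, B v := by
    rw [finsum_add_distrib ((sC.union sA).subset (Function.support_add _ _)) sB,
      finsum_add_distrib sC sA]
  have hle : jcnt j ≤ ∑ᶠ v, (C v + A v + B v) := by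
    unfold jcnt
    refine finsum_le_finsum' ?_ ?_ fun v => ?_
    · refine ((f0.union f1).union f2).subset fun v hv => ?_
      rw [Function.mem_support] at hv
      by_contra hcon
      refine hv (if_neg fun hp => hcon ?_)
      rcases hp with h | h | h
      · exact Or.inl (Or.inl h)
      · exact Or.inl (Or.inr h)
      · exact Or.inr h
    · exact (((sC.union sA).subset (Function.support_add _ _)).union sB).subset
        (Function.support_add _ _)
    · split_ifs with hp
      · have k0 := hA0 v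
        have k1 := hB0 v
        have k2 := hC0 v
        rcases hp with h | h | h
        · have e : A v = Real.log (Ideal.absNorm v.asIdeal) := by rw [hA]; exact if_pos h
          linarith
        · have e : B v = Real.log (Ideal.absNorm v.asIdeal) := by rw [hB]; exact if_pos h
          linarith
        · have e : C v = Real.log (Ideal.absNorm v.asIdeal) := by rw [hC]; exact if_pos h
          linarith
      · have k0 := hA0 v
        have k1 := hB0 v
        have k2 := hC0 v
        linarith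
  rw [eS] at hle
  linarith

/-- the elements of `K` with small truncated counting function -/
def JAll (K : Type) [Field K] [NumberField K] (X : ℝ) : Set K :=
  {j | j ≠ 0 ∧ j ≠ 1728 ∧ jcnt j ≤ Real.log X}

theorem jall_sub (X : ℝ) : GVal K ∅ (jP K) X = JAll K X := by
  ext j
  constructor
  · rintro ⟨h1, h2⟩
    have h0 : j ≠ 0 := by
      rintro rfl
      apply h1 0
      simp [jP, form]
    have h17 : j ≠ 1728 := by
      rintro rfl
      apply h1 1
      simp [jP, form]
    exact ⟨h0, h17, by rw [jcnt_eq h0 h17]; exact h2⟩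
  · rintro ⟨h0, h17, h⟩
    exact ⟨jP_ne h0 h17, by rw [← jcnt_eq h0 h17]; exact h⟩

theorem j_all (K : Type) [Field K] [NumberField K] (δ : ℝ) (hδ : 0 < δ) :
    ∃ C : ℝ, ∀ X : ℝ, 1 ≤ X → (JAll K X).Finite ∧
      ((JAll K X).ncard : ℝ) ≤ C * X ^ (2 / 3 + δ) := by
  obtain ⟨C, h⟩ := g_all K (q := 3) le_rfl ∅ Set.finite_empty (jP K) jP_form δ hδ
  refine ⟨C, fun X hX => ?_⟩
  have := h X hX
  rw [jall_sub] at this
  exact_mod_cast this

theorem j_low (K : Type) [Field K] [NumberField K] (δ : ℝ) (hδ : 0 < δ) :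
    ∃ X₀ : ℝ, 1 ≤ X₀ ∧ ∀ X : ℝ, X₀ ≤ X → X ^ (2 / 3 - δ) ≤ ((JAll K X).ncard : ℝ) := by
  obtain ⟨X₀, hX₀, h⟩ := g_low K (q := 3) le_rfl ∅ Set.finite_empty (jP K) jP_form δ hδ
  refine ⟨X₀, hX₀, fun X hX => ?_⟩
  have := h X hX
  rw [jall_sub] at this
  exact_mod_cast this

/-- **for almost all `j`, the sum of `log N(v)` over the poles is at least `(1 - κ) h(j)`** -/
theorem j_exc (K : Type) [Field K] [NumberField K] {κ : ℝ} (hκ : 0 < κ) (C₁ : ℝ) :
    ∃ ν C : ℝ, 0 < ν ∧ ν ≤ 1 / 3 ∧ 0 < C ∧ ∃ E : Set K,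
      (∀ X : ℝ, 1 ≤ X → (E ∩ JAll K X).Finite ∧
        (((E ∩ JAll K X)).ncard : ℝ) ≤ C * X ^ (2 / 3 - ν)) ∧
      ∀ j : K, j ≠ 0 → j ≠ 1728 → j ∉ E →
        (1 - κ) * Height.logHeight₁ j + C₁ ≤ jbad j := by
  obtain ⟨C₀, hC₀⟩ : ∃ C₀ : ℝ, C₀ = Height.logHeight₁ (1728 : K) +
      Height.totalWeight K * Real.log 2 := ⟨_, rfl⟩
  obtain ⟨ν, C, hν, hν3, hC, h⟩ := g_exc K (q := 3) le_rfl ∅ Set.finite_empty (jP K) jP_form hκ
    (-(C₀ + C₁))
  refine ⟨ν, C, hν, by exact_mod_cast hν3, hC, {j | counting ∅ (jP K) ![j, 1] + (-(C₀ + C₁)) <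
    (((3 : ℕ) : ℝ) - κ) * Height.logHeight₁ j}, fun X hX => ?_, fun j h0 h1 hj => ?_⟩
  · have hsub : {j : K | counting ∅ (jP K) ![j, 1] + (-(C₀ + C₁)) <
        (((3 : ℕ) : ℝ) - κ) * Height.logHeight₁ j} ∩ JAll K X ⊆
        GExc K ∅ (jP K) κ (-(C₀ + C₁)) X := by
      rintro j ⟨hj, h0, h1, hc⟩
      refine ⟨jP_ne h0 h1, ?_, hj⟩
      rw [← jcnt_eq h0 h1]
      exact hc
    obtain ⟨h1, h2⟩ := h X hX
    refine ⟨h1.subset hsub, le_trans ?_ (h2.trans_eq (by norm_num))⟩
    exact_mod_cast Set.ncard_le_ncard hsub h1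
  · have h2 := jcnt_le h0 h1
    have h3 : Height.logHeight₁ (j - 1728) ≤ Height.logHeight₁ j + C₀ := by
      rw [hC₀]
      have := Height.logHeight₁_sub_le j (1728 : K)
      linarith
    rw [Set.mem_ofPred_eq, not_lt, ← jcnt_eq h0 h1] at hj
    push_cast at hj
    linarith

end Pool.Agent.Y728.AK
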