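import Pool.Agent.Y728.AK.GBL

/-!
# The height of a quotient by an `E`-th power (helper728)
-/

set_option autoImplicit false

namespace Pool.Agent.Y728.AK

open Finset NumberField IsDedekindDomain Height Pool.Agent.H691R3 Pool.Agent.TH876.Loc
open Pool.Agent.TH876.KR (log_Nv_pos' side aw qt qt_ne lg_qt df_eq_zero side_sum side_sub
  side_uniq mem_sp_iff)

variable {K : Type} [Field K] [NumberField K] {h : ℕ} {C : ℝ} {g : Pr K → 𝓞 K}

theorem mu_subset {T V : Finset (Pr K)} (hTV : T ⊆ V) {n : Pr K → ℤ}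
    (h0 : ∀ v ∈ V, v ∉ T → n v = 0) : mu g V n = mu g T n := by
  unfold mu
  symm
  refine Finset.prod_subset hTV fun v hv hvT => ?_
  rw [h0 v hv hvT, zpow_zero]

theorem mu_congr {V : Finset (Pr K)} {n n' : Pr K → ℤ} (h0 : ∀ v ∈ V, n v = n' v) :
    mu g V n = mu g V n' :=
  Finset.prod_congr rfl fun v hv => by rw [h0 v hv]

theorem GB.mu_div (G : GB K h C g) (V : Finset (Pr K)) (n n' : Pr K → ℤ) :
    mu g V n / mu g V n' = mu g V (fun v => n v - n' v) := by
  unfold mu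
  rw [← Finset.prod_div_distrib]
  exact Finset.prod_congr rfl fun v _ => by rw [zpow_sub₀ (G.g_ne v)]

theorem sum_mult : ∑ w : InfinitePlace K, (w.mult : ℝ) = Module.finrank ℚ K := by
  rw [← InfinitePlace.sum_mult_eq (K := K)]
  push_cast
  rfl

/-- the product formula -/
theorem prod_formula {z : K} (hz : z ≠ 0) (V : Finset (Pr K)) (hV : ∀ v, v ∉ V → fv v z = 1) :
    ∑ w : InfinitePlace K, (w.mult : ℝ) * Real.log (w z) + ∑ v ∈ V, Real.log (fv v z) = 0 := by
  have h1 := sum_lg hz hV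
  rw [sum_Spl] at h1
  rw [← h1]
  congr 1
  refine Finset.sum_congr rfl fun v _ => ?_
  show _ = 1 * Real.log (fv v z)
  rw [one_mul]

/-- **the height of `z ^ h / μ ^ E`** -/
theorem GB.height_quot (G : GB K h C g) {z : K} (hz : z ≠ 0) (V : Finset (Pr K))
    (hV : ∀ v, v ∉ V → fv v z = 1) (n : Pr K → ℤ) (E : ℕ) :
    logHeight₁ (z ^ h / mu g V n ^ E) ≤
      2 * h * (∑ v ∈ V, |Real.log (fv v z) + E * n v * Real.log (Nv v)| +
        ∑ w : InfinitePlace K, (w.mult : ℝ) * |Real.log (w z)|) +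
      E * (Module.finrank ℚ K * C * ∑ v ∈ V, |(n v : ℝ)|) := by
  have hmu := G.mu_ne V n
  have hne : z ^ h / mu g V n ^ E ≠ 0 := div_ne_zero (pow_ne_zero _ hz) (pow_ne_zero _ hmu)
  have h1 := height_le_sum hne V (fun v hv => by
    rw [map_div₀, map_pow, map_pow, hV v hv, G.fv_mu_out V n hv, one_pow, one_pow, div_one])
  refine h1.trans ?_
  have hh : (0 : ℝ) ≤ h := Nat.cast_nonneg _
  have hE : (0 : ℝ) ≤ E := Nat.cast_nonneg _
  have hd : (0 : ℝ) < Module.finrank ℚ K := by exact_mod_cast Module.finrank_pos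
  have hC : 0 ≤ C := le_trans zero_le_one G.C1
  obtain ⟨A1, hA1⟩ : ∃ A1, A1 = ∑ v ∈ V, |Real.log (fv v z) + E * n v * Real.log (Nv v)| :=
    ⟨_, rfl⟩
  obtain ⟨A2, hA2⟩ : ∃ A2, A2 = ∑ w : InfinitePlace K, (w.mult : ℝ) * |Real.log (w z)| := ⟨_, rfl⟩
  obtain ⟨A3, hA3⟩ : ∃ A3, A3 = ∑ v ∈ V, |(n v : ℝ)| := ⟨_, rfl⟩
  obtain ⟨A4, hA4⟩ : ∃ A4, A4 = ∑ v ∈ V, n v * Real.log (Nv v) := ⟨_, rfl⟩
  rw [← hA1, ← hA2, ← hA3]
  -- the finite part
  have h2 : ∑ v ∈ V, |Real.log (fv v (z ^ h / mu g V n ^ E))| = h * A1 := by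
    rw [hA1, Finset.mul_sum]
    refine Finset.sum_congr rfl fun v hv => ?_
    rw [map_div₀, map_pow, map_pow, Real.log_div (pow_ne_zero _ ((fv v).ne_zero hz))
      (pow_ne_zero _ ((fv v).ne_zero hmu)), Real.log_pow, Real.log_pow, G.fv_mu V n hv]
    have e : (h : ℝ) * Real.log (fv v z) - E * -(h * n v * Real.log (Nv v)) =
        h * (Real.log (fv v z) + E * n v * Real.log (Nv v)) := by ring
    rw [e, abs_mul, abs_of_nonneg hh]
  -- the infinite part
  have h3 : ∀ w : InfinitePlace K, |Real.log (w (z ^ h / mu g V n ^ E))| ≤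
      h * |Real.log (w z)| + E * (h / (Module.finrank ℚ K : ℝ) * |A4| + C * A3) := by
    intro w
    have hwz : w z ≠ 0 := (InfinitePlace.pos_iff.2 hz).ne'
    have hwm : w (mu g V n) ≠ 0 := (InfinitePlace.pos_iff.2 hmu).ne'
    rw [map_div₀, map_pow, map_pow, Real.log_div (pow_ne_zero _ hwz) (pow_ne_zero _ hwm),
      Real.log_pow, Real.log_pow]
    refine (abs_sub _ _).trans ?_
    rw [abs_mul, abs_mul, abs_of_nonneg hh, abs_of_nonneg hE]
    refine add_le_add le_rfl (mul_le_mul_of_nonneg_left ?_ hE)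
    have h4 := G.inf_mu V n w
    rw [← hA4, ← hA3] at h4
    have h5 : |Real.log (w (mu g V n))| ≤ |h / (Module.finrank ℚ K : ℝ) * A4| +
        |Real.log (w (mu g V n)) - h / (Module.finrank ℚ K : ℝ) * A4| := by
      have := abs_add_le (h / (Module.finrank ℚ K : ℝ) * A4)
        (Real.log (w (mu g V n)) - h / (Module.finrank ℚ K : ℝ) * A4)
      rwa [add_sub_cancel] at this
    rw [abs_mul, abs_of_nonneg (div_nonneg hh hd.le)] at h5
    linarith
  have h4 : ∑ w : InfinitePlace K, (w.mult : ℝ) * |Real.log (w (z ^ h / mu g V n ^ E))| ≤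
      h * A2 + E * (h * |A4| + Module.finrank ℚ K * C * A3) := by
    calc _ ≤ ∑ w : InfinitePlace K, (w.mult : ℝ) * (h * |Real.log (w z)| +
          E * (h / (Module.finrank ℚ K : ℝ) * |A4| + C * A3)) :=
          Finset.sum_le_sum fun w _ => mul_le_mul_of_nonneg_left (h3 w) (Nat.cast_nonneg _)
      _ = h * A2 + (Module.finrank ℚ K : ℝ) *
          (E * (h / (Module.finrank ℚ K : ℝ) * |A4| + C * A3)) := by
          rw [hA2, ← sum_mult (K := K), Finset.mul_sum, Finset.sum_mul, ← Finset.sum_add_distrib]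
          refine Finset.sum_congr rfl fun w _ => ?_
          ring
      _ = _ := by field_simp
  -- the sum of the exponents
  have h5 : E * |A4| ≤ A1 + A2 := by
    have h6 := prod_formula hz V hV
    have h7 : (E : ℝ) * A4 = ∑ v ∈ V, (Real.log (fv v z) + E * n v * Real.log (Nv v)) +
        ∑ w : InfinitePlace K, (w.mult : ℝ) * Real.log (w z) := by
      rw [Finset.sum_add_distrib, hA4, Finset.mul_sum]
      have : ∑ v ∈ V, (E : ℝ) * n v * Real.log (Nv v) = ∑ v ∈ V, (E : ℝ) * (n v * Real.log (Nv v)) :=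
        Finset.sum_congr rfl fun v _ => by ring
      rw [this]
      linarith
    have h8 : E * |A4| = |(E : ℝ) * A4| := by rw [abs_mul, abs_of_nonneg hE]
    rw [h8, h7]
    refine (abs_add_le _ _).trans (add_le_add ?_ ?_)
    · rw [hA1]; exact Finset.abs_sum_le_sum_abs _ _
    · rw [hA2]
      refine (Finset.abs_sum_le_sum_abs _ _).trans (Finset.sum_le_sum fun w _ => ?_)
      rw [abs_mul, abs_of_nonneg (Nat.cast_nonneg _)]
  rw [h2]
  have h6 := mul_le_mul_of_nonneg_left h5 hh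
  have e : (h : ℝ) * A2 + E * (h * |A4| + Module.finrank ℚ K * C * A3) =
      h * A2 + h * (E * |A4|) + E * (Module.finrank ℚ K * C * A3) := by ring
  rw [e] at h4
  linarith

/-- the logarithms of `qt` at the infinite places -/
theorem inf_qt {x : K} (hx : Pt x) (B C' : Fin 3) :
    ∑ w : InfinitePlace K, (w.mult : ℝ) * |Real.log (w (qt B C' x))| ≤ aw B x + aw C' x := by
  unfold aw
  rw [← Finset.sum_add_distrib]
  refine Finset.sum_le_sum fun w _ => ?_
  have h1 := lg_qt hx B C' (Sum.inl w : Pl K)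
  have h2 : (w.mult : ℝ) * |Real.log (w (qt B C' x))| = |lg (Sum.inl w : Pl K) (qt B C' x)| := by
    unfold lg
    show _ = |(w.mult : ℝ) * Real.log (w (qt B C' x))|
    rw [abs_mul, abs_of_nonneg (Nat.cast_nonneg w.mult : (0 : ℝ) ≤ (w.mult : ℝ))]
  rw [h2, h1]
  have h3 := df_nonneg (Sum.inl w : Pl K) B hx
  have h4 := df_nonneg (Sum.inl w : Pl K) C' hx
  rw [abs_le]
  constructor <;> linarith

theorem fv_qt {x : K} (hx : Pt x) (B C' : Fin 3) (v : Pr K) :
    Real.log (fv v (qt B C' x)) = df (Sum.inr v : Pl K) C' x - df (Sum.inr v : Pl K) B x := by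
  have h1 := lg_qt hx B C' (Sum.inr v : Pl K)
  rw [← h1]
  unfold lg
  show _ = 1 * Real.log (fv v (qt B C' x))
  rw [one_mul]

theorem fv_qt_out {x : K} (hx : Pt x) (B C' : Fin 3) {v : Pr K} (hB : v ∉ side B x)
    (hC : v ∉ side C' x) : fv v (qt B C' x) = 1 := by
  have h1 := fv_qt hx B C' v
  rw [df_eq_zero hx hB, df_eq_zero hx hC, sub_zero] at h1
  have h2 : 0 < fv v (qt B C' x) := (fv v).pos (qt_ne hx B C')
  exact Real.eq_one_of_pos_of_log_eq_zero h2 h1

/-- the quotient of a point: height of `y ^ h / μ ^ E` -/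
theorem GB.height_point (G : GB K h C g) {x : K} (hx : Pt x) (B C' : Fin 3) (V : Finset (Pr K))
    (hB : side B x ⊆ V) (hC : side C' x ⊆ V) (n : Pr K → ℤ) (E : ℕ) :
    logHeight₁ (qt B C' x ^ h / mu g V n ^ E) ≤
      2 * h * (∑ v ∈ V, |df (Sum.inr v : Pl K) B x - df (Sum.inr v : Pl K) C' x -
        E * n v * Real.log (Nv v)| + (aw B x + aw C' x)) +
      E * (Module.finrank ℚ K * C * ∑ v ∈ V, |(n v : ℝ)|) := by
  refine (G.height_quot (qt_ne hx B C') V
    (fun v hv => fv_qt_out hx B C' (fun h' => hv (hB h')) (fun h' => hv (hC h'))) n E).trans ?_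
  have h1 := inf_qt hx B C'
  have h2 : ∑ v ∈ V, |Real.log (fv v (qt B C' x)) + E * n v * Real.log (Nv v)| =
      ∑ v ∈ V, |df (Sum.inr v : Pl K) B x - df (Sum.inr v : Pl K) C' x -
        E * n v * Real.log (Nv v)| := by
    refine Finset.sum_congr rfl fun v _ => ?_
    rw [fv_qt hx, ← abs_neg]
    congr 1
    ring
  rw [h2]
  have hh : (0 : ℝ) ≤ 2 * h := by positivity
  have h3 := mul_le_mul_of_nonneg_left (add_le_add (le_refl (∑ v ∈ V,
    |df (Sum.inr v : Pl K) B x - df (Sum.inr v : Pl K) C' x - E * n v * Real.log (Nv v)|)) h1) hh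
  linarith

end Pool.Agent.Y728.AK
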