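import Pool.Agent.Y728.AK.Def

/-!
# Points without cheap sets of prescribed primes (helper728)
-/

set_option autoImplicit false

namespace Pool.Agent.Y728.AK

open Finset NumberField IsDedekindDomain Pool.Agent.H691R3 Pool.Agent.TH876.Loc
open Pool.Agent.TH876.KR (side rr aw Light InP ChoG cho_max cho_part cho_one rr_nonneg rr_sum
  side_sub log_nn log_Nv_pos' mem_sp_iff aw_nonneg)

variable {K : Type} [Field K] [NumberField K]

/-- no set of prescribed primes of norm at most `exp (c L)` -/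
def NC (k : ℕ) (c L : ℝ) (x : K) : Prop :=
  ∀ S : Finset (Pr K), ChoG k S x → c * L < ∑ v ∈ S, Real.log (Nv v)

/-- the largest prime of a side, as a function -/
theorem exists_max (x : K) : ∃ P : Fin 3 → ℝ, ∀ A : Fin 3, 0 ≤ P A ∧
    (∀ v ∈ side A x, Real.log (Nv v) ≤ P A) ∧ (side A x = ∅ → P A = 0) ∧
    (side A x ≠ ∅ → ∃ v ∈ side A x, P A = Real.log (Nv v)) := by
  choose P hP using fun A : Fin 3 => cho_max A x
  exact ⟨P, hP⟩

/-- the six inequalities -/
theorem six {k : ℕ} (hk : 2 ≤ k) {c L : ℝ} {x : K} (hx : Pt x) (h0 : 0 < hgt x)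
    (hnc : NC k c L x) {P : Fin 3 → ℝ} (hP : ∀ A : Fin 3, 0 ≤ P A ∧
    (∀ v ∈ side A x, Real.log (Nv v) ≤ P A) ∧ (side A x = ∅ → P A = 0) ∧
    (side A x ≠ ∅ → ∃ v ∈ side A x, P A = Real.log (Nv v))) {A B C : Fin 3}
    (hAB : A ≠ B) (hBC : B ≠ C) (hAC : A ≠ C) :
    c * L < rr B x - P B + rr C x + P A + 2 / k * rr A x := by
  obtain ⟨Q, hQ, hQw, hQc⟩ := cho_part hk hx h0 A (hP A).1 (hP A).2.1
  obtain ⟨S, hS, hSc⟩ := cho_one hk hx h0 hAB hBC hAC (hP B).2.2.1 (hP B).2.2.2 hQ hQw hQc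
  exact lt_of_lt_of_le (hnc S hS) hSc

/-- the radicals of the sides are nearly equal, as well as the largest primes -/
theorem nc_equal {k : ℕ} (hk : 2 ≤ k) {δ L τ : ℝ} (hδ : 0 < δ) (hL : 0 < L)
    (hτ : 20 * δ + 20 / k ≤ τ) {x : K} (hx : Pt x) (h0 : 0 < hgt x)
    (hnc : NC k (2 / 3 - δ) L x) (hr : ∑ v ∈ sp x, Real.log (Nv v) ≤ L)
    {P : Fin 3 → ℝ} (hP : ∀ A : Fin 3, 0 ≤ P A ∧
    (∀ v ∈ side A x, Real.log (Nv v) ≤ P A) ∧ (side A x = ∅ → P A = 0) ∧
    (side A x ≠ ∅ → ∃ v ∈ side A x, P A = Real.log (Nv v))) :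
    (∀ i, (1 / 3 - τ) * L ≤ rr i x ∧ rr i x ≤ (1 / 3 + τ) * L) ∧
      ∀ i j, |P i - P j| ≤ τ * L := by
  have s01 := six hk hx h0 hnc hP (A := 0) (B := 1) (C := 2) (by decide) (by decide) (by decide)
  have s02 := six hk hx h0 hnc hP (A := 0) (B := 2) (C := 1) (by decide) (by decide) (by decide)
  have s10 := six hk hx h0 hnc hP (A := 1) (B := 0) (C := 2) (by decide) (by decide) (by decide)
  have s12 := six hk hx h0 hnc hP (A := 1) (B := 2) (C := 0) (by decide) (by decide) (by decide)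
  have s20 := six hk hx h0 hnc hP (A := 2) (B := 0) (C := 1) (by decide) (by decide) (by decide)
  have s21 := six hk hx h0 hnc hP (A := 2) (B := 1) (C := 0) (by decide) (by decide) (by decide)
  rw [← rr_sum hx] at hr
  have r0 := rr_nonneg 0 x
  have r1 := rr_nonneg 1 x
  have r2 := rr_nonneg 2 x
  obtain ⟨u, hu⟩ : ∃ u : ℝ, u = 1 / (k : ℝ) := ⟨_, rfl⟩
  have hk2 : (2 : ℝ) ≤ k := by exact_mod_cast hk
  have hu0 : 0 < u := by rw [hu]; positivity
  have e2 : (2 : ℝ) / k = 2 * u := by rw [hu]; ring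
  have e20 : (20 : ℝ) / k = 20 * u := by rw [hu]; ring
  rw [e2] at s01 s02 s10 s12 s20 s21
  rw [e20] at hτ
  -- products with `L`
  have huL0 : 0 ≤ u * rr 0 x := mul_nonneg hu0.le r0
  have huL1 : 0 ≤ u * rr 1 x := mul_nonneg hu0.le r1
  have huL2 : 0 ≤ u * rr 2 x := mul_nonneg hu0.le r2
  have huL : u * rr 0 x + u * rr 1 x + u * rr 2 x ≤ u * L := by
    have := mul_le_mul_of_nonneg_left hr hu0.le
    linarith
  have hδL : 0 < δ * L := mul_pos hδ hL
  have huLL : 0 < u * L := mul_pos hu0 hL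
  have hτL : 20 * (δ * L) + 20 * (u * L) ≤ τ * L := by
    have := mul_le_mul_of_nonneg_right hτ hL.le
    linarith
  have ec : (2 / 3 - δ) * L = 2 / 3 * L - δ * L := by ring
  rw [ec] at s01 s02 s10 s12 s20 s21
  have e3 : (1 / 3 - τ) * L = 1 / 3 * L - τ * L := by ring
  have e4 : (1 / 3 + τ) * L = 1 / 3 * L + τ * L := by ring
  rw [e3, e4]
  have d12 : |P 1 - P 2| ≤ τ * L := by rw [abs_le]; constructor <;> linarith
  have d02 : |P 0 - P 2| ≤ τ * L := by rw [abs_le]; constructor <;> linarith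
  have d01 : |P 0 - P 1| ≤ τ * L := by rw [abs_le]; constructor <;> linarith
  have hτ0 : 0 ≤ τ * L := by linarith
  refine ⟨fun i => ?_, fun i j => ?_⟩
  · fin_cases i
    · show _ ≤ rr 0 x ∧ rr 0 x ≤ _
      constructor <;> linarith
    · show _ ≤ rr 1 x ∧ rr 1 x ≤ _
      constructor <;> linarith
    · show _ ≤ rr 2 x ∧ rr 2 x ≤ _
      constructor <;> linarith
  · fin_cases i <;> fin_cases j
    · show |P 0 - P 0| ≤ _
      rw [sub_self, abs_zero]; exact hτ0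
    · exact d01
    · exact d02
    · show |P 1 - P 0| ≤ _
      rw [abs_sub_comm]; exact d01
    · show |P 1 - P 1| ≤ _
      rw [sub_self, abs_zero]; exact hτ0
    · exact d12
    · show |P 2 - P 0| ≤ _
      rw [abs_sub_comm]; exact d02
    · show |P 2 - P 1| ≤ _
      rw [abs_sub_comm]; exact d12
    · show |P 2 - P 2| ≤ _
      rw [sub_self, abs_zero]; exact hτ0

/-- light sets of primes have small radical -/
theorem nc_light {k : ℕ} {δ κ L : ℝ} (hκ : 1 / (k : ℝ) ≤ κ) {x : K} (hx : Pt x)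
    (hnc : NC k (2 / 3 - δ) L x) (hr : ∑ v ∈ sp x, Real.log (Nv v) ≤ L)
    {D : Finset (Pr K)} (hD : D ⊆ sp x)
    (hw : ∑ v ∈ D, gd (Sum.inr v : Pl K) x ≤ (1 - κ) * hgt x) :
    ∑ v ∈ D, Real.log (Nv v) ≤ (1 / 3 + δ) * L := by
  classical
  have h1 : Light k (sp x \ D) x := by
    unfold Light out
    rw [Finset.sdiff_sdiff_eq_self hD]
    refine hw.trans (mul_le_mul_of_nonneg_right (by linarith) (hgt_nonneg x))
  have h2 := hnc _ (Or.inl h1)
  have h3 := Finset.sum_sdiff hD (f := fun v : Pr K => Real.log (Nv v))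
  have e : (1 / 3 + δ) * L = L - (2 / 3 - δ) * L := by ring
  rw [e]
  linarith

open Classical in
/-- when there is a large prime, the small primes carry little -/
theorem nc_heavy {k : ℕ} (hk : 2 ≤ k) {δ L τ θ θ' κ : ℝ} (hδ : 0 < δ) (hL : 0 < L)
    (hτ : 20 * δ + 20 / k ≤ τ) (hθ' : 0 ≤ θ') (hκ : 0 < κ) (hkκ : 2 / (k : ℝ) ≤ κ)
    (hnum : 4 * τ + 4 / (k * κ) + θ' ≤ θ) {x : K} (hx : Pt x) (h0 : 0 < hgt x)
    (hnc : NC k (2 / 3 - δ) L x) (hr : ∑ v ∈ sp x, Real.log (Nv v) ≤ L)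
    {v0 : Pr K} (hv0 : v0 ∈ sp x) (hv0L : θ * L < Real.log (Nv v0)) (A : Fin 3) :
    aw A x + ∑ v ∈ (side A x).filter (fun v => Real.log (Nv v) ≤ θ' * L),
      df (Sum.inr v : Pl K) A x ≤ κ * hgt x := by
  obtain ⟨P, hP⟩ := exists_max x
  obtain ⟨heq, hPP⟩ := nc_equal hk hδ hL hτ hx h0 hnc hr hP
  obtain ⟨j, hj⟩ := (mem_sp_iff hx v0).1 hv0
  have hPj : θ * L < P j := lt_of_lt_of_le hv0L ((hP j).2.1 v0 hj)
  have hPi : ∀ i, (θ - τ) * L < P i := by
    intro i
    have h1 := (abs_le.1 (hPP i j)).1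
    have : (θ - τ) * L = θ * L - τ * L := by ring
    rw [this]
    linarith
  by_contra hcon
  rw [not_le] at hcon
  have hk2 : (2 : ℝ) ≤ k := by exact_mod_cast hk
  have hk0 : (0 : ℝ) < k := by linarith
  -- a small set of small primes
  obtain ⟨R, hR⟩ : ∃ R, R = (side A x).filter (fun v => Real.log (Nv v) ≤ θ' * L) := ⟨_, rfl⟩
  rw [← hR] at hcon
  have hRs : R ⊆ side A x := by rw [hR]; exact Finset.filter_subset _ _
  have hrR : ∑ v ∈ R, Real.log (Nv v) ≤ rr A x :=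
    Finset.sum_le_sum_of_subset_of_nonneg hRs fun v _ _ => (log_Nv_pos' v).le
  have hkH : hgt x / k ≤ κ * hgt x / 2 := by
    have h1 := mul_le_mul_of_nonneg_right hkκ h0.le
    have : 2 / (k : ℝ) * hgt x = 2 * (hgt x / k) := by ring
    rw [this] at h1
    linarith
  obtain ⟨Q, hQ, hQw, hQc⟩ : ∃ Q ⊆ side A x,
      hgt x / k ≤ aw A x + ∑ v ∈ Q, df (Sum.inr v : Pl K) A x ∧
      ∑ v ∈ Q, Real.log (Nv v) ≤ θ' * L + 2 / (k * κ) * L := by
    rcases le_or_gt (hgt x / k) (aw A x) with h | h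
    · refine ⟨∅, Finset.empty_subset _, ?_, ?_⟩
      · rw [Finset.sum_empty, add_zero]; exact h
      · rw [Finset.sum_empty]; positivity
    · obtain ⟨W, hW⟩ : ∃ W : ℝ, W = ∑ v ∈ R, df (Sum.inr v : Pl K) A x := ⟨_, rfl⟩
      rw [← hW] at hcon
      have hW2 : κ * hgt x / 2 ≤ W := by linarith
      have hκH : 0 < κ * hgt x := mul_pos hκ h0
      have hW0 : 0 < W := by linarith
      have hrW : 0 ≤ ∑ v ∈ R, Real.log (Nv v) := Finset.sum_nonneg fun v _ => (log_Nv_pos' v).le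
      obtain ⟨Q, hQ, h3, h4⟩ := Pool.Agent.TH867.SR.greedy
        (fun v : Pr K => df (Sum.inr v : Pl K) A x) (fun v : Pr K => Real.log (Nv v))
        (κ := hgt x / k) (ρ := (∑ v ∈ R, Real.log (Nv v)) / W) (M := θ' * L) (by positivity)
        (div_nonneg hrW hW0.le) (by positivity) R
        (fun v hv => by rw [hR, Finset.mem_filter] at hv; exact hv.2) (by
          show ∑ v ∈ R, Real.log (Nv v) ≤ (∑ v ∈ R, Real.log (Nv v)) / W *
            ∑ v ∈ R, df (Sum.inr v : Pl K) A x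
          rw [← hW, div_mul_cancel₀ _ hW0.ne']) (by rw [← hW]; exact hkH.trans hW2)
      refine ⟨Q, hQ.trans hRs, ?_, ?_⟩
      · linarith [aw_nonneg hx A]
      · have h5 : (∑ v ∈ R, Real.log (Nv v)) / W * (hgt x / k) ≤ 2 / (k * κ) * L := by
          have h7 : (∑ v ∈ R, Real.log (Nv v)) / W * (hgt x / k) =
              (∑ v ∈ R, Real.log (Nv v)) / k * (hgt x / W) := by ring
          have h8 : hgt x / W ≤ 2 / κ := by
            rw [div_le_div_iff₀ hW0 hκ]
            linarith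
          have h9 : ∑ v ∈ R, Real.log (Nv v) ≤ L := by
            refine hrR.trans (le_trans ?_ hr)
            exact Finset.sum_le_sum_of_subset_of_nonneg (side_sub A x)
              fun v _ _ => (log_Nv_pos' v).le
          rw [h7]
          calc (∑ v ∈ R, Real.log (Nv v)) / k * (hgt x / W) ≤ L / k * (2 / κ) := by
                apply mul_le_mul _ h8 (by positivity) (by positivity)
                exact div_le_div_of_nonneg_right h9 hk0.le
            _ = 2 / (k * κ) * L := by field_simp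
        linarith
  -- the two other sides
  obtain ⟨B, C, hAB, hBC, hAC⟩ : ∃ B C : Fin 3, A ≠ B ∧ B ≠ C ∧ A ≠ C := by
    fin_cases A
    · exact ⟨1, 2, by decide, by decide, by decide⟩
    · exact ⟨0, 2, by decide, by decide, by decide⟩
    · exact ⟨0, 1, by decide, by decide, by decide⟩
  have hrA := rr_nonneg A x
  have h2k : 0 ≤ 2 / (k : ℝ) * rr A x := by positivity
  obtain ⟨S, hS, hSc⟩ := cho_one hk hx h0 hAB hBC hAC (hP B).2.2.1 (hP B).2.2.2 hQ hQw
    (PA := θ' * L + 2 / (k * κ) * L) (by linarith)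
  have h1 := hnc S hS
  have hB := (heq B).2
  have hC := (heq C).2
  have hA := (heq A).2
  have hPB := hPi B
  obtain ⟨u, hu⟩ : ∃ u : ℝ, u = 1 / (k : ℝ) := ⟨_, rfl⟩
  have hu0 : 0 < u := by rw [hu]; positivity
  have e2 : (2 : ℝ) / k = 2 * u := by rw [hu]; ring
  have e20 : (20 : ℝ) / k = 20 * u := by rw [hu]; ring
  obtain ⟨w, hw⟩ : ∃ w : ℝ, w = 1 / ((k : ℝ) * κ) := ⟨_, rfl⟩
  have hw0 : 0 < w := by rw [hw]; positivity
  have ew2 : 2 / ((k : ℝ) * κ) = 2 * w := by rw [hw]; ring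
  have ew4 : 4 / ((k : ℝ) * κ) = 4 * w := by rw [hw]; ring
  rw [e20] at hτ
  rw [ew4] at hnum
  rw [e2, ew2] at hSc
  have hrAL : rr A x ≤ L := by
    refine le_trans ?_ hr
    exact Finset.sum_le_sum_of_subset_of_nonneg (side_sub A x) fun v _ _ => (log_Nv_pos' v).le
  have g1 : u * rr A x ≤ u * L := mul_le_mul_of_nonneg_left hrAL hu0.le
  have g2 := mul_le_mul_of_nonneg_right hτ hL.le
  have g3 := mul_le_mul_of_nonneg_right hnum hL.le
  have g4 : 0 < δ * L := mul_pos hδ hL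
  have g5 : 0 < u * L := mul_pos hu0 hL
  have g6 : 0 < w * L := mul_pos hw0 hL
  nlinarith only [h1, hSc, hB, hC, hPB, g1, g2, g3, g4, g5, g6]

end Pool.Agent.Y728.AK
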