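import Mathlib
import Pool.Agent.W223.AC.Split
import Pool.Agent.W756.AC.LOCP
import Pool.Agent.Y729.RV.Crv
import Pool.Agent.Y729.RV.Rank
import Pool.Agent.W976.AC.EX
import Pool.Agent.W460.AC.NORM
import Pool.Agent.W597.AC.LOC
import Pool.Agent.W193.AC.FINQ
import Pool.Agent.W398.AC.DIM
import Pool.Agent.W131.AC.GROW
import Pool.Agent.W989.AC.MULT
import Pool.Agent.W410.AC.HTG
import Pool.Agent.W803.AC.SUMN
import Pool.Agent.W223.AC.SUMP

/-!
# Proximity functions of the fibres of a curve over a number field (helper728)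
-/

set_option autoImplicit false

namespace Pool.Agent.Y728.AK.PX

open Polynomial IsDedekindDomain NumberField
open Pool.Agent.W223.AC Pool.Agent.W223.CV
open Pool.Agent.W125.CV (fv fv_int)
open Pool.Agent.W756.AC (Q Q_zero Q_gen Q_add Q_mul fv_add fv_nat w_add w_nat)

/-- values of an algebraic number at the infinite places -/
theorem inf_bound {A : Type} [CommRing A] (β : A) (hβ : IsIntegral ℤ β) :
    ∃ B : ℝ, 1 ≤ B ∧ ∀ (L : Type) [Field L] [NumberField L] (φ : A →+* L) (w : InfinitePlace L),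
      w (φ β) ≤ B := by
  obtain ⟨p, hp, hp0⟩ := hβ
  refine ⟨(cauchyBound (p.map (Int.castRingHom ℂ)) : ℝ), ?_, ?_⟩
  · exact_mod_cast one_le_cauchyBound (p.map (Int.castRingHom ℂ))
  · intro L _ _ φ w
    have h1 : (p.map (Int.castRingHom ℂ)) ≠ 0 := (hp.map _).ne_zero
    have h2 : (p.map (Int.castRingHom ℂ)).IsRoot (w.embedding (φ β)) := by
      rw [IsRoot.def, eval_map]
      have h3 : (w.embedding.comp φ) (eval₂ (algebraMap ℤ A) β p) = 0 := by
        rw [hp0, map_zero]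
      rw [hom_eval₂] at h3
      have h4 : (w.embedding.comp φ).comp (algebraMap ℤ A) = Int.castRingHom ℂ :=
        RingHom.ext_int _ _
      rw [h4] at h3
      exact h3
    have h3 := IsRoot.norm_lt_cauchyBound h1 h2
    have h4 : ‖w.embedding (φ β)‖ < (cauchyBound (p.map (Int.castRingHom ℂ)) : ℝ) := by
      exact_mod_cast h3
    rw [← InfinitePlace.norm_embedding_eq w]
    exact h4.le

theorem fin_bound {A : Type} [CommRing A] (β : A) (hβ : IsIntegral ℤ β) (L : Type) [Field L]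
    [NumberField L] (φ : A →+* L) (v : HeightOneSpectrum (𝓞 L)) : fv v (φ β) ≤ 1 := by
  have h1 : IsIntegral ℤ (φ β) := by
    have := hβ.map φ.toIntAlgHom
    exact this
  obtain ⟨b, hb⟩ : ∃ b : 𝓞 L, (b : L) = φ β := ⟨⟨φ β, h1⟩, rfl⟩
  rw [← hb, Pool.Agent.W125.CV.fv_eq]
  have h2 := v.valuation_le_one (K := L) b
  have hmono : StrictMono (WithZeroMulInt.toNNReal
      (HeightOneSpectrum.absNorm_ne_zero v)) :=
    WithZeroMulInt.toNNReal_strictMono (HeightOneSpectrum.one_lt_absNorm_nnreal v)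
  have h3 := hmono.monotone h2
  rw [map_one] at h3
  exact_mod_cast h3

theorem Q_bdd {A : Type} [CommRing A] [Algebra ℚ[X] A] [Module.Finite ℚ[X] A] (α : A) (N : ℕ)
    (hN : N ≠ 0) (hα : IsIntegral ℤ ((N : A) * α)) (s : ℕ)
    (z : Fin (s + 1) → A) (hz : z 0 = tt A - α) (c : A) : Q z 0 c := by
  obtain ⟨n', hn', hI⟩ := Pool.Agent.W989.AC.MULT.t A c
  obtain ⟨k, K', hK', H⟩ := Pool.Agent.W131.AC.t A _ hI
  obtain ⟨B, hB1, hB⟩ := inf_bound _ hα
  have hb : (1 : ℝ) ≤ 1 + B := by linarith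
  refine ⟨n' * N ^ k, K' * (1 + B) ^ k, mul_ne_zero hn' (pow_ne_zero _ hN),
    by nlinarith [one_le_pow₀ hb (n := k)], fun L _ _ φ μ h0 h1 => ⟨fun v hv => ?_, fun w hw => ?_⟩⟩
  · have ht : φ (tt A) = φ (z 0) + φ α := by
      rw [hz, map_sub]; ring
    have e1 := (H L φ).1 v
    have e2 : fv v (φ (tt A)) ≤ max 1 (fv v (φ α)) := by
      rw [ht]
      exact (fv_add v _ _).trans (max_le_max_right _ ((hv 0).trans h1))
    have e3 : max (fv v (φ (tt A))) 1 ≤ max 1 (fv v (φ α)) := max_le e2 (le_max_left _ _)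
    have e4 : fv v (φ α) * fv v (N : L) ≤ 1 := by
      rw [← map_mul]
      have h3 : φ α * (N : L) = φ ((N : A) * α) := by
        rw [map_mul, map_natCast, mul_comm]
      rw [h3]
      exact fin_bound _ hα L φ v
    have e5 : max 1 (fv v (φ α)) * fv v (N : L) ≤ 1 := by
      rcases max_cases 1 (fv v (φ α)) with h | h
      · rw [h.1, one_mul]; exact fv_nat v _
      · rw [h.1]; exact e4
    have e6 : 0 ≤ fv v (N : L) := (fv v).nonneg _
    rw [pow_zero, Nat.cast_mul, Nat.cast_pow, map_mul, map_pow, ← mul_assoc, ← map_mul]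
    have e7 : φ c * (n' : L) = φ ((n' : A) * c) := by
      rw [map_mul, map_natCast, mul_comm]
    rw [e7]
    calc fv v (φ ((n' : A) * c)) * fv v (N : L) ^ k
        ≤ max 1 (fv v (φ α)) ^ k * fv v (N : L) ^ k := by
          refine mul_le_mul_of_nonneg_right (e1.trans ?_) (pow_nonneg e6 _)
          exact pow_le_pow_left₀ (le_max_of_le_right zero_le_one) e3 _
      _ = (max 1 (fv v (φ α)) * fv v (N : L)) ^ k := (mul_pow _ _ _).symm
      _ ≤ 1 := pow_le_one₀ (mul_nonneg (le_max_of_le_left zero_le_one) e6) e5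
  · have ht : φ (tt A) = φ (z 0) + φ α := by
      rw [hz, map_sub]; ring
    have e1 := (H L φ).2 w
    have hNα : w (φ α) ≤ B := by
      have h2 := hB L φ w
      rw [map_mul, map_natCast, map_mul, w_nat] at h2
      have h3 : (1 : ℝ) ≤ N := by exact_mod_cast Nat.one_le_iff_ne_zero.2 hN
      have h4 : 0 ≤ w (φ α) := w.1.nonneg _
      nlinarith
    have e2 : w (φ (tt A)) ≤ 1 + B := by
      rw [ht]
      refine (w_add w _ _).trans ?_
      linarith [hw 0]
    have e3 : max (w (φ (tt A))) 1 ≤ 1 + B := max_le e2 hb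
    have e4 : w (φ ((n' : A) * c)) ≤ K' * (1 + B) ^ k := by
      refine e1.trans (mul_le_mul_of_nonneg_left ?_ (by linarith))
      exact pow_le_pow_left₀ (le_max_of_le_right zero_le_one) e3 _
    rw [map_mul, map_natCast, map_mul, w_nat] at e4
    have e5 : (1 : ℝ) ≤ n' := by exact_mod_cast Nat.one_le_iff_ne_zero.2 hn'
    have e6 : 0 ≤ w (φ c) := w.1.nonneg _
    rw [pow_zero, mul_one]
    nlinarith

theorem locp {A : Type} [CommRing A] [Algebra ℚ[X] A] [Module.Finite ℚ[X] A] (α : A) (N : ℕ)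
    (hN : N ≠ 0) (hα : IsIntegral ℤ ((N : A) * α)) (s : ℕ)
    (z : Fin (s + 1) → A) (hz : z 0 = tt A - α) (m : ℕ) :
    ∀ g ∈ Ideal.span (Set.range z) ^ m, Q z m g := by
  have hb : ∀ c : A, Q z 0 c := Q_bdd α N hN hα s z hz
  have hI : ∀ y ∈ Ideal.span (Set.range z), Q z 1 y := by
    intro y hy
    refine Submodule.span_induction ?_ (Q_zero 1) (fun x y _ _ hx hy => Q_add hx hy) ?_ hy
    · rintro _ ⟨i, rfl⟩
      exact Q_gen i
    · intro c y _ hy
      have := Q_mul (hb c) hy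
      rw [zero_add] at this
      exact this
  induction m with
  | zero => intro g _; exact hb g
  | succ m ih =>
    intro g hg
    rw [pow_succ] at hg
    refine Submodule.mul_induction_on hg (fun x hx y hy => ?_) (fun x y hx hy => Q_add hx hy)
    exact Q_mul (ih x hx) (hI y hy)

theorem nbp (A : Type) [CommRing A] [IsDedekindDomain A] [Algebra ℚ A] [Algebra ℚ[X] A]
    [IsScalarTower ℚ ℚ[X] A] [Module.Finite ℚ[X] A] [FaithfulSMul ℚ[X] A]
    (α : A) (N : ℕ) (hN : N ≠ 0) (hα : IsIntegral ℤ ((N : A) * α)) (s : ℕ)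
    (z : Fin (s + 1) → A) (hz : z 0 = tt A - α) (hz1 : z 0 ≠ 0) (ε : ℝ) (hε : 0 < ε) :
    ∃ (C : ℝ) (G : ℚ[X]), 0 ≤ C ∧ G ≠ 0 ∧
      ∀ (L : Type) [Field L] [NumberField L] (φ : A →+* L), aeval (φ (tt A)) G ≠ 0 →
        φ (z 0) ≠ 0 →
        {v : HeightOneSpectrum (𝓞 L) | lamF z φ v ≠ 0}.Finite ∧
        (∑ᶠ v : HeightOneSpectrum (𝓞 L), lamF z φ v) +
          ∑ w : InfinitePlace L, (w.mult : ℝ) * lamI z φ w ≤
          ((Module.finrank ℚ (A ⧸ Ideal.span (Set.range z)) : ℝ) / Module.finrank ℚ[X] A + ε) *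
            Real.log (Height.mulHeight₁ (φ (tt A))) + Module.finrank ℚ L * C := by
  classical
  have hEX := Pool.Agent.W976.AC.EX.t Pool.Agent.W398.AC.DIM.t
      Pool.Agent.W193.AC.FINQ.t Pool.Agent.W989.AC.MULT.t
  have hH := Pool.Agent.W410.AC.t Pool.Agent.W131.AC.t
  have hS := Pool.Agent.W223.AC.SUMP.t
  have hNO := Pool.Agent.W460.AC.t
  obtain ⟨ω, hω, hex⟩ := hEX A
  have hN0 : 0 < Module.finrank ℚ[X] A := by
    have : Module.IsTorsionFree ℚ[X] A := by infer_instance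
    exact Module.finrank_pos
  have hI : Ideal.span (Set.range z) ≠ ⊥ := by
    intro h
    rw [Ideal.span_eq_bot] at h
    exact hz1 (h (z 0) ⟨0, rfl⟩)
  set n := Module.finrank ℚ (A ⧸ Ideal.span (Set.range z)) with hn
  obtain ⟨c, hc⟩ := hH A (Module.finrank ℚ[X] A) ω hω
  obtain ⟨m', hm'⟩ := exists_nat_gt ((c : ℝ) / ε)
  obtain ⟨m, hmd⟩ : ∃ m, m = m' + 1 := ⟨_, rfl⟩
  obtain ⟨D, hDd⟩ : ∃ D, D = m * n / Module.finrank ℚ[X] A := ⟨_, rfl⟩
  have hD : m * n < Module.finrank ℚ[X] A * (D + 1) := by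
    rw [hDd]
    exact Nat.lt_mul_div_succ _ hN0
  obtain ⟨p, hp1, hp2, hp3⟩ := hex _ hI m D hD
  obtain ⟨C, hC0, hC⟩ := hc D p hp1
  obtain ⟨M, K, hM0, hK1, hM⟩ := locp α N hN hα s z hz m _ hp2
  obtain ⟨G, hG0, hG⟩ := hNO A _ hp3
  have hK0 : 0 ≤ Real.log K := Real.log_nonneg hK1
  have hM1 : 0 ≤ Real.log (M : ℝ) := Real.log_natCast_nonneg M
  refine ⟨C + (Real.log K + Real.log M), G, by linarith, hG0, ?_⟩
  intro L _ _ φ hφ hz0
  have hne := hG L φ hφ
  have hm1 : 1 ≤ m := by omega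
  obtain ⟨hf, h1⟩ := hS L _ M m K (fun v => lamF z φ v) (fun w => lamI z φ w) hne hM0 hm1 hK1
    (fun v => lamF_nonneg z φ v)
    (by
      intro v hv
      have h2 := sup_aux (fun i => fv v (φ (z i))) ((fv v).pos hz0) hv
      have h3 := (hM L φ (Real.exp (-(lamF z φ v))) (Real.exp_nonneg _) (by
        rw [Real.exp_le_one_iff]
        linarith [lamF_nonneg z φ v])).1 v h2
      rw [← Real.exp_nat_mul] at h3
      have h4 : (m : ℝ) * -(lamF z φ v) = -(m * lamF z φ v) := by ring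
      rw [h4] at h3
      exact h3)
    (fun w => lamI_nonneg z φ w)
    (by
      intro w hw
      have h2 := sup_aux (fun i => w (φ (z i))) ((InfinitePlace.pos_iff).mpr hz0) hw
      have h3 := (hM L φ (Real.exp (-(lamI z φ w))) (Real.exp_nonneg _) (by
        rw [Real.exp_le_one_iff]
        linarith [lamI_nonneg z φ w])).2 w h2
      rw [← Real.exp_nat_mul] at h3
      have h4 : (m : ℝ) * -(lamI z φ w) = -(m * lamI z φ w) := by ring
      rw [h4] at h3
      exact h3)
  refine ⟨hf, ?_⟩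
  have h2 := hC L φ
  have hm0 : (0 : ℝ) < m := by
    rw [hmd]; positivity
  have hh : 0 ≤ Real.log (Height.mulHeight₁ (φ (tt A))) :=
    Real.log_nonneg (Height.one_le_mulHeight₁ _)
  have hL0 : (0 : ℝ) ≤ Module.finrank ℚ L := Nat.cast_nonneg _
  have h3 : (D : ℝ) ≤ m * n / Module.finrank ℚ[X] A := by
    rw [hDd]
    refine Nat.cast_div_le.trans ?_
    push_cast
    exact le_refl _
  have h4 : (c : ℝ) ≤ ε * m := by
    rw [div_lt_iff₀ hε] at hm'
    have : (m : ℝ) = m' + 1 := by rw [hmd]; push_cast; ring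
    rw [this]
    nlinarith
  have h5 : (D : ℝ) + c ≤ m * ((n : ℝ) / Module.finrank ℚ[X] A + ε) := by
    have : (m : ℝ) * ((n : ℝ) / Module.finrank ℚ[X] A + ε) =
      m * n / Module.finrank ℚ[X] A + ε * m := by ring
    rw [this]
    linarith
  have h6 : ((D : ℝ) + c) * Real.log (Height.mulHeight₁ (φ (tt A))) ≤
      m * ((n : ℝ) / Module.finrank ℚ[X] A + ε) * Real.log (Height.mulHeight₁ (φ (tt A))) :=
    mul_le_mul_of_nonneg_right h5 hh
  have hm1 : (1 : ℝ) ≤ m := by rw [hmd]; push_cast; linarith [Nat.cast_nonneg (α := ℝ) m']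
  have h7 : (Module.finrank ℚ L : ℝ) * (C + (Real.log K + Real.log M)) ≤
      m * (Module.finrank ℚ L * (C + (Real.log K + Real.log M))) := by
    have : 0 ≤ (Module.finrank ℚ L : ℝ) * (C + (Real.log K + Real.log M)) := by positivity
    nlinarith
  refine le_of_mul_le_mul_left ?_ hm0
  rw [mul_add (m : ℝ) (((n : ℝ) / _ + ε) * _) _, ← mul_assoc]
  have h8 : (Module.finrank ℚ L : ℝ) * (C + (Real.log K + Real.log M)) =
    Module.finrank ℚ L * C + Module.finrank ℚ L * (Real.log K + Real.log M) := by ring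
  linarith

attribute [local instance] Polynomial.algebra

/-- a multiple of an element of `K` is integral -/
theorem exists_den (K A : Type) [Field K] [NumberField K] [CommRing A] [Algebra K A] (b : K) :
    ∃ N : ℕ, N ≠ 0 ∧ IsIntegral ℤ ((N : A) * algebraMap K A b) := by
  have h1 : IsAlgebraic ℤ b := by
    rw [IsFractionRing.isAlgebraic_iff ℤ ℚ K]
    exact Algebra.IsAlgebraic.isAlgebraic b
  obtain ⟨x, y, hy, hxy⟩ : ∃ (x : ℤ) (y : K), x ≠ 0 ∧ IsIntegral ℤ y ∧ (x : K) * b = y := by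
    obtain ⟨y, hy0, hy⟩ := h1.exists_integral_multiple
    exact ⟨y, y • b, hy0, hy, by rw [zsmul_eq_mul]⟩
  refine ⟨x.natAbs, Int.natAbs_ne_zero.2 hy, ?_⟩
  have h2 : IsIntegral ℤ (((x.natAbs : ℕ) : K) * b) := by
    rcases Int.natAbs_eq x with h | h
    · have e : ((x.natAbs : ℕ) : K) * b = y := by
        rw [← hxy.2]
        congr 1
        exact (Int.cast_natCast (R := K) x.natAbs).symm.trans (by rw [← h])
      rw [e]; exact hxy.1
    · have e : ((x.natAbs : ℕ) : K) * b = -y := by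
        rw [← hxy.2]
        have : ((x.natAbs : ℤ) : K) = -(x : K) := by
          have h' : (x.natAbs : ℤ) = -x := by omega
          rw [h']; push_cast; ring
        have h3 : ((x.natAbs : ℕ) : K) = -(x : K) :=
          (Int.cast_natCast (R := K) x.natAbs).symm.trans this
        rw [h3]; ring
      rw [e]; exact hxy.1.neg
  have h3 : ((x.natAbs : ℕ) : A) * algebraMap K A b = algebraMap K A (((x.natAbs : ℕ) : K) * b) := by
    rw [map_mul, map_natCast]
  rw [h3]
  exact h2.map (algebraMap K A).toIntAlgHom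

/-- **heights, counting functions and proximity functions on a curve over a number field** -/
theorem proxK (K A : Type) [Field K] [NumberField K] [CommRing A] [IsDedekindDomain A]
    [Algebra K A] [Algebra K[X] A] [IsScalarTower K K[X] A] [Module.Finite K[X] A]
    [FaithfulSMul K[X] A] {q : ℕ} (hq : 1 ≤ q) (a : Fin q → K) (s : Fin q → ℕ)
    (y : ∀ j, Fin (s j + 1) → A)
    (hy0 : ∀ j, y j 0 = algebraMap K[X] A X - algebraMap K A (a j))
    (hyr : ∀ j i, y j i ∈ (Ideal.span {algebraMap K[X] A X - algebraMap K A (a j)}).radical)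
    (ε : ℝ) (hε : 0 < ε) :
    ∃ (M : ℕ) (C : ℝ) (G : ℚ[X]), M ≠ 0 ∧ 0 ≤ C ∧ G ≠ 0 ∧
      ∀ (L : Type) [Field L] [NumberField L] [Algebra K L] (φ : A →ₐ[K] L),
        aeval (φ (algebraMap K[X] A X)) G ≠ 0 →
        (∀ j, φ (algebraMap K[X] A X) ≠ algebraMap K L (a j)) →
        (∀ j, {v : HeightOneSpectrum (𝓞 L) | lamF (y j) (φ : A →+* L) v ≠ 0}.Finite) ∧
        ∀ S : Finset ℕ, (∀ p ∈ S, p.Prime) →
        Pool.Agent.Y729.RV.cnt M.primeFactors a (φ (algebraMap K[X] A X)) +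
          ∑ j, (∑ w : InfinitePlace L, (w.mult : ℝ) * lamI (y j) (φ : A →+* L) w +
            mS S (y j) (φ : A →+* L)) ≤
          ((∑ j, (Module.finrank K (A ⧸ Ideal.span (Set.range (y j))) : ℝ)) /
            Module.finrank K[X] A + ε) *
            Real.log (Height.mulHeight₁ (φ (algebraMap K[X] A X))) +
              Module.finrank ℚ L * (C + ∑ p ∈ S, Real.log p) := by
  classical
  let iQ := Pool.Agent.Y729.RV.aQ K A
  let iQX := Pool.Agent.Y729.RV.aQX K A
  have i1 : IsScalarTower ℚ ℚ[X] A := Pool.Agent.Y729.RV.tower1 K A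
  have i2 : Module.Finite ℚ[X] A := Pool.Agent.Y729.RV.finiteX K A
  have i3 : FaithfulSMul ℚ[X] A := Pool.Agent.Y729.RV.faithfulX K A
  have htt : Pool.Agent.W223.AC.tt A = algebraMap K[X] A X := by
    show algebraMap K[X] A (algebraMap ℚ[X] K[X] X) = _
    rw [Polynomial.algebraMap_def, coe_mapRingHom, map_X]
  have hq0 : (0 : ℝ) < q := by exact_mod_cast hq
  have hz1 : ∀ j, y j 0 ≠ 0 := by
    intro j h
    rw [hy0 j, IsScalarTower.algebraMap_apply K K[X] A, ← map_sub,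
      map_eq_zero_iff _ (FaithfulSMul.algebraMap_injective K[X] A)] at h
    exact X_sub_C_ne_zero (a j) h
  have hden := fun j => exists_den K A (a j)
  choose N hN0 hNI using hden
  have hNB' := fun j => nbp A (algebraMap K A (a j)) (N j) (hN0 j) (hNI j) (s j) (y j)
    (by rw [hy0 j, htt]) (hz1 j) (ε / q) (by positivity)
  choose C₁ G₁ hC₁ hG₁ hNB'' using hNB'
  have hNE := fun j : Fin q => nearN Pool.Agent.W989.AC.MULT.t Pool.Agent.W597.AC.t A
    (algebraMap K[X] A X - algebraMap K A (a j)) q s y {j} (by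
      rw [Finset.prod_singleton, Ideal.span_le]
      rintro _ ⟨i, rfl⟩
      exact hyr j i)
  choose M₂ hM₂ hNE' using hNE
  refine ⟨∏ j, M₂ j, ∑ j, C₁ j, ∏ j, G₁ j,
    Finset.prod_ne_zero_iff.mpr fun j _ => hM₂ j,
    Finset.sum_nonneg fun j _ => hC₁ j,
    Finset.prod_ne_zero_iff.mpr fun j _ => hG₁ j, ?_⟩
  intro L _ _ _ φ hG hne
  set x := φ (algebraMap K[X] A X) with hx
  have hx' : (φ : A →+* L) (Pool.Agent.W223.AC.tt A) = x := by
    rw [htt]
    rfl
  obtain ⟨M, hM⟩ : ∃ M, M = ∏ j, M₂ j := ⟨_, rfl⟩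
  rw [← hM]
  have hM0 : M ≠ 0 := by rw [hM]; exact Finset.prod_ne_zero_iff.mpr fun j _ => hM₂ j
  have hGj : ∀ j, aeval x (G₁ j) ≠ 0 := by
    intro j
    rw [map_prod, Finset.prod_ne_zero_iff] at hG
    exact hG j (Finset.mem_univ j)
  have hφa : ∀ j, (φ : A →+* L) (algebraMap K[X] A X - algebraMap K A (a j)) =
      x - algebraMap K L (a j) := by
    intro j
    rw [map_sub]
    show φ _ - φ _ = _
    rw [AlgHom.commutes]
  have hxa : ∀ j, x - algebraMap K L (a j) ≠ 0 := fun j => sub_ne_zero.mpr (hne j)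
  have hz0 : ∀ j, (φ : A →+* L) (y j 0) ≠ 0 := by
    intro j
    rw [hy0 j, hφa j]
    exact hxa j
  have hlam := fun j => hNB'' j L (φ : A →+* L) (by rw [hx']; exact hGj j) (hz0 j)
  refine ⟨fun j => (hlam j).1, fun S hS => ?_⟩
  have hnf : ∀ j, {v : HeightOneSpectrum (𝓞 L) | NearP (y j) (φ : A →+* L) v}.Finite :=
    fun j => near_finite (y j) (φ : A →+* L) (hz0 j)
  have hSM : ∀ v : HeightOneSpectrum (𝓞 L), (∀ p ∈ M.primeFactors, (p : 𝓞 L) ∉ v.asIdeal) →
      (M : 𝓞 L) ∉ v.asIdeal := fun v hv => not_mem_of_primes hM0 fun p hp => hv p hp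
  have hfinU : {v : HeightOneSpectrum (𝓞 L) | ∃ j ∈ (Finset.univ : Finset (Fin q)),
      NearP (y j) (φ : A →+* L) v}.Finite := by
    refine (Set.finite_iUnion fun j => hnf j).subset ?_
    rintro v ⟨j, -, hv⟩
    exact Set.mem_iUnion.2 ⟨j, hv⟩
  have h1 : Pool.Agent.Y729.RV.cnt M.primeFactors a x ≤
      cc ∅ (fun v : HeightOneSpectrum (𝓞 L) => ∃ j ∈ (Finset.univ : Finset (Fin q)),
        NearP (y j) (φ : A →+* L) v) := by
    rw [Pool.Agent.Y729.RV.cnt_cc]
    refine cc_mono (Finset.empty_subset _) hfinU ?_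
    rintro v hv ⟨j, -, h2, h3⟩
    have hM2v : ((M₂ j : ℕ) : 𝓞 L) ∉ v.asIdeal :=
      not_mem_of_dvd (by rw [hM]; exact Finset.dvd_prod_of_mem M₂ (Finset.mem_univ j)) (hSM v hv)
    obtain ⟨l, hl, h5⟩ := hNE' j L (φ : A →+* L) v hM2v (by rw [hx']; exact h2)
      (by rw [hφa j]; exact h3)
    rw [Finset.mem_singleton] at hl
    subst hl
    exact ⟨l, Finset.mem_univ l, by rw [hx']; exact h2, h5⟩
  have h2 := Pool.Agent.W223.AC.cc_outside (L := L) Pool.Agent.W803.AC.t S hS _ hfinU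
  have h3 := Pool.Agent.W223.CV.cc_exists S Finset.univ
      (fun j (v : HeightOneSpectrum (𝓞 L)) => NearP (y j) (φ : A →+* L) v) hnf
  have hd : (Module.finrank ℚ K : ℝ) ≠ 0 := by
    have : 0 < Module.finrank ℚ K := Module.finrank_pos
    positivity
  have hrk : ∀ j, (Module.finrank ℚ (A ⧸ Ideal.span (Set.range (y j))) : ℝ) /
      Module.finrank ℚ[X] A =
      (Module.finrank K (A ⧸ Ideal.span (Set.range (y j))) : ℝ) / Module.finrank K[X] A := by
    intro j
    have e1 : Module.finrank ℚ (A ⧸ Ideal.span (Set.range (y j))) =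
        Module.finrank ℚ K * Module.finrank K (A ⧸ Ideal.span (Set.range (y j))) :=
      Pool.Agent.Y729.RV.dimE K A _
    have e2 : Module.finrank ℚ[X] A = Module.finrank ℚ K * Module.finrank K[X] A :=
      Pool.Agent.Y729.RV.rankX K A
    rw [e1, e2]
    push_cast
    rw [mul_div_mul_left _ _ hd]
  have h5 : ∀ j, cc S (fun v : HeightOneSpectrum (𝓞 L) => NearP (y j) (φ : A →+* L) v) +
      (∑ w : InfinitePlace L, (w.mult : ℝ) * lamI (y j) (φ : A →+* L) w +
        mS S (y j) (φ : A →+* L)) ≤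
      ((Module.finrank K (A ⧸ Ideal.span (Set.range (y j))) : ℝ) /
          Module.finrank K[X] A + ε / q) * Real.log (Height.mulHeight₁ x) +
        Module.finrank ℚ L * C₁ j := by
    intro j
    obtain ⟨h6, h7⟩ := hlam j
    have h8 := split_prox (y j) (φ : A →+* L) S (hz0 j) h6
    rw [hx', hrk j] at h7
    linarith
  have h6 := Finset.sum_le_sum fun j (_ : j ∈ Finset.univ) => h5 j
  rw [Finset.sum_add_distrib] at h6
  have h7 : ∑ j, (((Module.finrank K (A ⧸ Ideal.span (Set.range (y j))) : ℝ) /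
          Module.finrank K[X] A + ε / q) * Real.log (Height.mulHeight₁ x) +
        Module.finrank ℚ L * C₁ j) =
      ((∑ j, (Module.finrank K (A ⧸ Ideal.span (Set.range (y j))) : ℝ)) /
        Module.finrank K[X] A + ε) * Real.log (Height.mulHeight₁ x) +
          Module.finrank ℚ L * ∑ j, C₁ j := by
    rw [Finset.sum_add_distrib, ← Finset.sum_mul, ← Finset.mul_sum, Finset.sum_add_distrib,
      ← Finset.sum_div]
    have : ∑ _j : Fin q, ε / (q : ℝ) = ε := by
      rw [Finset.sum_const, Finset.card_univ, Fintype.card_fin, nsmul_eq_mul,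
        mul_div_cancel₀ _ hq0.ne']
    rw [this]
  rw [h7] at h6
  rw [mul_add (Module.finrank ℚ L : ℝ)]
  linarith

end Pool.Agent.Y728.AK.PX
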