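import Pool.Agent.Y728.AK.QPts
import Pool.Agent.Y730.QP

/-!
# Points of the projective line relative to `q` points: the proportion of the exceptions (helper728)
-/

set_option autoImplicit false

namespace Pool.Agent.Y728.AK

open Finset NumberField IsDedekindDomain Pool.Agent.H691R3 Pool.Agent.TH876.Loc
open Pool.Agent.TH876.KR (form counting)

/-- a lower bound for the number of points -/
theorem line_low (K : Type) [Field K] [NumberField K]
    (S : Set (HeightOneSpectrum (𝓞 K))) (hS : S.Finite) (q : ℕ) (hq : 3 ≤ q)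
    (a : Fin q → Fin 2 → K) (ha : ∀ i j, i ≠ j → form (a i) (a j) ≠ 0)
    (δ : ℝ) (hδ : 0 < δ) : ∃ X₀ : ℝ, 1 ≤ X₀ ∧ ∀ X : ℝ, X₀ ≤ X →
      X ^ (2 / (q : ℝ) - δ) ≤ ((PtsQ S a X).ncard : ℝ) := by
  have ha0 : ∀ i, a i ≠ 0 := by
    intro i h
    obtain ⟨j, hj⟩ : ∃ j : Fin q, i ≠ j := by
      by_cases h : i = ⟨0, by omega⟩
      · refine ⟨⟨1, by omega⟩, ?_⟩
        rw [h]
        intro h'
        have := congrArg Fin.val h'
        simp at this
      · exact ⟨_, h⟩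
    apply ha i j hj
    rw [h]
    unfold form
    simp
  obtain ⟨X0, hX0, h⟩ := Pool.Agent.Y730.QP.lower K S hS q hq a ha0 ha δ hδ
  obtain ⟨C, hC⟩ := line_final K S hS q hq a ha 1 one_pos
  refine ⟨X0, hX0, fun X hX => (h X hX).trans ?_⟩
  have hX1 : 1 ≤ X := hX0.trans hX
  have hsub : Pool.Agent.Y730.QP.PQ S a X ⊆ PtsQ S a X := by
    rintro P ⟨x, hx, e, h1, h2⟩
    refine ⟨x, hx, e, h1, ?_⟩
    rw [← Real.le_log_iff_exp_le (by linarith)]
    exact (Pool.Agent.Y730.QP.counting_le S ha0 hx h1).trans h2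
  exact_mod_cast Set.ncard_le_ncard hsub (hC X hX1).1

/-- **almost all points of the line** -/
theorem line_ratio (K : Type) [Field K] [NumberField K]
    (S : Set (HeightOneSpectrum (𝓞 K))) (hS : S.Finite) (q : ℕ) (hq : 3 ≤ q)
    (a : Fin q → Fin 2 → K) (ha : ∀ i j, i ≠ j → form (a i) (a j) ≠ 0)
    {M : ℝ} (hM : 1 / (q : ℝ) < M) :
    ∃ ν X₀ : ℝ, 0 < ν ∧ ∀ X : ℝ, X₀ ≤ X →
      ((ExcQ S a M X).ncard : ℝ) ≤ X ^ (-ν) * ((PtsQ S a X).ncard : ℝ) := by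
  obtain ⟨ν, C, hν, -, hC, h1⟩ := line_exc K S hS q hq a ha hM
  obtain ⟨X0, hX0, h2⟩ := line_low K S hS q hq a ha (ν / 2) (by positivity)
  obtain ⟨Λ, hΛ⟩ : ∃ Λ, Λ = |Real.log C| * (4 / ν) := ⟨_, rfl⟩
  refine ⟨ν / 4, max X0 (Real.exp Λ), by positivity, fun X hX => ?_⟩
  have hXX : X0 ≤ X := (le_max_left _ _).trans hX
  have hX1 : 1 ≤ X := hX0.trans hXX
  have hXe : Real.exp Λ ≤ X := (le_max_right _ _).trans hX
  have hXp0 : 0 < X := by linarith
  have hC1 : C ≤ X ^ (ν / 4) := by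
    have e1 : Λ ≤ Real.log X := (Real.le_log_iff_exp_le hXp0).2 hXe
    rw [← Real.log_le_log_iff hC (Real.rpow_pos_of_pos hXp0 _), Real.log_rpow hXp0]
    have e2 : ν / 4 * Λ = |Real.log C| := by rw [hΛ]; field_simp
    have e3 := mul_le_mul_of_nonneg_left e1 (by positivity : 0 ≤ ν / 4)
    rw [e2] at e3
    exact (le_abs_self _).trans e3
  have h3 := h1 X hX1
  have h4 := h2 X hXX
  have hXp : ∀ b : ℝ, 0 < X ^ b := fun b => Real.rpow_pos_of_pos hXp0 b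
  calc ((ExcQ S a M X).ncard : ℝ) ≤ C * X ^ (2 / (q : ℝ) - ν) := h3
    _ ≤ X ^ (ν / 4) * X ^ (2 / (q : ℝ) - ν) := mul_le_mul_of_nonneg_right hC1 (hXp _).le
    _ = X ^ (-(ν / 4)) * X ^ (2 / (q : ℝ) - ν / 2) := by
        rw [← Real.rpow_add hXp0, ← Real.rpow_add hXp0]
        congr 1
        ring
    _ ≤ _ := mul_le_mul_of_nonneg_left h4 (hXp _).le

end Pool.Agent.Y728.AK
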