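import Pool.Agent.Y728.AK.Final
import Pool.Agent.Y728.LineQ

/-!
# Almost all points of the projective line relative to `q` points (helper728)
-/

set_option autoImplicit false

namespace Pool.Agent.Y728.AK

open Finset NumberField IsDedekindDomain Pool.Agent.H691R3 Pool.Agent.TH876.Loc
open Pool.Agent.TH876.KR (form counting bad_finite good_index tt tri Pt_tt tri_ne tt_inj cc_ne cc
  recover0 recover1)

variable {K : Type} [Field K] [NumberField K]

/-- the height of a point is at most that of the affine coordinate relative to three points, up to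
a constant -/
theorem logHeight_le_tt {a : Fin 3 → Fin 2 → K} (ha : ∀ i j, i ≠ j → form (a i) (a j) ≠ 0) :
    ∃ c : ℝ, 0 ≤ c ∧ ∀ x : Fin 2 → K, (∀ i, form (a i) x ≠ 0) →
      Height.logHeight x ≤ c + hgt (tt a x) := by
  obtain ⟨B, hB⟩ : ∃ B : Fin 2 × Fin 2 → K, B = fun p =>
      ![a 1 p.1 / cc a 0, -(a 0 p.1 / cc a 1)] p.2 := ⟨_, rfl⟩
  refine ⟨Height.totalWeight K * Real.log 2 + Height.logHeight B, by positivity, fun x hx => ?_⟩
  have hab : form (a 0) (a 1) ≠ 0 := ha 0 1 (by decide)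
  have c0 := cc_ne ha 0
  have c1 := cc_ne ha 1
  have h0 := hx 0
  have h1 := hx 1
  obtain ⟨t, ht⟩ : ∃ t, t = tt a x := ⟨_, rfl⟩
  have e1 : x = ((form (a 0) (a 1))⁻¹ * (cc a 1 * form (a 1) x)) •
      (fun j : Fin 2 => ∑ i, B (j, i) * ![t, 1] i) := by
    have key : ∀ j : Fin 2, a 1 j * form (a 0) x - a 0 j * form (a 1) x =
        form (a 0) (a 1) * x j := by
      intro j
      fin_cases j
      · exact recover0 _ _ _
      · exact recover1 _ _ _
    funext j
    rw [Pi.smul_apply, smul_eq_mul, Fin.sum_univ_two, hB]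
    simp only [Matrix.cons_val_zero, Matrix.cons_val_one]
    have e2 : t = (cc a 0 * form (a 0) x) / (cc a 1 * form (a 1) x) := ht
    rw [e2]
    have e3 := key j
    field_simp
    linear_combination -e3
  have hne : (form (a 0) (a 1))⁻¹ * (cc a 1 * form (a 1) x) ≠ 0 :=
    mul_ne_zero (inv_ne_zero hab) (mul_ne_zero c1 h1)
  have e4 : Height.logHeight x = Height.logHeight (fun j : Fin 2 => ∑ i, B (j, i) * ![t, 1] i) := by
    conv_lhs => rw [e1]
    exact Height.logHeight_smul_eq_logHeight _ hne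
  rw [e4]
  refine (Height.logHeight_linearMap_apply_le B ![t, 1]).trans ?_
  rw [Nat.card_eq_fintype_card, Fintype.card_fin, ← Height.logHeight₁_eq_logHeight]
  have h5 := logHeight_le (Pt_tt ha hx)
  rw [← ht] at h5 ⊢
  push_cast
  linarith

/-- the points with bounded counting function and large height -/
def BigQ (S : Set (HeightOneSpectrum (𝓞 K))) {q : ℕ} (a : Fin q → Fin 2 → K) (ε X : ℝ) :
    Set (Projectivization K (Fin 2 → K)) :=
  {P | ∃ (x : Fin 2 → K) (hx : x ≠ 0), P = Projectivization.mk K x hx ∧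
    (∀ i, form (a i) x ≠ 0) ∧ Real.exp (counting S a x) ≤ X ∧
    (1 / (q : ℝ) + ε) * Real.log X ≤ Height.logHeight x}

/-- the points with bounded counting function whose height is at least `M` times the counting
function -/
def ExcQ (S : Set (HeightOneSpectrum (𝓞 K))) {q : ℕ} (a : Fin q → Fin 2 → K) (M X : ℝ) :
    Set (Projectivization K (Fin 2 → K)) :=
  {P | ∃ (x : Fin 2 → K) (hx : x ≠ 0), P = Projectivization.mk K x hx ∧
    (∀ i, form (a i) x ≠ 0) ∧ Real.exp (counting S a x) ≤ X ∧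
    M * counting S a x ≤ Height.logHeight x}

theorem BigQ_sub (S : Set (HeightOneSpectrum (𝓞 K))) {q : ℕ} (a : Fin q → Fin 2 → K) (ε X : ℝ) :
    BigQ S a ε X ⊆ PtsQ S a X := by
  rintro P ⟨x, hx, h1, h2, h3, -⟩
  exact ⟨x, hx, h1, h2, h3⟩

theorem ExcQ_sub (S : Set (HeightOneSpectrum (𝓞 K))) {q : ℕ} (a : Fin q → Fin 2 → K) (M X : ℝ) :
    ExcQ S a M X ⊆ PtsQ S a X := by
  rintro P ⟨x, hx, h1, h2, h3, -⟩
  exact ⟨x, hx, h1, h2, h3⟩

/-- the number of the points of large height -/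
theorem line_big (K : Type) [Field K] [NumberField K]
    (S : Set (HeightOneSpectrum (𝓞 K))) (hS : S.Finite) (q : ℕ) (hq : 3 ≤ q)
    (a : Fin q → Fin 2 → K) (ha : ∀ i j, i ≠ j → form (a i) (a j) ≠ 0)
    (ε : ℝ) (hε : 0 < ε) :
    ∃ ν C : ℝ, 0 < ν ∧ ν ≤ 1 / q ∧ 0 < C ∧ ∀ X : ℝ, 1 ≤ X →
      ((BigQ S a ε X).ncard : ℝ) ≤ C * X ^ (2 / (q : ℝ) - ν) := by
  classical
  obtain ⟨T, hT⟩ := bad_finite hq S hS ha
  have hq0 : (3 : ℝ) ≤ q := by exact_mod_cast hq
  have hqp : (0 : ℝ) < q := by linarith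
  obtain ⟨ν1, hν1, C1, hC1, hAA⟩ := almost_allK K (q * ε / 6) (by positivity)
  obtain ⟨C2, hC2⟩ := line_final K S hS q hq a ha 1 one_pos
  have hcs : ∀ s : Fin q, ∃ c : ℝ, 0 ≤ c ∧ ∀ x : Fin 2 → K, (∀ i, form (tri a s i) x ≠ 0) →
      Height.logHeight x ≤ c + hgt (tt (tri a s) x) := fun s => logHeight_le_tt (tri_ne hq ha s)
  choose cs hcs0 hcs1 using hcs
  obtain ⟨c, hc⟩ : ∃ c, c = ∑ s, cs s := ⟨_, rfl⟩
  have hcc : ∀ s, cs s ≤ c := fun s => by
    rw [hc]
    exact Finset.single_le_sum (f := cs) (fun i _ => hcs0 i) (Finset.mem_univ s)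
  have hc0 : 0 ≤ c := by
    rw [hc]
    exact Finset.sum_nonneg fun i _ => hcs0 i
  obtain ⟨t, ht⟩ : ∃ t, t = nn T := ⟨_, rfl⟩
  have ht1 : 1 ≤ t := by rw [ht]; exact one_le_nn T
  have ht0 : 0 < t := by linarith
  have hlt : 0 ≤ Real.log t := Real.log_nonneg ht1
  obtain ⟨Λ, hΛ⟩ : ∃ Λ, Λ = (c + (1 / 3 + q * ε / 6) * Real.log t) * (2 / ε) := ⟨_, rfl⟩
  have hΛ0 : 0 ≤ Λ := by rw [hΛ]; positivity
  obtain ⟨ν, hν⟩ : ∃ ν, ν = min (3 * ν1 / q) (1 / q) := ⟨_, rfl⟩
  have hν0 : 0 < ν := by rw [hν]; exact lt_min (by positivity) (by positivity)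
  have hνa : ν ≤ 3 * ν1 / q := by rw [hν]; exact min_le_left _ _
  have hνb : ν ≤ 1 / q := by rw [hν]; exact min_le_right _ _
  have hν2 : 0 ≤ 2 / (q : ℝ) - ν := by
    have : 1 / (q : ℝ) ≤ 2 / q := div_le_div_of_nonneg_right (by norm_num) hqp.le
    linarith
  refine ⟨ν, (|C2| + 1) * Real.exp Λ ^ (2 / (q : ℝ) + 1) + q * (C1 * t ^ |2 / 3 - ν1|), hν0, hνb,
    by positivity, fun X hX => ?_⟩
  have hX0 : 0 < X := by linarith
  have hXp : ∀ b : ℝ, 0 < X ^ b := fun b => Real.rpow_pos_of_pos hX0 b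
  obtain ⟨hfin, hcardP⟩ := hC2 X hX
  have hfinB : (BigQ S a ε X).Finite := hfin.subset (BigQ_sub S a ε X)
  have h1X : 1 ≤ X ^ (2 / (q : ℝ) - ν) := Real.one_le_rpow hX hν2
  rcases le_or_gt (Real.log X) Λ with hsm | hbig
  · have e1 : X ≤ Real.exp Λ := by rwa [← Real.log_le_iff_le_exp hX0]
    have e2 : ((BigQ S a ε X).ncard : ℝ) ≤ ((PtsQ S a X).ncard : ℝ) := by
      exact_mod_cast Set.ncard_le_ncard (BigQ_sub S a ε X) hfin
    have e3 : X ^ (2 / (q : ℝ) + 1) ≤ Real.exp Λ ^ (2 / (q : ℝ) + 1) :=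
      Real.rpow_le_rpow hX0.le e1 (by positivity)
    have e4 : C2 * X ^ (2 / (q : ℝ) + 1) ≤ (|C2| + 1) * Real.exp Λ ^ (2 / (q : ℝ) + 1) := by
      refine mul_le_mul ?_ e3 (hXp _).le (by positivity)
      linarith [le_abs_self C2]
    have e5 : 0 < q * (C1 * t ^ |2 / 3 - ν1|) := by positivity
    calc ((BigQ S a ε X).ncard : ℝ) ≤ (|C2| + 1) * Real.exp Λ ^ (2 / (q : ℝ) + 1) :=
          e2.trans (hcardP.trans e4)
      _ ≤ ((|C2| + 1) * Real.exp Λ ^ (2 / (q : ℝ) + 1) + q * (C1 * t ^ |2 / 3 - ν1|)) * 1 := by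
          linarith
      _ ≤ _ := mul_le_mul_of_nonneg_left h1X (by positivity)
  · -- large `X`
    obtain ⟨X', hX'⟩ : ∃ X' : ℝ, X' = t * X ^ (3 / (q : ℝ)) := ⟨_, rfl⟩
    have hXq : 1 ≤ X ^ (3 / (q : ℝ)) := Real.one_le_rpow hX (by positivity)
    have hX'1 : 1 ≤ X' := by
      rw [hX']
      nlinarith
    have hlogX' : Real.log X' = Real.log t + 3 / q * Real.log X := by
      rw [hX', Real.log_mul ht0.ne' (hXp _).ne', Real.log_rpow hX0]
    -- choose representatives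
    have hex : ∀ p : Projectivization K (Fin 2 → K), ∃ (x : Fin 2 → K) (s : Fin q),
        p ∈ BigQ S a ε X → (∃ hx : x ≠ 0, p = Projectivization.mk K x hx) ∧
          (∀ i, form (a i) x ≠ 0) ∧ nn (sp (tt (tri a s) x)) ≤ X' ∧
          (1 / 3 + q * ε / 6) * Real.log X' ≤ hgt (tt (tri a s) x) := by
      intro p
      by_cases hp : p ∈ BigQ S a ε X
      · obtain ⟨x, hx0, e, hx, h1, h2⟩ := hp
        obtain ⟨s, hs⟩ := good_index hq S ha T hT hx0 hx hX h1
        rw [← ht, ← hX'] at hs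
        refine ⟨x, s, fun _ => ⟨⟨hx0, e⟩, hx, hs, ?_⟩⟩
        have h3 := hcs1 s x (fun i => hx _)
        have h4 := hcc s
        have h5 : ε / 2 * Λ = c + (1 / 3 + q * ε / 6) * Real.log t := by
          rw [hΛ]
          field_simp
        have h6 : ε / 2 * Λ ≤ ε / 2 * Real.log X := mul_le_mul_of_nonneg_left hbig.le (by positivity)
        have h7 : (1 / 3 + q * ε / 6) * Real.log X' =
            (1 / 3 + q * ε / 6) * Real.log t + (1 / q + ε / 2) * Real.log X := by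
          rw [hlogX']
          field_simp
          ring
        rw [h7]
        have h8 : (1 / (q : ℝ) + ε) * Real.log X = (1 / q + ε / 2) * Real.log X +
            ε / 2 * Real.log X := by ring
        rw [h8] at h2
        linarith
      · exact ⟨0, ⟨0, by omega⟩, fun h => absurd h hp⟩
    choose f g hfg using hex
    obtain ⟨B, hB⟩ : ∃ B : ℝ, B = C1 * X' ^ (2 / 3 - ν1) := ⟨_, rfl⟩
    have hB0 : 0 ≤ B := by
      rw [hB]
      have : 0 < X' := by linarith
      positivity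
    have hbound : ∀ G : Finset (Projectivization K (Fin 2 → K)), (G : Set _) ⊆ BigQ S a ε X →
        (G.card : ℝ) ≤ q * B := by
      intro G hG
      have h1 : ∀ s : Fin q, ((G.filter fun p => g p = s).card : ℝ) ≤ B := by
        intro s
        have hinj : Set.InjOn (fun p => tt (tri a s) (f p)) (G.filter fun p => g p = s) := by
          intro p hp r hr hpr
          have hp' := Finset.mem_filter.1 (Finset.mem_coe.1 hp)
          have hr' := Finset.mem_filter.1 (Finset.mem_coe.1 hr)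
          obtain ⟨⟨hp0, ep⟩, hpx, _⟩ := hfg p (hG hp'.1)
          obtain ⟨⟨hr0, er⟩, hrx, _⟩ := hfg r (hG hr'.1)
          obtain ⟨k, hk⟩ := tt_inj (tri_ne hq ha s) (x := f p) (y := f r) (fun i => hpx _)
            (fun i => hrx _) hpr
          rw [ep, er, Projectivization.mk_eq_mk_iff']
          exact ⟨k, hk⟩
        rw [← Finset.card_image_of_injOn hinj, hB]
        refine hAA X' hX'1 _ ?_
        intro z hz
        obtain ⟨p, hp, rfl⟩ := Finset.mem_image.1 hz
        have hp' := Finset.mem_filter.1 hp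
        obtain ⟨_, hpx, h2, h3⟩ := hfg p (hG hp'.1)
        rw [hp'.2] at h2 h3
        exact ⟨Pt_tt (tri_ne hq ha s) fun i => hpx _, h2, h3⟩
      have h2 : G.card = ∑ s : Fin q, (G.filter fun p => g p = s).card :=
        Finset.card_eq_sum_card_fiberwise fun p _ => Finset.mem_univ (g p)
      rw [h2]
      push_cast
      calc ∑ s : Fin q, ((G.filter fun p => g p = s).card : ℝ) ≤ ∑ _s : Fin q, B :=
            Finset.sum_le_sum fun s _ => h1 s
        _ = q * B := by rw [Finset.sum_const, Finset.card_univ, Fintype.card_fin, nsmul_eq_mul]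
    have h2 : X' ^ (2 / 3 - ν1) ≤ t ^ |2 / 3 - ν1| * X ^ (2 / (q : ℝ) - ν) := by
      rw [hX', Real.mul_rpow ht0.le (hXp _).le, ← Real.rpow_mul hX0.le]
      refine mul_le_mul (Real.rpow_le_rpow_of_exponent_le ht1 (le_abs_self _)) ?_ (hXp _).le
        (by positivity)
      refine Real.rpow_le_rpow_of_exponent_le hX ?_
      have h3 : 3 / (q : ℝ) * (2 / 3 - ν1) = 2 / q - 3 * ν1 / q := by ring
      rw [h3]
      linarith
    have h3 : q * B ≤ q * (C1 * t ^ |2 / 3 - ν1|) * X ^ (2 / (q : ℝ) - ν) := by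
      rw [hB]
      have := mul_le_mul_of_nonneg_left h2 (by positivity : 0 ≤ (q : ℝ) * C1)
      linarith
    rw [Set.ncard_eq_toFinset_card _ hfinB]
    refine (hbound hfinB.toFinset (by rw [Set.Finite.coe_toFinset])).trans (h3.trans ?_)
    refine mul_le_mul_of_nonneg_right ?_ (hXp _).le
    have : 0 < (|C2| + 1) * Real.exp Λ ^ (2 / (q : ℝ) + 1) := by positivity
    linarith

/-- **the number of the exceptions** -/
theorem line_exc (K : Type) [Field K] [NumberField K]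
    (S : Set (HeightOneSpectrum (𝓞 K))) (hS : S.Finite) (q : ℕ) (hq : 3 ≤ q)
    (a : Fin q → Fin 2 → K) (ha : ∀ i j, i ≠ j → form (a i) (a j) ≠ 0)
    {M : ℝ} (hM : 1 / (q : ℝ) < M) :
    ∃ ν C : ℝ, 0 < ν ∧ ν ≤ 1 / q ∧ 0 < C ∧ ∀ X : ℝ, 1 ≤ X →
      ((ExcQ S a M X).ncard : ℝ) ≤ C * X ^ (2 / (q : ℝ) - ν) := by
  classical
  have hq0 : (3 : ℝ) ≤ q := by exact_mod_cast hq
  have hqp : (0 : ℝ) < q := by linarith
  have h1q : 0 < 1 / (q : ℝ) := by positivity
  obtain ⟨b, hb⟩ : ∃ b, b = M - 1 / q := ⟨_, rfl⟩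
  have hb0 : 0 < b := by rw [hb]; linarith
  have hM0 : 0 < M := by linarith
  obtain ⟨η, hη⟩ : ∃ η, η = b / (4 * (M + 1)) := ⟨_, rfl⟩
  have hη0 : 0 < η := by rw [hη]; positivity
  have hηM : η * M ≤ b / 4 := by
    rw [hη, div_mul_eq_mul_div, div_le_div_iff₀ (by positivity) (by norm_num)]
    nlinarith
  have hη1 : η ≤ 1 / 4 := by
    rw [hη, div_le_div_iff₀ (by positivity) (by norm_num)]
    rw [hb]
    linarith
  obtain ⟨C2, hC2⟩ := line_final K S hS q hq a ha (η / q) (by positivity)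
  obtain ⟨ν1, C1, hν1, hν1q, hC1, hbig⟩ := line_big K S hS q hq a ha (b / 2) (by positivity)
  obtain ⟨ν, hν⟩ : ∃ ν, ν = min (η / q) ν1 := ⟨_, rfl⟩
  have hν0 : 0 < ν := by rw [hν]; exact lt_min (by positivity) hν1
  have hνa : ν ≤ η / q := by rw [hν]; exact min_le_left _ _
  have hνb : ν ≤ ν1 := by rw [hν]; exact min_le_right _ _
  refine ⟨ν, (|C2| + 1) + C1, hν0, hνb.trans hν1q, by positivity, fun X hX => ?_⟩
  have hX0 : 0 < X := by linarith
  have hXp : ∀ b : ℝ, 0 < X ^ b := fun b => Real.rpow_pos_of_pos hX0 b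
  have hXη : 1 ≤ X ^ (1 - η) := Real.one_le_rpow hX (by linarith)
  obtain ⟨hfin1, hc1⟩ := hC2 (X ^ (1 - η)) hXη
  obtain ⟨hfin2, -⟩ := hC2 X hX
  have hfinB : (BigQ S a (b / 2) X).Finite := hfin2.subset (BigQ_sub S a _ X)
  have hsub : ExcQ S a M X ⊆ PtsQ S a (X ^ (1 - η)) ∪ BigQ S a (b / 2) X := by
    rintro P ⟨x, hx, h1, h2, h3, h4⟩
    by_cases h5 : Real.exp (counting S a x) ≤ X ^ (1 - η)
    · exact Or.inl ⟨x, hx, h1, h2, h5⟩
    · refine Or.inr ⟨x, hx, h1, h2, h3, le_trans ?_ h4⟩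
      rw [not_le] at h5
      have h6 : (1 - η) * Real.log X ≤ counting S a x := by
        rw [← Real.log_rpow hX0, ← Real.log_exp (counting S a x)]
        exact Real.log_le_log (hXp _) h5.le
      have h7 := mul_le_mul_of_nonneg_left h6 hM0.le
      refine le_trans ?_ h7
      have h8 : 1 / (q : ℝ) + b / 2 ≤ M * (1 - η) := by
        have : M * (1 - η) = M - η * M := by ring
        rw [this]
        linarith
      have h9 := mul_le_mul_of_nonneg_right h8 (Real.log_nonneg hX)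
      linarith
  have hcard : ((ExcQ S a M X).ncard : ℝ) ≤ ((PtsQ S a (X ^ (1 - η))).ncard : ℝ) +
      ((BigQ S a (b / 2) X).ncard : ℝ) := by
    exact_mod_cast (Set.ncard_le_ncard hsub (hfin1.union hfinB)).trans (Set.ncard_union_le _ _)
  have k1 : ((PtsQ S a (X ^ (1 - η))).ncard : ℝ) ≤ (|C2| + 1) * X ^ (2 / (q : ℝ) - ν) := by
    refine hc1.trans ?_
    rw [← Real.rpow_mul hX0.le]
    refine mul_le_mul (by linarith [le_abs_self C2]) ?_ (hXp _).le (by positivity)
    refine Real.rpow_le_rpow_of_exponent_le hX ?_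
    have e1 : (1 - η) * (2 / (q : ℝ) + η / q) = 2 / q - η / q - η * η / q := by ring
    rw [e1]
    have : 0 ≤ η * η / q := by positivity
    linarith
  have k2 : ((BigQ S a (b / 2) X).ncard : ℝ) ≤ C1 * X ^ (2 / (q : ℝ) - ν) := by
    refine (hbig X hX).trans (mul_le_mul_of_nonneg_left ?_ hC1.le)
    exact Real.rpow_le_rpow_of_exponent_le hX (by linarith)
  rw [add_mul]
  linarith

end Pool.Agent.Y728.AK
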