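import Pool.Agent.Y728.AK.KH
import Pool.Agent.Y911.AA.StrTwo

/-!
# Points without light sets of large radical all of whose primes are small (helper728)
-/

set_option autoImplicit false

namespace Pool.Agent.Y728.AK

open Finset NumberField IsDedekindDomain Height Pool.Agent.H691R3 Pool.Agent.TH876.Loc
open Pool.Agent.TH876.KR (log_Nv_pos' side aw rr qt qt_ne lg_qt df_eq_zero side_sum side_sub
  side_uniq mem_sp_iff gd_eq aw_nonneg rr_sum side_disj)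
open Pool.Agent.Y911.AA (greedy exists_sum grid grid_spec)

/-- **Rigidity** (a variant of `Y911.AA.rigid`). -/
theorem rigid' {ι : Type*} [DecidableEq ι] (r w : ι → ℝ) (P Q : Finset ι) (hQP : Q ⊆ P)
    {H ℓ κ δ ε ε' θ : ℝ} (hH : 0 < H) (hℓ : 0 < ℓ) (hκ : 0 ≤ κ) (hκ1 : κ ≤ 1) (hδ : 0 ≤ δ)
    (hθ : 0 ≤ θ)
    (hε : 0 < ε) (hε1 : ε ≤ 1 / 2) (h1 : κ + 3 * (δ + θ) < 2 * ε * ε')
    (h2 : κ + 3 * (δ + θ) < ε / 2) (hP : ∀ p ∈ P, 0 ≤ r p ∧ r p ≤ θ * ℓ ∧ 0 ≤ w p)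
    (hr : ∑ p ∈ P, r p = ℓ) (hw : ∑ p ∈ P, w p ≤ 3 * H) (hw1 : (1 - κ) * H < ∑ p ∈ P, w p)
    (hND : ∀ D ⊆ P, ∑ p ∈ D, w p ≤ (1 - κ) * H → ∑ p ∈ D, r p < (1 / 3 + δ) * ℓ)
    (hQ : ∑ p ∈ Q, w p ≤ 3 * (1 - ε) * H / ℓ * ∑ p ∈ Q, r p) :
    ∑ p ∈ Q, r p ≤ ε' * ℓ := by
  by_contra hcon
  rw [not_le] at hcon
  obtain ⟨x, hx⟩ : ∃ x, x = (∑ p ∈ Q, r p) / ℓ := ⟨_, rfl⟩
  obtain ⟨v, hv⟩ : ∃ v, v = (∑ p ∈ Q, w p) / H := ⟨_, rfl⟩
  have hxr : ∑ p ∈ Q, r p = x * ℓ := by rw [hx]; field_simp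
  have hvw : ∑ p ∈ Q, w p = v * H := by rw [hv]; field_simp
  have hε'0 : 0 < ε' := by
    have h3 : 0 < 2 * ε * ε' := by linarith
    exact pos_of_mul_pos_right h3 (by positivity)
  have hxe : ε' < x := by
    rw [hxr] at hcon
    exact lt_of_mul_lt_mul_right hcon hℓ.le
  have hx0 : 0 < x := by linarith
  have hvx : v ≤ 3 * (1 - ε) * x := by
    rw [hvw, hxr] at hQ
    have h3 : 3 * (1 - ε) * H / ℓ * (x * ℓ) = (3 * (1 - ε) * x) * H := by field_simp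
    rw [h3] at hQ
    exact le_of_mul_le_mul_right hQ hH
  have hQ0 : ∀ p ∈ Q, 0 ≤ r p ∧ r p ≤ θ * ℓ ∧ 0 ≤ w p := fun p hp => hP p (hQP hp)
  have hv0 : 0 ≤ v := by
    rw [hv]
    exact div_nonneg (Finset.sum_nonneg fun p hp => (hQ0 p hp).2.2) hH.le
  rcases lt_or_ge ((1 - κ) * H) (∑ p ∈ Q, w p) with h3 | h3
  · -- `Q` itself is too heavy
    obtain ⟨D, hD, hDw, hDr⟩ := greedy r w (θ * ℓ) ((1 - κ) * H)
      (mul_nonneg (by linarith) hH.le) _ Q rfl hQ0 h3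
    have h4 := hND D (hD.trans hQP) hDw
    rw [hxr, hvw] at hDr
    have h5 : (∑ p ∈ D, r p + θ * ℓ) * (v * H) ≤ ((1 / 3 + δ + θ) * ℓ) * (v * H) := by
      apply mul_le_mul_of_nonneg_right _ (mul_nonneg hv0 hH.le)
      linarith
    have h6 : ((1 - κ) * x) * (H * ℓ) ≤ ((1 / 3 + δ + θ) * v) * (H * ℓ) := by
      calc ((1 - κ) * x) * (H * ℓ) = (1 - κ) * H * (x * ℓ) := by ring
        _ ≤ (∑ p ∈ D, r p + θ * ℓ) * (v * H) := hDr
        _ ≤ ((1 / 3 + δ + θ) * ℓ) * (v * H) := h5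
        _ = _ := by ring
    have h7 := le_of_mul_le_mul_right h6 (mul_pos hH hℓ)
    have h8 : (1 / 3 + δ + θ) * v ≤ (1 / 3 + δ + θ) * (3 * (1 - ε) * x) :=
      mul_le_mul_of_nonneg_left hvx (by linarith)
    have h9 : (1 - κ) * x ≤ ((1 / 3 + δ + θ) * (3 * (1 - ε))) * x := by
      calc (1 - κ) * x ≤ _ := h7
        _ ≤ _ := h8
        _ = _ := by ring
    have h10 := le_of_mul_le_mul_right h9 hx0
    nlinarith [mul_nonneg (by linarith : 0 ≤ δ + θ) hε.le]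
  · -- enlarge `Q`
    have h4 : ∑ p ∈ P \ Q, w p = ∑ p ∈ P, w p - v * H := by
      rw [← hvw, ← Finset.sum_sdiff hQP]; ring
    have h5 : ∑ p ∈ P \ Q, r p = ℓ - x * ℓ := by
      rw [← hxr, ← hr, ← Finset.sum_sdiff hQP]; ring
    obtain ⟨D, hD, hDw, hDr⟩ := greedy r w (θ * ℓ) ((1 - κ) * H - v * H)
      (by rw [hvw] at h3; linarith) _ (P \ Q) rfl
      (fun p hp => hP p (Finset.sdiff_subset hp)) (by
        rw [h4]
        linarith)
    have hdisj : Disjoint Q D := by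
      rw [Finset.disjoint_left]
      intro p hp hp'
      exact (Finset.mem_sdiff.1 (hD hp')).2 hp
    have h6 := hND (Q ∪ D) (Finset.union_subset hQP (hD.trans Finset.sdiff_subset)) (by
      rw [Finset.sum_union hdisj, hvw]; linarith)
    rw [Finset.sum_union hdisj, hxr] at h6
    rw [h4, h5] at hDr
    have hw3 : ∑ p ∈ P, w p - v * H ≤ (3 - v) * H := by linarith
    have hw0 : 0 ≤ ∑ p ∈ P, w p - v * H := by
      rw [← h4]
      exact Finset.sum_nonneg fun p hp => (hP p (Finset.sdiff_subset hp)).2.2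
    have hD0 : 0 ≤ ∑ p ∈ D, r p + θ * ℓ :=
      add_nonneg (Finset.sum_nonneg fun p hp => (hP p (Finset.sdiff_subset (hD hp))).1)
        (mul_nonneg hθ hℓ.le)
    have h7 : ((1 - κ - v) * (1 - x)) * (H * ℓ) ≤ ((1 / 3 + δ + θ - x) * (3 - v)) * (H * ℓ) := by
      have h3v : 0 ≤ (3 - v) * H := hw0.trans hw3
      calc ((1 - κ - v) * (1 - x)) * (H * ℓ) = ((1 - κ) * H - v * H) * (ℓ - x * ℓ) := by ring
        _ ≤ (∑ p ∈ D, r p + θ * ℓ) * (∑ p ∈ P, w p - v * H) := hDr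
        _ ≤ (∑ p ∈ D, r p + θ * ℓ) * ((3 - v) * H) := mul_le_mul_of_nonneg_left hw3 hD0
        _ ≤ ((1 / 3 + δ) * ℓ - x * ℓ + θ * ℓ) * ((3 - v) * H) :=
            mul_le_mul_of_nonneg_right (by linarith) h3v
        _ = _ := by ring
    have h8 := le_of_mul_le_mul_right h7 (mul_pos hH hℓ)
    have h9 : 0 ≤ κ * x := mul_nonneg hκ hx0.le
    have h10 : 0 ≤ (δ + θ) * v := mul_nonneg (by linarith) hv0
    have h11 : 2 * ε * ε' < 2 * ε * x := mul_lt_mul_of_pos_left hxe (by positivity)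
    nlinarith

variable {K : Type} [Field K] [NumberField K]

open Classical in
/-- the primes of a side with exponent at least `E` -/
noncomputable def tp (i : Fin 3) (E : ℕ) (x : K) : Finset (Pr K) :=
  (side i x).filter fun v => (E : ℝ) * Real.log (Nv v) ≤ df (Sum.inr v : Pl K) i x

theorem tp_sub (i : Fin 3) (E : ℕ) (x : K) : tp i E x ⊆ side i x := by
  classical
  exact Finset.filter_subset _ _

/-- **Structure of the points of the second kind.** -/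
theorem str_twoK {x : K} {L δ θ ε : ℝ} (hx : Pt x) (hL : 0 < L)
    (hδ : 0 < δ) (hθ : 0 ≤ θ) (hε : 0 < ε) (hε1 : ε ≤ 1 / 100)
    (hc1 : 10 * δ + 6 * θ < 2 * ε * ε) (hrad : ∑ v ∈ sp x, Real.log (Nv v) ≤ L)
    (hsm : ∀ v ∈ sp x, Real.log (Nv v) ≤ θ * L)
    (hrr : ∀ i : Fin 3, (1 / 3 - δ) * L ≤ rr i x)
    (hnd : ∀ D ⊆ sp x, ∑ v ∈ D, gd (Sum.inr v : Pl K) x ≤ (1 - δ) * hgt x →
        ∑ v ∈ D, Real.log (Nv v) ≤ (1 / 3 + δ) * L)
    (hH : L ≤ ε * hgt x) (hL1 : 2 ≤ L) :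
    ∃ s : ℕ, (s : ℝ) ≤ 2 / ε * Real.log (3 * hgt x) ∧ 1 / ε ≤ grid ε s ∧
      ∀ i : Fin 3, hgt x - (grid ε s : ℝ) * ∑ v ∈ tp i (grid ε s) x, Real.log (Nv v) ≤
        5 * ε * grid ε s * L ∧ (1 / 3 - δ - ε) * L ≤ ∑ v ∈ tp i (grid ε s) x, Real.log (Nv v) := by
  classical
  obtain ⟨H, hHd⟩ : ∃ H, H = hgt x := ⟨_, rfl⟩
  rw [← hHd] at hH hnd ⊢
  obtain ⟨ℓ, hℓ⟩ : ∃ ℓ, ℓ = ∑ v ∈ sp x, Real.log (Nv v) := ⟨_, rfl⟩
  rw [← hℓ] at hrad
  have hδε : δ ≤ ε / 100 := by nlinarith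
  have hδ1 : δ ≤ 1 / 10000 := by linarith
  have hℓL : (1 - 3 * δ) * L ≤ ℓ := by
    have h0 := hrr 0
    have h1 := hrr 1
    have h2 := hrr 2
    have h3 := rr_sum hx
    rw [← hℓ] at h3
    have e : (1 - 3 * δ) * L = (1 / 3 - δ) * L + (1 / 3 - δ) * L + (1 / 3 - δ) * L := by ring
    rw [e]
    linarith
  have hℓ2 : L / 2 ≤ ℓ := by nlinarith
  have hℓ0 : 0 < ℓ := by linarith
  have hH0 : 0 < H := by
    have : 0 < ε * H := lt_of_lt_of_le hL hH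
    exact pos_of_mul_pos_right this hε.le
  -- the exponent
  obtain ⟨e₀, he₀⟩ : ∃ e₀, e₀ = (1 - ε) * (3 * H / ℓ) := ⟨_, rfl⟩
  have hHℓ : 3 / ε ≤ 3 * H / ℓ := by
    rw [div_le_div_iff₀ hε hℓ0]
    nlinarith
  have he₀1 : 2 / ε ≤ e₀ := by
    rw [he₀]
    calc 2 / ε ≤ (1 - ε) * (3 / ε) := by
          rw [mul_div_assoc', div_le_div_iff_of_pos_right hε]
          linarith
      _ ≤ _ := mul_le_mul_of_nonneg_left hHℓ (by linarith)
  have he₀2 : 1 ≤ ε * e₀ := by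
    rw [div_le_iff₀ hε] at he₀1
    linarith
  obtain ⟨s, hs1, hs2, hs3⟩ := grid_spec hε (by linarith) he₀2
  obtain ⟨E, hE⟩ : ∃ E, E = grid ε s := ⟨_, rfl⟩
  rw [← hE] at hs1 hs2
  refine ⟨s, ?_, ?_, ?_⟩
  · refine hs3.trans (mul_le_mul_of_nonneg_left ?_ (by positivity))
    have h2 : 0 < e₀ := by
      have : 0 < 2 / ε := by positivity
      linarith
    refine Real.log_le_log h2 ?_
    rw [he₀]
    calc (1 - ε) * (3 * H / ℓ) ≤ 1 * (3 * H / ℓ) :=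
          mul_le_mul_of_nonneg_right (by linarith) (by positivity)
      _ = 3 * H / ℓ := one_mul _
      _ ≤ 3 * H := div_le_self (by positivity) (by linarith)
  · rw [← hE]
    have h1 : (1 - 2 * ε) * (2 / ε) ≤ (1 - 2 * ε) * e₀ :=
      mul_le_mul_of_nonneg_left he₀1 (by linarith)
    have h2 : 1 / ε ≤ (1 - 2 * ε) * (2 / ε) := by
      rw [mul_div_assoc', div_le_div_iff_of_pos_right hε]
      linarith
    linarith
  rw [← hE]
  -- the primes of small exponent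
  obtain ⟨Q, hQ⟩ : ∃ Q, Q = (sp x).filter fun v => gd (Sum.inr v : Pl K) x < E * Real.log (Nv v) :=
    ⟨_, rfl⟩
  have hQP : Q ⊆ sp x := by rw [hQ]; exact Finset.filter_subset _ _
  have hwP : ∑ v ∈ sp x, gd (Sum.inr v : Pl K) x ≤ 3 * H := by
    have h1 := sum_gd hx (Finset.Subset.refl (sp x))
    rw [sum_Spl] at h1
    have h2 : 0 ≤ ∑ w : InfinitePlace K, gd (Sum.inl w : Pl K) x :=
      Finset.sum_nonneg fun w _ => gd_nonneg _ hx
    rw [hHd]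
    linarith
  have hkey : (1 / 3 + δ) * L < (1 / 3 + 3 * δ) * ℓ := by
    have h1 : (1 / 3 + 3 * δ) * ((1 - 3 * δ) * L) ≤ (1 / 3 + 3 * δ) * ℓ :=
      mul_le_mul_of_nonneg_left hℓL (by linarith)
    have h2 : (1 / 3 + δ) * L < (1 / 3 + 3 * δ) * ((1 - 3 * δ) * L) := by
      have h3 : 0 < δ * (1 - 9 * δ) * L := mul_pos (mul_pos hδ (by linarith)) hL
      nlinarith
    linarith
  have hwP1 : (1 - δ) * H < ∑ v ∈ sp x, gd (Sum.inr v : Pl K) x := by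
    by_contra hcon
    have h1 := hnd (sp x) (Finset.Subset.refl _) (not_lt.1 hcon)
    rw [← hℓ] at h1
    have h2 : (1 / 3 + 3 * δ) * ℓ ≤ 1 * ℓ := mul_le_mul_of_nonneg_right (by linarith) hℓ0.le
    linarith
  have hrQ : ∑ v ∈ Q, Real.log (Nv v) ≤ ε * ℓ := by
    refine rigid' (fun v : Pr K => Real.log (Nv v)) (fun v : Pr K => gd (Sum.inr v : Pl K) x)
      (sp x) Q hQP (H := H) (ℓ := ℓ) (κ := δ) (δ := 3 * δ) (ε := ε) (ε' := ε) (θ := 2 * θ) hH0 hℓ0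
      hδ.le (by linarith) (by linarith) (by linarith) hε (by linarith) (by linarith)
      (by nlinarith) ?_ hℓ.symm hwP hwP1 ?_ ?_
    · intro v hv
      refine ⟨(log_Nv_pos' v).le, ?_, gd_nonneg _ hx⟩
      have h1 := hsm v hv
      have h2 : θ * L ≤ 2 * θ * ℓ := by nlinarith
      exact h1.trans h2
    · intro D hD hDw
      exact lt_of_le_of_lt (hnd D hD hDw) hkey
    · have h1 : ∑ v ∈ Q, gd (Sum.inr v : Pl K) x ≤ ∑ v ∈ Q, (E : ℝ) * Real.log (Nv v) := by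
        refine Finset.sum_le_sum fun v hv => ?_
        rw [hQ, Finset.mem_filter] at hv
        exact hv.2.le
      rw [← Finset.mul_sum] at h1
      refine h1.trans ?_
      apply mul_le_mul_of_nonneg_right _ (Finset.sum_nonneg fun v _ => (log_Nv_pos' v).le)
      refine hs1.trans (le_of_eq ?_)
      rw [he₀]
      ring
  intro i
  have hT : (1 / 3 - δ - ε) * L ≤ ∑ v ∈ tp i E x, Real.log (Nv v) := by
    have h1 : side i x ⊆ tp i E x ∪ Q := by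
      intro v hv
      by_cases h : (E : ℝ) * Real.log (Nv v) ≤ df (Sum.inr v : Pl K) i x
      · refine Finset.mem_union_left _ ?_
        unfold tp
        exact Finset.mem_filter.2 ⟨hv, h⟩
      · refine Finset.mem_union_right _ ?_
        rw [hQ, Finset.mem_filter, gd_eq hx hv]
        exact ⟨side_sub i x hv, not_le.1 h⟩
    have h2 : rr i x ≤ ∑ v ∈ tp i E x, Real.log (Nv v) + ∑ v ∈ Q, Real.log (Nv v) := by
      have h3 := Finset.sum_le_sum_of_subset_of_nonneg h1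
        (f := fun v : Pr K => Real.log (Nv v)) fun v _ _ => (log_Nv_pos' v).le
      have h4 := Finset.sum_union_inter (s₁ := tp i E x) (s₂ := Q)
        (f := fun v : Pr K => Real.log (Nv v))
      have h5 : 0 ≤ ∑ v ∈ tp i E x ∩ Q, Real.log (Nv v) :=
        Finset.sum_nonneg fun v _ => (log_Nv_pos' v).le
      have h6 : rr i x = ∑ v ∈ side i x, Real.log (Nv v) := rfl
      rw [h6]
      linarith
    have h3 := hrr i
    have h4 : ε * ℓ ≤ ε * L := mul_le_mul_of_nonneg_left hrad hε.le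
    have e : (1 / 3 - δ - ε) * L = (1 / 3 - δ) * L - ε * L := by ring
    rw [e]
    linarith
  refine ⟨?_, hT⟩
  have hHE : H * ((1 - 2 * ε) * ((1 - ε) * 3)) ≤ E * ℓ := by
    have h1 : (1 - 2 * ε) * e₀ * ℓ ≤ E * ℓ := mul_le_mul_of_nonneg_right hs2 hℓ0.le
    refine le_trans (le_of_eq ?_) h1
    rw [he₀]
    field_simp
  have hEL0 : 0 ≤ (E : ℝ) * L := mul_nonneg (Nat.cast_nonneg _) hL.le
  have hEℓ : (E : ℝ) * ℓ ≤ E * L := mul_le_mul_of_nonneg_left hrad (Nat.cast_nonneg _)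
  have hHle : H ≤ (1 + 4 * ε) / 3 * (E * L) := by
    have h1 : 1 ≤ (1 + 4 * ε) * ((1 - 2 * ε) * (1 - ε)) := by nlinarith
    have h2 : H * 3 ≤ (1 + 4 * ε) * (E * L) := by
      calc H * 3 = 1 * (H * 3) := (one_mul _).symm
        _ ≤ ((1 + 4 * ε) * ((1 - 2 * ε) * (1 - ε))) * (H * 3) :=
            mul_le_mul_of_nonneg_right h1 (by positivity)
        _ = (1 + 4 * ε) * (H * ((1 - 2 * ε) * ((1 - ε) * 3))) := by ring
        _ ≤ (1 + 4 * ε) * (E * L) := mul_le_mul_of_nonneg_left (by linarith) (by linarith)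
    linarith
  have h5 : (E : ℝ) * ((1 / 3 - δ - ε) * L) ≤ E * ∑ v ∈ tp i E x, Real.log (Nv v) :=
    mul_le_mul_of_nonneg_left hT (Nat.cast_nonneg _)
  have h6 : ((1 + 4 * ε) / 3 - (1 / 3 - δ - ε)) * (E * L) ≤ (5 * ε) * (E * L) :=
    mul_le_mul_of_nonneg_right (by linarith) hEL0
  have e7 : (E : ℝ) * ((1 / 3 - δ - ε) * L) = (1 / 3 - δ - ε) * (E * L) := by ring
  rw [e7] at h5
  have e8 : ((1 + 4 * ε) / 3 - (1 / 3 - δ - ε)) * (E * L) =
      (1 + 4 * ε) / 3 * (E * L) - (1 / 3 - δ - ε) * (E * L) := by ring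
  rw [e8] at h6
  have e9 : 5 * ε * (E : ℝ) * L = (5 * ε) * (E * L) := by ring
  rw [e9]
  linarith

end Pool.Agent.Y728.AK
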